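import Pool.Agent.Helper472.HC.Rat

/-!
All the periods occur.
-/

set_option autoImplicit false

namespace Pool.Agent.Helper472.HC

open Polynomial

theorem iterate_of_orbit {F : ℤ[X]} {δ : ℤ} {f : ℚ × ℚ → ℚ × ℚ}
    (hf : ∀ P, f P = (P.2, aeval P.2 F - δ * P.1)) {x : ℤ → ℤ} (ho : IsOrbit F δ x) (k : ℕ) :
    f^[k] ((x 0 : ℚ), (x 1 : ℚ)) = ((x k : ℚ), (x (k + 1) : ℚ)) := by
  induction k with
  | zero => simp
  | succ k ih =>
    rw [Function.iterate_succ_apply', ih, hf]
    have h1 := ho (k + 1)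
    rw [add_sub_cancel_right] at h1
    have h4 : aeval ((x (k + 1) : ℤ) : ℚ) F = ((F.eval (x (k + 1)) : ℤ) : ℚ) := by
      have := aeval_algebraMap_apply ℚ (x (k + 1)) F
      simpa using this
    rw [h4, ← h1]
    push_cast
    ext
    · rfl
    · simp

theorem attained {l : List ℤ} {L : ℤ[X]} {δ : ℤ} (hl : 0 < l.length) (hl8 : l.length ≤ 8)
    (hL : L.natDegree ≤ 4) (ho : IsOrbit L δ (fun n : ℤ => l.getD (n % l.length).toNat 0))
    (hmin : ∀ k : ℕ, k < l.length → 0 < k → k ∣ l.length →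
      ¬ (l.getD k 0 = l.getD 0 0 ∧ l.getD ((k + 1) % l.length) 0 = l.getD (1 % l.length) 0))
    {d : ℕ} (hd : 8 ≤ d) : ∃ F : ℤ[X], F.Monic ∧ F.natDegree = d ∧ ∃ a b : ℤ,
      ∀ f : ℚ × ℚ → ℚ × ℚ, (∀ P, f P = (P.2, aeval P.2 F - δ * P.1)) →
        Function.minimalPeriod f ((a : ℚ), (b : ℚ)) = l.length := by
  set x : ℤ → ℤ := fun n : ℤ => l.getD (n % l.length).toNat 0 with hx
  have hper : ∀ n, x (n + l.length) = x n := list_per
  obtain ⟨F, hF, hFd, hFo⟩ := interp hl hper ho (d := d) (by omega) (by omega)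
  refine ⟨F, hF, hFd, x 0, x 1, fun f hf => ?_⟩
  have hit := iterate_of_orbit hf hFo
  have hdvd : Function.minimalPeriod f ((x 0 : ℚ), (x 1 : ℚ)) ∣ l.length :=
    minimalPeriod_dvd_of hit hper
  have hval : ∀ k : ℕ, k < l.length → x k = l.getD k 0 := by
    intro k hk
    have h1 : ((k : ℤ) % l.length).toNat = k := by
      rw [Int.emod_eq_of_lt (by omega) (by exact_mod_cast hk), Int.toNat_natCast]
    rw [hx]
    show l.getD ((k : ℤ) % l.length).toNat 0 = _
    rw [h1]
  have hval' : ∀ k : ℕ, x (k + 1) = l.getD ((k + 1) % l.length) 0 := by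
    intro k
    have h1 : (((k : ℤ) + 1) % l.length).toNat = (k + 1) % l.length := by
      have : ((k : ℤ) + 1) % l.length = (((k + 1) % l.length : ℕ) : ℤ) := by push_cast; ring_nf
      rw [this, Int.toNat_natCast]
    rw [hx]
    show l.getD (((k : ℤ) + 1) % l.length).toNat 0 = _
    rw [h1]
  rcases lt_or_eq_of_le (Nat.le_of_dvd hl hdvd) with hlt | heq
  · exfalso
    have hpos : 0 < Function.minimalPeriod f ((x 0 : ℚ), (x 1 : ℚ)) :=
      Nat.pos_of_dvd_of_pos hdvd hl
    refine hmin _ hlt hpos hdvd ?_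
    have h1 : f^[Function.minimalPeriod f ((x 0 : ℚ), (x 1 : ℚ))] ((x 0 : ℚ), (x 1 : ℚ)) =
        ((x 0 : ℚ), (x 1 : ℚ)) := Function.iterate_minimalPeriod
    rw [hit, Prod.mk.injEq] at h1
    obtain ⟨h2, h3⟩ := h1
    have h2' : x ((Function.minimalPeriod f ((x 0 : ℚ), (x 1 : ℚ)) : ℕ) : ℤ) = x 0 := by
      exact_mod_cast h2
    have h3' : x ((Function.minimalPeriod f ((x 0 : ℚ), (x 1 : ℚ)) : ℕ) + 1) = x 1 := by
      exact_mod_cast h3
    rw [hval _ hlt] at h2'
    rw [hval'] at h3'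
    have h4 := hval 0 hl
    have h5 := hval' 0
    rw [Nat.cast_zero] at h4 h5
    rw [zero_add] at h5
    rw [zero_add] at h5
    rw [h4] at h2'
    rw [h5] at h3'
    exact ⟨h2', h3'⟩
  · exact heq

theorem attained_one {m : ℕ} (hm : m = 1 ∨ m = 2 ∨ m = 3 ∨ m = 4 ∨ m = 6) {d : ℕ} (hd : 8 ≤ d) :
    ∃ F : ℤ[X], F.Monic ∧ F.natDegree = d ∧ ∃ a b : ℤ,
      ∀ f : ℚ × ℚ → ℚ × ℚ, (∀ P, f P = (P.2, aeval P.2 F - (1 : ℤ) * P.1)) →
        Function.minimalPeriod f ((a : ℚ), (b : ℚ)) = m := by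
  rcases hm with rfl | rfl | rfl | rfl | rfl
  · refine attained (l := [0]) (L := C 0) (by simp) (by simp) (by simp)
      (list_orbit (by simp) ?_) ?_ hd
    · intro k hk
      simp only [List.length_cons, List.length_nil, zero_add, Nat.reduceAdd] at hk ⊢
      interval_cases k <;> simp
    · decide
  · refine attained (l := [0, 1]) (L := C 2 - C 2 * X) (by simp) (by simp) (by compute_degree!)
      (list_orbit (by simp) ?_) ?_ hd
    · intro k hk
      simp only [List.length_cons, List.length_nil, zero_add, Nat.reduceAdd] at hk ⊢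
      interval_cases k <;> simp
    · decide
  · refine attained (l := [0, 0, 1]) (L := C 1 - X) (by simp) (by simp) (by compute_degree!)
      (list_orbit (by simp) ?_) ?_ hd
    · intro k hk
      simp only [List.length_cons, List.length_nil, zero_add, Nat.reduceAdd] at hk ⊢
      interval_cases k <;> simp
    · decide
  · refine attained (l := [0, 0, 1, 1]) (L := C 1) (by simp) (by simp) (by simp)
      (list_orbit (by simp) ?_) ?_ hd
    · intro k hk
      simp only [List.length_cons, List.length_nil, zero_add, Nat.reduceAdd] at hk ⊢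
      interval_cases k <;> simp
    · decide
  · refine attained (l := [0, 0, 1, 2, 2, 1]) (L := C 1 + X) (by simp) (by simp)
      (by compute_degree!) (list_orbit (by simp) ?_) ?_ hd
    · intro k hk
      simp only [List.length_cons, List.length_nil, zero_add, Nat.reduceAdd] at hk ⊢
      interval_cases k <;> simp
    · decide

theorem attained_neg {m : ℕ} (hm : m = 1 ∨ m = 2 ∨ m = 3 ∨ m = 4 ∨ m = 6 ∨ m = 8) {d : ℕ}
    (hd : 8 ≤ d) : ∃ F : ℤ[X], F.Monic ∧ F.natDegree = d ∧ ∃ a b : ℤ,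
      ∀ f : ℚ × ℚ → ℚ × ℚ, (∀ P, f P = (P.2, aeval P.2 F - (-1 : ℤ) * P.1)) →
        Function.minimalPeriod f ((a : ℚ), (b : ℚ)) = m := by
  rcases hm with rfl | rfl | rfl | rfl | rfl | rfl
  · refine attained (l := [0]) (L := C 0) (by simp) (by simp) (by simp)
      (list_orbit (by simp) ?_) ?_ hd
    · intro k hk
      simp only [List.length_cons, List.length_nil, zero_add, Nat.reduceAdd] at hk ⊢
      interval_cases k <;> simp
    · decide
  · refine attained (l := [0, 1]) (L := C 0) (by simp) (by simp) (by simp)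
      (list_orbit (by simp) ?_) ?_ hd
    · intro k hk
      simp only [List.length_cons, List.length_nil, zero_add, Nat.reduceAdd] at hk ⊢
      interval_cases k <;> simp
    · decide
  · obtain ⟨h0, h8, F, hF, hFo⟩ := base_list (l := [0, 1, 2]) (Or.inr (Or.inl rfl))
    exact attained h0 h8 hF hFo (by decide) hd
  · obtain ⟨h0, h8, F, hF, hFo⟩ := base_list (l := [0, 1, 1, 1 + 1])
      (Or.inl ⟨1, 1, Or.inl rfl, by norm_num, rfl⟩)
    exact attained h0 h8 hF hFo (by decide) hd
  · obtain ⟨h0, h8, F, hF, hFo⟩ := base_list (l := [0, 3, 2, 2, 1, 4])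
      (Or.inr (Or.inr (Or.inr (Or.inl rfl))))
    exact attained h0 h8 hF hFo (by decide) hd
  · obtain ⟨h0, h8, F, hF, hFo⟩ := base_list (l := [0, 1, 2, 1, 4, 3, 2, 3])
      (Or.inr (Or.inr (Or.inr (Or.inr (Or.inl rfl)))))
    exact attained h0 h8 hF hFo (by decide) hd

end Pool.Agent.Helper472.HC
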