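import Pool.Agent.Helper472.HC.Final

/-!
Integral cycles of integral Hénon maps: all the cycles of the list occur, in all degrees `≥ 8`.
-/

set_option autoImplicit false

namespace Pool.Agent.Helper472.HC

open Polynomial

theorem mod_eq {x : ℤ → ℤ} {p : ℕ} (hp : 0 < p) (hper : ∀ n, x (n + p) = x n) (n : ℤ) :
    ∃ k : ℕ, k < p ∧ x n = x k := by
  have hp' : (0 : ℤ) < p := by exact_mod_cast hp
  have h1 : 0 ≤ n % (p : ℤ) := Int.emod_nonneg _ hp'.ne'
  have h2 : n % (p : ℤ) < p := Int.emod_lt_of_pos _ hp'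
  refine ⟨(n % (p : ℤ)).toNat, by omega, ?_⟩
  rw [Int.toNat_of_nonneg h1]
  have h4 := periodic_mul hper (n / p) (n % p)
  have h5 : n % (p : ℤ) + p * (n / p) = n := Int.emod_add_mul_ediv n p
  rw [h5] at h4
  exact h4

theorem interp {δ : ℤ} {x : ℤ → ℤ} {p : ℕ} (hp : 0 < p) (hper : ∀ n, x (n + p) = x n) {L : ℤ[X]}
    (hL : IsOrbit L δ x) {d : ℕ} (hd : p ≤ d) (hLd : L.natDegree < d) :
    ∃ F : ℤ[X], F.Monic ∧ F.natDegree = d ∧ IsOrbit F δ x := by
  set Q : ℤ[X] := X ^ (d - p) * ∏ k ∈ Finset.range p, (X - C (x (k : ℕ))) with hQ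
  have hm : (∏ k ∈ Finset.range p, (X - C (x (k : ℕ)))).Monic :=
    monic_prod_of_monic _ _ fun k _ => monic_X_sub_C _
  have hQm : Q.Monic := (monic_X_pow _).mul hm
  have hQd : Q.natDegree = d := by
    rw [hQ, (monic_X_pow _).natDegree_mul hm, natDegree_X_pow,
      natDegree_prod_of_monic _ _ fun k _ => monic_X_sub_C _]
    simp only [natDegree_X_sub_C, Finset.sum_const, Finset.card_range, smul_eq_mul, mul_one]
    omega
  have hlt : L.degree < Q.degree := by
    refine degree_lt_degree ?_
    rw [hQd]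
    exact hLd
  refine ⟨Q + L, hQm.add_of_left hlt, ?_, ?_⟩
  · rw [natDegree_add_eq_left_of_natDegree_lt (by rw [hQd]; exact hLd), hQd]
  · intro n
    obtain ⟨k, hk, hxk⟩ := mod_eq hp hper n
    rw [hL n, eval_add]
    have h0 : Q.eval (x n) = 0 := by
      rw [hQ, eval_mul, eval_prod, Finset.prod_eq_zero (Finset.mem_range.2 hk), mul_zero]
      rw [hxk]
      simp
    rw [h0, zero_add]

theorem two_per {x : ℤ → ℤ} (h : ∀ n, x (n + 2) = x n) (n : ℤ) : x (n - 1) = x (n + 1) := by
  have h1 := h (n - 1)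
  rw [← h1]
  congr 1
  ring

/-- the cycles for `δ = 1` -/
def Cyc1 (x : ℤ → ℤ) : Prop :=
  (∀ n, x (n + 2) = x n) ∨
    ∃ c s : ℤ, (c = -1 ∨ c = 0 ∨ c = 1) ∧ ∀ n, x (n + 1) + x (n - 1) = s + c * x n

/-- the cycles for `δ = -1` -/
def Cyc2 (x : ℤ → ℤ) : Prop :=
  (∀ n, x (n + 2) = x n) ∨ ∃ l, Exc l ∧ (Repeats l x ∨ Repeats l (fun n => x (-n)))

theorem cyc1_of {F : ℤ[X]} {x : ℤ → ℤ} (hb : ∃ B, ∀ n, |x n| ≤ B) (h : IsOrbit F 1 x) :
    Cyc1 x := by
  rcases classify_one hb h with h1 | ⟨c, s, hc, h1⟩
  · exact Or.inl h1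
  · refine Or.inr ⟨c, s, hc, fun n => ?_⟩
    have h2 := h n
    rw [h1 n, one_mul] at h2
    exact h2

/-- the period of a cycle for `δ = 1` -/
theorem cyc1_per {x : ℤ → ℤ} (h : Cyc1 x) :
    (∀ n, x (n + 2) = x n) ∨ (∀ n, x (n + 3) = x n) ∨ (∀ n, x (n + 4) = x n) ∨
      (∀ n, x (n + 6) = x n) := by
  rcases h with h | ⟨c, s, hc, h⟩
  · exact Or.inl h
  · right
    have e1 : ∀ n, x (n + 1 + 1) + x n = s + c * x (n + 1) := fun n => by
      have := h (n + 1)
      rw [add_sub_cancel_right] at this
      exact this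
    rcases hc with rfl | rfl | rfl
    · left
      intro n
      have h1 := e1 n
      have h2 := e1 (n + 1)
      have e : n + 3 = n + 1 + 1 + 1 := by ring
      rw [e]
      linarith
    · right; left
      intro n
      have h1 := e1 n
      have h2 := e1 (n + 1 + 1)
      have e : n + 4 = n + 1 + 1 + 1 + 1 := by ring
      rw [e]
      linarith
    · right; right
      intro n
      have h1 := e1 n
      have h2 := e1 (n + 1)
      have h3 := e1 (n + 1 + 1)
      have h4 := e1 (n + 1 + 1 + 1)
      have h5 := e1 (n + 1 + 1 + 1 + 1)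
      have e : n + 6 = n + 1 + 1 + 1 + 1 + 1 + 1 := by ring
      rw [e]
      linarith

theorem cyc1_conv {x : ℤ → ℤ} (h : Cyc1 x) {d : ℕ} (hd : 6 ≤ d) :
    ∃ F : ℤ[X], F.Monic ∧ F.natDegree = d ∧ IsOrbit F 1 x := by
  rcases h with h | ⟨c, s, hc, h⟩
  · refine interp (L := C (2 * (x 0 + x 1)) - C 2 * X) (p := 2) (by norm_num)
      (fun n => by exact_mod_cast h n) ?_ (by omega) (lt_of_le_of_lt (b := 1) (by compute_degree) (by omega))
    intro n
    rw [two_per h n]
    have h2 : x n + x (n + 1) = x 0 + x 1 := by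
      have key : ∀ n, x n + x (n + 1) = x 0 + x 1 := by
        refine two_sided (fun n => x n + x (n + 1) = x 0 + x 1) 0 (by simp) ?_ ?_
        · intro n h3
          have h4 := h n
          have e : n + 1 + 1 = n + 2 := by ring
          rw [e, h4]
          linarith
        · intro n h3
          rw [sub_add_cancel, two_per h n]
          linarith
      exact key n
    simp only [eval_sub, eval_mul, eval_C, eval_X]
    linarith
  · have hL : IsOrbit (C s + C c * X) 1 x := by
      intro n
      rw [one_mul, h n]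
      simp
    have e1 : ∀ n, x (n + 1 + 1) + x n = s + c * x (n + 1) := fun n => by
      have := h (n + 1)
      rw [add_sub_cancel_right] at this
      exact this
    have hdeg : (C s + C c * X : ℤ[X]).natDegree < d :=
      lt_of_le_of_lt (b := 1) (by compute_degree) (by omega)
    rcases hc with rfl | rfl | rfl
    · refine interp (p := 3) (by norm_num) ?_ hL (by omega) hdeg
      intro n
      have h1 := e1 n
      have h2 := e1 (n + 1)
      have e : n + (3 : ℕ) = n + 1 + 1 + 1 := by push_cast; ring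
      rw [e]
      linarith
    · refine interp (p := 4) (by norm_num) ?_ hL (by omega) hdeg
      intro n
      have h1 := e1 n
      have h2 := e1 (n + 1 + 1)
      have e : n + (4 : ℕ) = n + 1 + 1 + 1 + 1 := by push_cast; ring
      rw [e]
      linarith
    · refine interp (p := 6) (by norm_num) ?_ hL (by omega) hdeg
      intro n
      have h1 := e1 n
      have h2 := e1 (n + 1)
      have h3 := e1 (n + 1 + 1)
      have h4 := e1 (n + 1 + 1 + 1)
      have h5 := e1 (n + 1 + 1 + 1 + 1)
      have e : n + (6 : ℕ) = n + 1 + 1 + 1 + 1 + 1 + 1 := by push_cast; ring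
      rw [e]
      linarith

theorem emod_succ_cases {n m : ℤ} (hm : 0 < m) :
    ((n + 1) % m = n % m + 1 ∧ n % m + 1 < m) ∨ ((n + 1) % m = 0 ∧ n % m + 1 = m) := by
  have h1 : 0 ≤ n % m := Int.emod_nonneg _ hm.ne'
  have h2 : n % m < m := Int.emod_lt_of_pos _ hm
  have h3 : (n + 1) % m = (n % m + 1) % m := by rw [Int.emod_add_emod]
  rcases lt_or_eq_of_le (by omega : n % m + 1 ≤ m) with h4 | h4
  · left
    exact ⟨by rw [h3, Int.emod_eq_of_lt (by omega) h4], h4⟩
  · right
    refine ⟨by rw [h3, h4, Int.emod_self], h4⟩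

/-- a list that satisfies the recursion cyclically is an orbit -/
theorem list_orbit {l : List ℤ} {F : ℤ[X]} {δ : ℤ} (hl : 0 < l.length)
    (h : ∀ k : ℕ, k < l.length → l.getD ((k + 2) % l.length) 0 + δ * l.getD k 0 =
      F.eval (l.getD ((k + 1) % l.length) 0)) :
    IsOrbit F δ (fun n : ℤ => l.getD (n % l.length).toNat 0) := by
  have key : ∀ n : ℤ, l.getD ((n + 1 + 1) % l.length).toNat 0 + δ * l.getD (n % l.length).toNat 0 =
      F.eval (l.getD ((n + 1) % l.length).toNat 0) := by
    intro n
    have hl' : (0 : ℤ) < l.length := by exact_mod_cast hl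
    have h1 : 0 ≤ n % (l.length : ℤ) := Int.emod_nonneg _ hl'.ne'
    have h2 : n % (l.length : ℤ) < l.length := Int.emod_lt_of_pos _ hl'
    have h3 := h (n % (l.length : ℤ)).toNat (by omega)
    have e1 : ((n + 1) % (l.length : ℤ)).toNat = ((n % (l.length : ℤ)).toNat + 1) % l.length := by
      zify
      rw [Int.toNat_of_nonneg (Int.emod_nonneg _ hl'.ne'), Int.toNat_of_nonneg h1,
        Int.emod_add_emod]
    have e2 : ((n + 1 + 1) % (l.length : ℤ)).toNat =
        ((n % (l.length : ℤ)).toNat + 2) % l.length := by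
      zify
      rw [Int.toNat_of_nonneg (Int.emod_nonneg _ hl'.ne'), Int.toNat_of_nonneg h1,
        Int.emod_add_emod]
      congr 1
      ring
    rw [e1, e2]
    exact h3
  intro n
  have h1 := key (n - 1)
  rw [sub_add_cancel] at h1
  exact h1

theorem list_per {l : List ℤ} (n : ℤ) :
    (fun n : ℤ => l.getD (n % l.length).toNat 0) (n + l.length) =
      (fun n : ℤ => l.getD (n % l.length).toNat 0) n := by
  simp

theorem base_list {l : List ℤ} (h : Exc l) : 0 < l.length ∧ l.length ≤ 8 ∧
    ∃ F : ℤ[X], F.natDegree ≤ 4 ∧ IsOrbit F (-1) (fun n : ℤ => l.getD (n % l.length).toNat 0) := by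
  rcases h with ⟨a, b, ha, hb, rfl⟩ | rfl | rfl | rfl | rfl | rfl
  · refine ⟨by simp, by simp, ?_⟩
    rcases ha with rfl | rfl
    · refine ⟨C (-b) + C 2 * (X * (C (1 + b) - X)), by compute_degree!, list_orbit (by simp) ?_⟩
      intro k hk
      simp only [List.length_cons, List.length_nil, zero_add, Nat.reduceAdd] at hk ⊢
      interval_cases k <;> simp <;> ring
    · refine ⟨C (-b) + X * (C (2 + b) - X), by compute_degree!, list_orbit (by simp) ?_⟩
      intro k hk
      simp only [List.length_cons, List.length_nil, zero_add, Nat.reduceAdd] at hk ⊢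
      interval_cases k <;> simp <;> ring
  · refine ⟨by simp, by simp, C (-1) + C 3 * (X * (C 2 - X)), by compute_degree!,
      list_orbit (by simp) ?_⟩
    intro k hk
    simp only [List.length_cons, List.length_nil, zero_add, Nat.reduceAdd] at hk ⊢
    interval_cases k <;> simp
  · refine ⟨by simp, by simp, C (-3) + X * (C 6 - X), by compute_degree!,
      list_orbit (by simp) ?_⟩
    intro k hk
    simp only [List.length_cons, List.length_nil, zero_add, Nat.reduceAdd] at hk ⊢
    interval_cases k <;> simp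
  · refine ⟨by simp, by simp, C (-1) + C 3 * X - C 3 * (X * (X - C 1)) +
      C 2 * (X * (X - C 1) * (X - C 2)) - X * (X - C 1) * (X - C 2) * (X - C 3), by compute_degree!,
      list_orbit (by simp) ?_⟩
    intro k hk
    simp only [List.length_cons, List.length_nil, zero_add, Nat.reduceAdd] at hk ⊢
    interval_cases k <;> simp
  · refine ⟨by simp, by simp, C (-2) + C 4 * X - C 3 * (X * (X - C 1)) +
      X * (X - C 1) * (X - C 2), by compute_degree!, list_orbit (by simp) ?_⟩
    intro k hk
    simp only [List.length_cons, List.length_nil, zero_add, Nat.reduceAdd] at hk ⊢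
    interval_cases k <;> simp
  · refine ⟨by simp, by simp, C (-1) + C 2 * (X * (X - C 1)) -
      C 2 * (X * (X - C 1) * (X - C 2)) + X * (X - C 1) * (X - C 2) * (X - C 3),
      by compute_degree!, list_orbit (by simp) ?_⟩
    intro k hk
    simp only [List.length_cons, List.length_nil, zero_add, Nat.reduceAdd] at hk ⊢
    interval_cases k <;> simp

theorem per_of_repeats {l : List ℤ} {x : ℤ → ℤ} (h : Repeats l x) (n : ℤ) :
    x (n + l.length) = x n := by
  obtain ⟨t, b, h⟩ := h
  have h1 := h (n - t)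
  have h2 := h (n + l.length - t)
  have e1 : t + (n - t) = n := by ring
  have e2 : t + (n + l.length - t) = n + l.length := by ring
  have e3 : (n + (l.length : ℤ) - t) % l.length = (n - t) % l.length := by
    have : n + (l.length : ℤ) - t = (n - t) + l.length := by ring
    rw [this, Int.add_emod_right]
  rw [e1] at h1
  rw [e2, e3] at h2
  rw [h1, h2]

theorem orbit_of_repeats {l : List ℤ} {F : ℤ[X]}
    (hF : IsOrbit F (-1) (fun n : ℤ => l.getD (n % l.length).toNat 0)) {x : ℤ → ℤ}
    (h : Repeats l x) (hd : F.natDegree ≤ 4) :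
    ∃ L : ℤ[X], L.natDegree ≤ 4 ∧ IsOrbit L (-1) x := by
  obtain ⟨t, b, h⟩ := h
  refine ⟨F.comp (X - C b), ?_, ?_⟩
  · rw [natDegree_comp, natDegree_X_sub_C, mul_one]
    exact hd
  · intro n
    have h1 := hF (n - t)
    have h2 := h (n - t)
    have h3 := h (n - t + 1)
    have h4 := h (n - t - 1)
    have e2 : t + (n - t) = n := by ring
    have e3 : t + (n - t + 1) = n + 1 := by ring
    have e4 : t + (n - t - 1) = n - 1 := by ring
    rw [e2] at h2
    rw [e3] at h3
    rw [e4] at h4
    simp only at h1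
    rw [eval_comp, h3, h4]
    simp only [eval_sub, eval_X, eval_C]
    have h5 : x n - b = l.getD ((n - t) % l.length).toNat 0 := by rw [h2]; ring
    rw [h5, ← h1]
    ring

theorem cyc2_conv {x : ℤ → ℤ} (h : Cyc2 x) {d : ℕ} (hd : 8 ≤ d) :
    ∃ F : ℤ[X], F.Monic ∧ F.natDegree = d ∧ IsOrbit F (-1) x := by
  rcases h with h | ⟨l, hl, h⟩
  · refine interp (L := 0) (p := 2) (by norm_num)
      (fun n => by exact_mod_cast h n) ?_ (by omega) (by rw [natDegree_zero]; omega)
    intro n
    rw [two_per h n]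
    simp
  · obtain ⟨h0, h8, F, hF, hFo⟩ := base_list hl
    rcases h with h | h
    · obtain ⟨L, hL, hLo⟩ := orbit_of_repeats hFo h hF
      exact interp h0 (per_of_repeats h) hLo (by omega) (by omega)
    · obtain ⟨L, hL, hLo⟩ := orbit_of_repeats hFo h hF
      refine interp (L := -L) h0 (fun n => ?_) ?_ (by omega) (by rw [natDegree_neg]; omega)
      · have h1 := per_of_repeats h (-(n + l.length))
        rw [neg_neg] at h1
        have e : -(-(n + (l.length : ℤ)) + l.length) = n := by ring
        rw [e] at h1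
        exact h1.symm
      · intro n
        have h1 := hLo (-n)
        simp only at h1
        rw [neg_neg] at h1
        have e1 : -(-n + 1) = n - 1 := by ring
        have e2 : -(-n - 1) = n + 1 := by ring
        rw [e1, e2] at h1
        rw [eval_neg, ← h1]
        ring

/-- the period of a cycle for `δ = -1` -/
theorem cyc2_per {x : ℤ → ℤ} (h : Cyc2 x) :
    (∀ n, x (n + 2) = x n) ∨ (∀ n, x (n + 3) = x n) ∨ (∀ n, x (n + 4) = x n) ∨
      (∀ n, x (n + 6) = x n) ∨ (∀ n, x (n + 8) = x n) := by
  rcases h with h | ⟨l, hl, h⟩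
  · exact Or.inl h
  · right
    have hper : ∀ n, x (n + l.length) = x n := by
      rcases h with h | h
      · exact per_of_repeats h
      · intro n
        have h1 := per_of_repeats h (-(n + l.length))
        rw [neg_neg] at h1
        have e : -(-(n + (l.length : ℤ)) + l.length) = n := by ring
        rw [e] at h1
        exact h1.symm
    rcases hl with ⟨a, b, ha, hb, rfl⟩ | rfl | rfl | rfl | rfl | rfl
    · exact Or.inr (Or.inl hper)
    · exact Or.inl hper
    · exact Or.inl hper
    · exact Or.inr (Or.inr (Or.inl hper))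
    · exact Or.inr (Or.inr (Or.inr hper))
    · exact Or.inr (Or.inr (Or.inr hper))

end Pool.Agent.Helper472.HC
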