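import Mathlib

/-!
Integral cycles of integral Hénon maps: exhaustive search for cycles of small diameter, with a proof
that the search is complete.
-/

set_option autoImplicit false

namespace Pool.Agent.Helper472.HC

open Polynomial

/-- `nest [(a₀, c₀), (a₁, c₁), …] H = c₀ + (X - a₀) (c₁ + (X - a₁) (… H))` (Newton's form of a
polynomial) -/
noncomputable def nest : List (ℤ × ℤ) → ℤ[X] → ℤ[X]
  | [], H => H
  | (a, c) :: l, H => C c + (X - C a) * nest l H

/-- the value at `b` of the innermost polynomial if the value at `b` of the whole is `v` -/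
def peel : List (ℤ × ℤ) → ℤ → ℤ → Option ℤ
  | [], _, v => some v
  | (a, c) :: l, b, v => if (v - c) % (b - a) = 0 then peel l b ((v - c) / (b - a)) else none

/-- the value at a node -/
def value : List (ℤ × ℤ) → ℤ → ℤ
  | [], _ => 0
  | (a, c) :: l, b => c + (b - a) * value l b

theorem eval_value (l : List (ℤ × ℤ)) (H : ℤ[X]) (b : ℤ) (hb : b ∈ l.map Prod.fst) :
    (nest l H).eval b = value l b := by
  induction l with
  | nil => simp at hb
  | cons p l ih =>
    obtain ⟨a, c⟩ := p
    simp only [nest, value, eval_add, eval_C, eval_mul, eval_sub, eval_X]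
    by_cases h : b = a
    · subst h
      simp
    · have hb' : b ∈ l.map Prod.fst := by
        simp only [List.map_cons, List.mem_cons] at hb
        exact hb.resolve_left h
      rw [ih hb']

theorem peel_eval (l : List (ℤ × ℤ)) (H : ℤ[X]) (b : ℤ) (hb : b ∉ l.map Prod.fst) :
    peel l b ((nest l H).eval b) = some (H.eval b) := by
  induction l with
  | nil => rfl
  | cons p l ih =>
    obtain ⟨a, c⟩ := p
    simp only [List.map_cons, List.mem_cons, not_or] at hb
    have hne : b - a ≠ 0 := sub_ne_zero.2 hb.1
    simp only [nest, peel, eval_add, eval_C, eval_mul, eval_sub, eval_X]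
    rw [if_pos (by simp), add_sub_cancel_left, Int.mul_ediv_cancel_left _ hne]
    exact ih hb.2

theorem nest_append (l : List (ℤ × ℤ)) (b h : ℤ) (H : ℤ[X]) :
    nest (l ++ [(b, h)]) H = nest l (C h + (X - C b) * H) := by
  induction l with
  | nil => rfl
  | cons p l ih =>
    obtain ⟨a, c⟩ := p
    simp only [List.cons_append, nest, ih]

theorem exists_rest (H : ℤ[X]) (b : ℤ) : ∃ H' : ℤ[X], H = C (H.eval b) + (X - C b) * H' := by
  have h : (X - C b) ∣ H - C (H.eval b) := by
    rw [dvd_iff_isRoot]
    simp [IsRoot]
  obtain ⟨H', h'⟩ := h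
  exact ⟨H', by rw [← h']; ring⟩

/-- The search. `st`: the values of `F` found so far (Newton's form); `prev`, `cur`: two consecutive
terms of the sequence, `path`: all the terms before `cur`.  It returns `true` if all sequences in
`[0, S]` which start in this way come back to `(x0, x1)`, with `acc` true at the end. -/
def go (δ S x0 x1 : ℤ) (acc : List (ℤ × ℤ) → List ℤ → Bool) :
    ℕ → List (ℤ × ℤ) → ℤ → ℤ → List ℤ → Bool
  | 0, _, _, _, _ => false
  | k + 1, st, prev, cur, path =>
    if !path.isEmpty && (decide (prev = x0) && decide (cur = x1)) then acc st path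
    else if (st.map Prod.fst).contains cur then
      if decide (0 ≤ value st cur - δ * prev) && decide (value st cur - δ * prev ≤ S) then
        go δ S x0 x1 acc k st cur (value st cur - δ * prev) (path ++ [prev]) else true
    else (List.range (S.toNat + 1)).all fun m =>
      match peel st cur ((m : ℤ) + δ * prev) with
      | none => true
      | some h => go δ S x0 x1 acc k (st ++ [(cur, h)]) cur m (path ++ [prev])

theorem go_sound (δ S : ℤ) (acc : List (ℤ × ℤ) → List ℤ → Bool) (F : ℤ[X]) (x : ℕ → ℤ)
    (hS : ∀ n, 0 ≤ x n ∧ x n ≤ S) (hrec : ∀ n, x (n + 2) = F.eval (x (n + 1)) - δ * x n) :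
    ∀ (k : ℕ) (st : List (ℤ × ℤ)) (H : ℤ[X]) (n : ℕ), F = nest st H →
      (∀ j, 1 ≤ j → j ≤ n → x j ∈ st.map Prod.fst) →
      go δ S (x 0) (x 1) acc k st (x n) (x (n + 1)) ((List.range n).map x) = true →
      ∃ (m : ℕ) (st' : List (ℤ × ℤ)) (H' : ℤ[X]), 0 < m ∧ x m = x 0 ∧ x (m + 1) = x 1 ∧
        F = nest st' H' ∧ (∀ j, 1 ≤ j → j ≤ m → x j ∈ st'.map Prod.fst) ∧
        acc st' ((List.range m).map x) = true := by
  intro k
  induction k with
  | zero => intro st H n _ _ h; simp [go] at h
  | succ k ih =>
    intro st H n hF hn h
    rw [go] at h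
    split_ifs at h with h1 h2 h3
    · simp only [Bool.and_eq_true, Bool.not_eq_true', List.isEmpty_eq_false_iff,
        decide_eq_true_eq] at h1
      obtain ⟨h1, h2, h3⟩ := h1
      refine ⟨n, st, H, ?_, h2, h3, hF, hn, h⟩
      rcases Nat.eq_zero_or_pos n with h0 | h0
      · subst h0
        simp at h1
      · exact h0
    · -- `cur` is a node
      have h2' : x (n + 1) ∈ st.map Prod.fst := by simpa using h2
      have hv : F.eval (x (n + 1)) = value st (x (n + 1)) := by
        rw [hF]
        exact eval_value st H _ h2'
      have hx2 : value st (x (n + 1)) - δ * x n = x (n + 2) := by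
        rw [hrec n, hv]
      rw [hx2] at h
      have hp : (List.range n).map x ++ [x n] = (List.range (n + 1)).map x := by
        rw [List.range_succ, List.map_append]
        rfl
      rw [hp] at h
      refine ih st H (n + 1) hF ?_ h
      intro j hj hj'
      rcases Nat.lt_or_ge n j with h4 | h4
      · have : j = n + 1 := by omega
        subst this
        exact h2'
      · exact hn j hj h4
    · exfalso
      have h2' : x (n + 1) ∈ st.map Prod.fst := by simpa using h2
      have hv : F.eval (x (n + 1)) = value st (x (n + 1)) := by
        rw [hF]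
        exact eval_value st H _ h2'
      have hx2 : value st (x (n + 1)) - δ * x n = x (n + 2) := by
        rw [hrec n, hv]
      rw [hx2] at h3
      apply h3
      simp only [Bool.and_eq_true, decide_eq_true_eq]
      exact hS (n + 2)
    · have h2' : x (n + 1) ∉ st.map Prod.fst := by simpa using h2
      rw [List.all_eq_true] at h
      have hb := hS (n + 2)
      have hm : ((x (n + 2)).toNat : ℤ) = x (n + 2) := Int.toNat_of_nonneg hb.1
      have h5 := h (x (n + 2)).toNat (by
        rw [List.mem_range]
        omega)
      have hval : ((x (n + 2)).toNat : ℤ) + δ * x n = (nest st H).eval (x (n + 1)) := by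
        rw [hm, hrec n, ← hF]
        ring
      rw [hval, peel_eval st H _ h2', hm] at h5
      obtain ⟨H', hH'⟩ := exists_rest H (x (n + 1))
      have hp : (List.range n).map x ++ [x n] = (List.range (n + 1)).map x := by
        rw [List.range_succ, List.map_append]
        rfl
      simp only [hp] at h5
      refine ih (st ++ [(x (n + 1), H.eval (x (n + 1)))]) H' (n + 1) ?_ ?_ h5
      · rw [nest_append, ← hH']
        exact hF
      · intro j hj hj'
        rw [List.map_append, List.mem_append]
        rcases Nat.lt_or_ge n j with h4 | h4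
        · have : j = n + 1 := by omega
          subst this
          right
          simp
        · exact Or.inl (hn j hj h4)

end Pool.Agent.Helper472.HC
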