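import Pool.Agent.Helper472.HC.Large2

/-!
Integral cycles of integral Hénon maps: cycles of diameter at least `10`, `δ = -1`, conclusion.
-/

set_option autoImplicit false

namespace Pool.Agent.Helper472.HC

section

variable {x e G : ℤ → ℤ} {S s : ℤ}

/-- two values only -/
theorem two_values' {y : ℤ → ℤ} (hr : ∀ n m k, m = n + 1 → k = n - 1 → x m - x k = y (x n))
    {a b : ℤ} (ha : y a = 0) (hb : y b = 0) {j : ℤ} (h1 : x j = a) (h2 : x (j + 1) = b) (n : ℤ) :
    x n = a ∧ x (n + 1) = b ∨ x n = b ∧ x (n + 1) = a := by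
  revert n
  refine two_sided (fun n => (x n = a ∧ x (n + 1) = b) ∨ (x n = b ∧ x (n + 1) = a)) j
    (Or.inl ⟨h1, h2⟩) ?_ ?_
  · intro n h
    have h5 := hr (n + 1) (n + 1 + 1) n rfl (by ring)
    rcases h with ⟨h6, h7⟩ | ⟨h6, h7⟩
    · rw [h7, hb] at h5; right; omega
    · rw [h7, ha] at h5; left; omega
  · intro n h
    have h5 := hr n (n + 1) (n - 1) rfl rfl
    rw [sub_add_cancel]
    rcases h with ⟨h6, h7⟩ | ⟨h6, h7⟩
    · rw [h6, ha] at h5; right; omega
    · rw [h6, hb] at h5; left; omega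

theorem period_two {a b : ℤ}
    (h : ∀ n, x n = a ∧ x (n + 1) = b ∨ x n = b ∧ x (n + 1) = a) (n : ℤ) : x (n + 2) = x n := by
  have h1 := h n
  have h2 := h (n + 1)
  have e1 : n + 1 + 1 = n + 2 := by ring
  rw [e1] at h2
  omega

/-- `c = 0`, `s = 0` -/
theorem m_c00 (hx : ∀ n, 0 ≤ x n ∧ x n ≤ S)
    (hr : ∀ n m k, m = n + 1 → k = n - 1 → x m - x k = - e (x n)) (he0 : e 0 = 0)
    {i : ℤ} (hi : x i = 0) : ∀ n, x (n + 2) = x n := by
  have r0 := hr i (i + 1) (i - 1) rfl rfl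
  rw [hi, he0] at r0
  have r1 := hr (i + 1) (i + 2) i (by ring) (by ring)
  have rm := hr (i - 1) i (i - 2) (by ring) (by ring)
  have a2 := hx (i + 2)
  have am2 := hx (i - 2)
  have h1 : x (i - 1) = x (i + 1) := by omega
  rw [h1] at rm
  exact period_two (two_values' (y := fun a => - e a) hr (a := 0) (b := x (i + 1))
    (by rw [he0]; rfl) (by omega) hi rfl)

/-- `c = 1` is impossible -/
theorem m_c1 (hS : 10 ≤ S) (hx : ∀ n, 0 ≤ x n ∧ x n ≤ S)
    (hr : ∀ n m k, m = n + 1 → k = n - 1 → x m - x k = s + x n - e (x n)) (he0 : e 0 = 0)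
    (heS : e S = 0) (hT : ∀ n, TC S (x n) (G (x n)) (e (x n)))
    (hG : ∀ a b, (a - b) ∣ G a - G b) {i : ℤ} (hi : x i = 0)
    {j : ℤ} (hj : x j = S) : False := by
  have r0 := hr i (i + 1) (i - 1) rfl rfl
  rw [hi, he0] at r0
  have r1 := hr (i + 1) (i + 2) i (by ring) (by ring)
  rw [hi] at r1
  have rm := hr (i - 1) i (i - 2) (by ring) (by ring)
  rw [hi] at rm
  have q0 := hr j (j + 1) (j - 1) rfl rfl
  rw [hj, heS] at q0
  have q1 := hr (j + 1) (j + 2) j (by ring) (by ring)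
  rw [hj] at q1
  have qm := hr (j - 1) j (j - 2) (by ring) (by ring)
  rw [hj] at qm
  have a1 := hx (i + 1)
  have a2 := hx (i + 2)
  have am1 := hx (i - 1)
  have am2 := hx (i - 2)
  have b1 := hx (j + 1)
  have b2 := hx (j + 2)
  have bm1 := hx (j - 1)
  have bm2 := hx (j - 2)
  have hq : 0 < x (i + 1) := by
    by_contra h
    have h1 : x (i + 1) = 0 := by omega
    rw [h1, he0] at r1
    have hs : s = 0 := by omega
    have := two_values' (y := fun a => s + a - e a) hr (a := 0) (b := 0) (by rw [he0]; omega)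
      (by rw [he0]; omega) hi h1 j
    omega
  have hp : (x (i - 1) = 1 ∨ x (i - 1) = 2 ∨ x (i - 1) = S - 1 ∨ x (i - 1) = S - 2) ∧
      0 < G (x (i - 1)) ∧ G (x (i - 1)) ≤ 2 := by
    clear q0 q1 qm b1 b2 bm1 bm2
    (have hh := hT (i - 1)
     unfold TC at hh
     rcases hh with ⟨hh, hh'⟩ | ⟨hh, hh'⟩ | ⟨hh, hh1, hh2, hh'⟩ |
         ⟨hh, ⟨hh', hh''⟩ | ⟨hh', hh''⟩ | ⟨hh', hh''⟩ | ⟨hh', hh''⟩ | ⟨hh', hh''⟩⟩ |
         ⟨hh, ⟨hh', hh''⟩ | ⟨hh', hh''⟩ | ⟨hh', hh''⟩ | ⟨hh', hh''⟩ | ⟨hh', hh''⟩⟩ |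
         ⟨hh, ⟨hh', hh''⟩ | ⟨hh', hh''⟩ | ⟨hh', hh''⟩⟩ |
         ⟨hh, ⟨hh', hh''⟩ | ⟨hh', hh''⟩ | ⟨hh', hh''⟩⟩ <;> omega)
  have hp' : x (j - 1) < -s := by
    by_contra h
    have h1 : x (j - 1) = -s := by omega
    have h2 : x (j + 1) = S := by omega
    rw [h2, heS] at q1
    have hs : s = -S := by omega
    have := two_values' (y := fun a => s + a - e a) hr (a := S) (b := S) (by rw [heS]; omega)
      (by rw [heS]; omega) hj h2 i
    omega
  have hv : (x (j - 1) = 1 ∨ x (j - 1) = 2 ∨ x (j - 1) = S - 1 ∨ x (j - 1) = S - 2) ∧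
      G (x (j - 1)) < 0 ∧ -2 ≤ G (x (j - 1)) := by
    clear r0 r1 rm a1 a2 am2 hp
    (have hh := hT (j - 1)
     unfold TC at hh
     rcases hh with ⟨hh, hh'⟩ | ⟨hh, hh'⟩ | ⟨hh, hh1, hh2, hh'⟩ |
         ⟨hh, ⟨hh', hh''⟩ | ⟨hh', hh''⟩ | ⟨hh', hh''⟩ | ⟨hh', hh''⟩ | ⟨hh', hh''⟩⟩ |
         ⟨hh, ⟨hh', hh''⟩ | ⟨hh', hh''⟩ | ⟨hh', hh''⟩ | ⟨hh', hh''⟩ | ⟨hh', hh''⟩⟩ |
         ⟨hh, ⟨hh', hh''⟩ | ⟨hh', hh''⟩ | ⟨hh', hh''⟩⟩ |
         ⟨hh, ⟨hh', hh''⟩ | ⟨hh', hh''⟩ | ⟨hh', hh''⟩⟩ <;> omega)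
  have h := hG (x (i - 1)) (x (j - 1))
  have h1 : 4 < x (i - 1) - x (j - 1) := by omega
  have := small_dvd h (by omega) (by omega)
  omega

/-- the sequence has the pattern `0, a, S - a, S`, `a = 1, 2`, in one of the two directions, or has
period two -/
theorem core2 {c : ℤ} (hS : 10 ≤ S) (hx : ∀ n, 0 ≤ x n ∧ x n ≤ S)
    (hr : ∀ n m k, m = n + 1 → k = n - 1 → x m - x k = s + c * x n - e (x n))
    (he : ∀ a, e a = a * (S - a) * G a) (hb : ∀ n, e (x n) ≤ 2 * S ∧ -(2 * S) ≤ e (x n))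
    (hG : ∀ a b, (a - b) ∣ G a - G b) {i : ℤ} (hi : x i = 0)
    {j : ℤ} (hj : x j = S) :
    (∀ n, x (n + 2) = x n) ∨ (Four S 1 x ∨ Four S 2 x) ∨
      (Four S 1 (fun n => x (-n)) ∨ Four S 2 (fun n => x (-n))) := by
  have he0 : e 0 = 0 := by rw [he]; ring
  have heS : e S = 0 := by rw [he]; ring
  have hT : ∀ n, TC S (x n) (G (x n)) (e (x n)) := fun n => by
    have h := hb n
    rw [he] at h ⊢
    exact TC_of S (x n) (G (x n)) hS (hx n).1 (hx n).2 h.1 h.2
  have hT' : ∀ n, TC S (x (-n)) (-(G (x (-n)))) (-(e (x (-n)))) := fun n => by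
    have h := hb (-n)
    rw [he] at h ⊢
    rw [← mul_neg] at h ⊢
    exact TC_of S (x (-n)) (-(G (x (-n)))) hS (hx _).1 (hx _).2 (by linarith [mul_neg (x (-n) * (S - x (-n))) (G (x (-n)))])
      (by linarith [mul_neg (x (-n) * (S - x (-n))) (G (x (-n)))])
  have ri := hr i (i + 1) (i - 1) rfl rfl
  have rj := hr j (j + 1) (j - 1) rfl rfl
  rw [hi, he0, mul_zero] at ri
  rw [hj, heS] at rj
  have b1 := hx (i + 1)
  have b2 := hx (i - 1)
  have b3 := hx (j + 1)
  have b4 := hx (j - 1)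
  have hc1 : c < 3 := by
    by_contra h
    push Not at h
    nlinarith
  have hc2 : -3 < c := by
    by_contra h
    push Not at h
    nlinarith
  -- the reversed sequence
  have hr' : ∀ n m k, m = n + 1 → k = n - 1 → x (-m) - x (-k) =
      -s + (-c) * x (-n) - (-(e (x (-n)))) := by
    intro n m k hm hk
    have h1 := hr (-n) (-k) (-m) (by omega) (by omega)
    linarith
  have hG' : ∀ a b, (a - b) ∣ (-(G a)) - (-(G b)) := fun a b => by
    have h := (dvd_neg (a := a - b)).2 (hG a b)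
    rwa [show -(G a - G b) = -(G a) - -(G b) by ring] at h
  rcases (by omega : c = -2 ∨ c = -1 ∨ c = 0 ∨ c = 1 ∨ c = 2) with rfl | rfl | rfl | rfl | rfl
  · exfalso
    have h1 : x (i - 1) = 0 := by omega
    have h2 := hr (i - 1) i (i - 2) (by ring) (by ring)
    rw [h1, he0] at h2
    have := hx (i - 2)
    omega
  · exfalso
    refine m_c1 (x := fun n => x (-n)) (e := fun a => -(e a)) (G := fun a => -(G a)) (s := -s) hS
      (fun n => hx (-n)) (fun n m k hm hk => ?_) (by simp [he0]) (by simp [heS]) hT' hG'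
      (i := -i) (by simp [hi]) (j := -j) (by simp [hj])
    have := hr' n m k hm hk
    linarith
  · rcases lt_trichotomy s 0 with h | h | h
    · right; left
      exact m_c0 (s := s) hS hx (fun n m k hm hk => by
        have := hr n m k hm hk
        linarith) he0 heS hT hG h hi hj
    · left
      exact m_c00 (S := S) hx (fun n m k hm hk => by
        have := hr n m k hm hk
        linarith) he0 hi
    · right; right
      refine m_c0 (x := fun n => x (-n)) (e := fun a => -(e a)) (G := fun a => -(G a)) (s := -s) hS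
        (fun n => hx (-n)) (fun n m k hm hk => ?_) (by simp [he0]) (by simp [heS]) hT' hG'
        (by omega) (i := -i) (by simp [hi]) (j := -j) (by simp [hj])
      have := hr' n m k hm hk
      linarith
  · exfalso
    exact m_c1 (s := s) hS hx (fun n m k hm hk => by
      have := hr n m k hm hk
      linarith) he0 heS hT hG hi hj
  · exfalso
    have h1 : x (i + 1) = 0 := by omega
    have h2 := hr (i + 1) (i + 2) i (by ring) (by ring)
    rw [h1, he0] at h2
    have := hx (i + 2)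
    omega

end

end Pool.Agent.Helper472.HC
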