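import Pool.Agent.Helper472.HC.Small
import Pool.Agent.Helper472.HC.Large2b

/-!
Integral cycles of integral Hénon maps: assembly.
-/

set_option autoImplicit false

namespace Pool.Agent.Helper472.HC

open Polynomial

/-- `x` is an orbit of the Hénon map with the polynomial `F` and Jacobian determinant `δ` -/
def IsOrbit (F : ℤ[X]) (δ : ℤ) (x : ℤ → ℤ) : Prop :=
  ∀ n, x (n + 1) + δ * x (n - 1) = F.eval (x n)

/-- up to a shift of the index and a translation, `x` is the periodic repetition of the list `l` -/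
def Repeats (l : List ℤ) (x : ℤ → ℤ) : Prop :=
  ∃ t b : ℤ, ∀ n : ℤ, x (t + n) = b + l.getD (n % l.length).toNat 0

theorem orbit_translate {F : ℤ[X]} {δ : ℤ} {x : ℤ → ℤ} (h : IsOrbit F δ x) (m : ℤ) :
    IsOrbit (F.comp (X + C m) - C ((1 + δ) * m)) δ (fun n => x n - m) := by
  intro n
  have h1 := h n
  simp only [eval_sub, eval_comp, eval_add, eval_X, eval_C, sub_add_cancel]
  rw [← h1]
  ring

theorem exists_min_max (x : ℤ → ℤ) (hb : ∃ B, ∀ n, |x n| ≤ B) :
    (∃ i, ∀ n, x i ≤ x n) ∧ ∃ j, ∀ n, x n ≤ x j := by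
  obtain ⟨B, hB⟩ := hb
  constructor
  · obtain ⟨lb, ⟨i, hi⟩, h⟩ := Int.exists_least_of_bdd (P := fun z => ∃ n, x n = z)
      ⟨-B, fun z ⟨n, hn⟩ => by have := (abs_le.1 (hB n)).1; omega⟩ ⟨x 0, 0, rfl⟩
    exact ⟨i, fun n => by rw [hi]; exact h _ ⟨n, rfl⟩⟩
  · obtain ⟨lb, ⟨i, hi⟩, h⟩ := Int.exists_greatest_of_bdd (P := fun z => ∃ n, x n = z)
      ⟨B, fun z ⟨n, hn⟩ => by have := (abs_le.1 (hB n)).2; omega⟩ ⟨x 0, 0, rfl⟩
    exact ⟨i, fun n => by rw [hi]; exact h _ ⟨n, rfl⟩⟩

theorem exists_G (F : ℤ[X]) (S : ℤ) : ∃ (s c : ℤ) (G : ℤ[X]), ∀ a : ℤ,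
    F.eval a = s + c * a - a * (S - a) * G.eval a := by
  obtain ⟨H, hH⟩ := exists_rest F 0
  obtain ⟨G, hG⟩ := exists_rest H S
  refine ⟨F.eval 0, H.eval S, G, fun a => ?_⟩
  have h1 : F.eval a = F.eval 0 + a * H.eval a := by
    have := congrArg (fun P : ℤ[X] => P.eval a) hH
    simpa using this
  have h2 : H.eval a = H.eval S + (a - S) * G.eval a := by
    have := congrArg (fun P : ℤ[X] => P.eval a) hG
    simpa using this
  rw [h1, h2]
  ring

theorem eval_dvd (G : ℤ[X]) (a b : ℤ) : (a - b) ∣ G.eval a - G.eval b :=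
  sub_dvd_eval_sub a b G

theorem periodic_of {F : ℤ[X]} {δ : ℤ} (hδ : δ = 1 ∨ δ = -1) {x : ℤ → ℤ} (h : IsOrbit F δ x)
    {i m : ℤ} (h0 : x (i + m) = x i) (h1 : x (i + m + 1) = x (i + 1)) (n : ℤ) :
    x (n + m) = x n := by
  have key : ∀ n, x (n + m) = x n ∧ x (n + m + 1) = x (n + 1) := by
    refine two_sided (fun n => x (n + m) = x n ∧ x (n + m + 1) = x (n + 1)) i ⟨h0, h1⟩ ?_ ?_
    · rintro n ⟨h2, h3⟩
      have e1 : n + 1 + m = n + m + 1 := by ring
      refine ⟨by rw [e1]; exact h3, ?_⟩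
      have h4 := h (n + m + 1)
      have h5 := h (n + 1)
      rw [h3, ← h5] at h4
      have e2 : n + m + 1 - 1 = n + m := by ring
      have e3 : n + 1 - 1 = n := by ring
      rw [e2, e3, h2] at h4
      rw [e1]
      linarith
    · rintro n ⟨h2, h3⟩
      have e1 : n - 1 + m = n + m - 1 := by ring
      rw [e1, sub_add_cancel, sub_add_cancel]
      refine ⟨?_, h2⟩
      have h4 := h (n + m)
      have h5 := h n
      rw [h2, ← h5, h3] at h4
      rcases hδ with rfl | rfl <;> linarith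
  exact (key n).1

theorem periodic_mul {x : ℤ → ℤ} {m : ℤ} (h : ∀ n, x (n + m) = x n) (k n : ℤ) :
    x (n + m * k) = x n := by
  induction k using Int.induction_on with
  | zero => simp
  | succ k ih =>
    have e1 : n + m * ((k : ℤ) + 1) = (n + m * k) + m := by ring
    rw [e1, h, ih]
  | pred k ih =>
    have h1 := h (n + m * (-(k : ℤ) - 1))
    have e1 : n + m * (-(k : ℤ) - 1) + m = n + m * (-(k : ℤ)) := by ring
    rw [e1] at h1
    rw [← h1, ih]

theorem repeats_of {y : ℤ → ℤ} {m : ℕ} (hm : 0 < m) (hper : ∀ n, y (n + m) = y n) {i : ℤ}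
    {l : List ℤ} (hl : (List.range m).map (fun k : ℕ => y (i + k)) = l) (n : ℤ) :
    y (i + n) = l.getD (n % l.length).toNat 0 := by
  have hlen : l.length = m := by rw [← hl]; simp
  have hm' : (0 : ℤ) < m := by exact_mod_cast hm
  have h1 : 0 ≤ n % (m : ℤ) := Int.emod_nonneg _ hm'.ne'
  have h2 : n % (m : ℤ) < m := Int.emod_lt_of_pos _ hm'
  have h3 : y (i + n) = y (i + n % m) := by
    have h4 := periodic_mul hper (n / m) (i + n % m)
    have h5 : i + n % (m : ℤ) + m * (n / m) = i + n := by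
      have := Int.emod_add_mul_ediv n m
      linarith
    rw [h5] at h4
    exact h4
  rw [hlen, h3]
  have h4 : (n % (m : ℤ)).toNat < m := by omega
  have h5 : (((n % (m : ℤ)).toNat : ℕ) : ℤ) = n % m := Int.toNat_of_nonneg h1
  rw [← hl, List.getD_eq_getElem _ _ (by simpa using h4)]
  simp only [List.getElem_map, List.getElem_range]
  rw [h5]

/-- the sequence of natural indices starting at `i` -/
theorem nat_rec {F : ℤ[X]} {δ : ℤ} {y : ℤ → ℤ} (h : IsOrbit F δ y) (i : ℤ) (n : ℕ) :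
    y (i + (n + 2 : ℕ)) = F.eval (y (i + (n + 1 : ℕ))) - δ * y (i + n) := by
  have h1 := h (i + (n + 1 : ℕ))
  have e1 : i + ((n + 1 : ℕ) : ℤ) + 1 = i + ((n + 2 : ℕ) : ℤ) := by push_cast; ring
  have e2 : i + ((n + 1 : ℕ) : ℤ) - 1 = i + (n : ℤ) := by push_cast; ring
  rw [e1, e2] at h1
  linarith

theorem small_aux {F : ℤ[X]} {δ : ℤ} (hδ : δ = 1 ∨ δ = -1) {y : ℤ → ℤ} (h : IsOrbit F δ y)
    (hy : ∀ n, 0 ≤ y n ∧ y n ≤ 9) {i : ℤ} (hi : y i = 0)
    {acc : List (ℤ × ℤ) → List ℤ → Bool}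
    (hrun : (List.range 10).all (fun m => go δ 9 0 m acc 24 [] 0 m []) = true) :
    ∃ (m : ℕ) (st : List (ℤ × ℤ)) (H : ℤ[X]), 0 < m ∧ (∀ n, y (n + m) = y n) ∧
      F = nest st H ∧ (∀ n, y n ∈ st.map Prod.fst) ∧
      acc st ((List.range m).map (fun k : ℕ => y (i + k))) = true := by
  rw [List.all_eq_true] at hrun
  have b1 := hy (i + 1)
  have h1 : ((y (i + 1)).toNat : ℤ) = y (i + 1) := Int.toNat_of_nonneg b1.1
  have h2 := hrun (y (i + 1)).toNat (by rw [List.mem_range]; omega)
  rw [h1] at h2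
  have h3 := go_sound δ 9 acc F (fun k : ℕ => y (i + k)) (fun n => hy _)
    (fun n => nat_rec h i n) 24 [] F 0 rfl (fun j hj hj' => by omega) (by
      simp only [List.range_zero, List.map_nil, Nat.cast_zero, add_zero, hi, zero_add,
        Nat.cast_one]
      exact h2)
  obtain ⟨m, st, H, hm, h4, h5, h6, h7, h8⟩ := h3
  simp only [Nat.cast_zero, add_zero, Nat.cast_one] at h4 h5
  have hper : ∀ n, y (n + m) = y n := by
    refine periodic_of hδ h (i := i) h4 ?_
    rw [← h5]
    congr 1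
    push_cast
    ring
  refine ⟨m, st, H, hm, hper, h6, ?_, h8⟩
  intro n
  have hm' : (0 : ℤ) < m := by exact_mod_cast hm
  have g1 : 0 ≤ (n - i - 1) % (m : ℤ) := Int.emod_nonneg _ hm'.ne'
  have g2 : (n - i - 1) % (m : ℤ) < m := Int.emod_lt_of_pos _ hm'
  have g3 := periodic_mul hper ((n - i - 1) / m) (i + 1 + (n - i - 1) % m)
  have g4 : i + 1 + (n - i - 1) % (m : ℤ) + m * ((n - i - 1) / m) = n := by
    have := Int.emod_add_mul_ediv (n - i - 1) m
    linarith
  rw [g4] at g3
  have g5 := h7 ((n - i - 1) % (m : ℤ)).toNat.succ (by omega) (by omega)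
  have g6 : i + ((((n - i - 1) % (m : ℤ)).toNat.succ : ℕ) : ℤ) = i + 1 + (n - i - 1) % m := by
    rw [Nat.succ_eq_add_one, Nat.cast_add, Int.toNat_of_nonneg g1]
    push_cast
    ring
  simp only [g6] at g5
  rw [g3]
  exact g5

theorem small1 {F : ℤ[X]} {y : ℤ → ℤ} (h : IsOrbit F 1 y)
    (hy : ∀ n, 0 ≤ y n ∧ y n ≤ 9) {i : ℤ} (hi : y i = 0) :
    (∀ n, y (n + 2) = y n) ∨
      ∃ c s : ℤ, (c = -1 ∨ c = 0 ∨ c = 1) ∧ ∀ n, F.eval (y n) = s + c * y n := by
  obtain ⟨m, st, H, hm, hper, hF, hmem, hacc⟩ := small_aux (Or.inl rfl) h hy hi run1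
  unfold acc1 at hacc
  rw [Bool.or_eq_true] at hacc
  rcases hacc with h1 | h1
  · left
    simp only [List.length_map, List.length_range, decide_eq_true_eq] at h1
    intro n
    rcases (by omega : m = 1 ∨ m = 2) with rfl | rfl
    · have h2 := hper n
      have h3 := hper (n + 1)
      rw [Nat.cast_one] at h2 h3
      have e1 : n + 1 + 1 = n + 2 := by ring
      rw [e1, h2] at h3
      exact h3
    · exact hper n
  · right
    rw [List.any_eq_true] at h1
    obtain ⟨c, hc, h2⟩ := h1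
    rw [List.all_eq_true] at h2
    refine ⟨c, value st 0, by simpa using hc, fun n => ?_⟩
    have h3 := h2 (y n) (hmem n)
    rw [decide_eq_true_eq] at h3
    rw [hF, eval_value st H _ (hmem n)]
    exact h3

/-- the cycles with `δ = -1` of period at least `3`, one for each pair of a cycle and its reverse -/
def Exc (l : List ℤ) : Prop :=
  (∃ a b : ℤ, (a = 1 ∨ a = 2) ∧ 0 ≤ b ∧ l = [0, a, b, a + b]) ∨ l = [0, 1, 2] ∨ l = [0, 3, 6] ∨
    l = [0, 3, 2, 2, 1, 4] ∨ l = [0, 1, 2, 1, 4, 3, 2, 3] ∨ l = [0, 2, 3, 1, 2, 4, 1, 3]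

theorem rev_list {y : ℤ → ℤ} {m : ℕ} (hm : 0 < m) (hper : ∀ n, y (n + m) = y n) {i : ℤ}
    {l : List ℤ} (hl : (List.range m).map (fun k : ℕ => y (i + k)) = l) :
    (List.range m).map (fun k : ℕ => (fun n => y (-n)) (-i + k)) =
      (List.range m).map (fun k : ℕ => l.getD ((-(k : ℤ)) % l.length).toNat 0) := by
  apply List.map_congr_left
  intro k _
  have h1 := repeats_of hm hper hl (-(k : ℤ))
  rw [← h1]
  show y (-(-i + (k : ℤ))) = y (i + -(k : ℤ))
  congr 1
  ring

theorem per_rev {y : ℤ → ℤ} {m : ℕ} (hper : ∀ n, y (n + m) = y n) (n : ℤ) :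
    (fun n => y (-n)) (n + m) = (fun n => y (-n)) n := by
  show y (-(n + m)) = y (-n)
  have h := hper (-(n + m))
  rw [← h]
  congr 1
  ring

theorem small2 {F : ℤ[X]} {y : ℤ → ℤ} (h : IsOrbit F (-1) y)
    (hy : ∀ n, 0 ≤ y n ∧ y n ≤ 9) {i : ℤ} (hi : y i = 0) :
    (∀ n, y (n + 2) = y n) ∨
      ∃ l, Exc l ∧ ((∀ n : ℤ, y (i + n) = l.getD (n % l.length).toNat 0) ∨
        (∀ n : ℤ, y (-(-i + n)) = l.getD (n % l.length).toNat 0)) := by
  obtain ⟨m, st, H, hm, hper, hF, hmem, hacc⟩ := small_aux (Or.inr rfl) h hy hi run2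
  unfold acc2 at hacc
  rw [Bool.or_eq_true, Bool.or_eq_true] at hacc
  rcases hacc with h1 | h1 | h1
  · left
    simp only [List.length_map, List.length_range, decide_eq_true_eq] at h1
    intro n
    rcases (by omega : m = 1 ∨ m = 2) with rfl | rfl
    · have h2 := hper n
      have h3 := hper (n + 1)
      rw [Nat.cast_one] at h2 h3
      have e1 : n + 1 + 1 = n + 2 := by ring
      rw [e1, h2] at h3
      exact h3
    · exact hper n
  · right
    obtain ⟨l, hl⟩ : ∃ l, (List.range m).map (fun k : ℕ => y (i + k)) = l := ⟨_, rfl⟩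
    have hlen : l.length = m := by rw [← hl]; simp
    rw [hl] at h1
    match l, h1 with
    | [p0, p1, p2, p3], h1 =>
      have hm4 : m = 4 := by rw [← hlen]; rfl
      subst hm4
      have hp2 : 0 ≤ p2 := by
        have h2 := repeats_of hm hper hl 2
        have h3 : ([p0, p1, p2, p3] : List ℤ).getD (2 % ([p0, p1, p2, p3] : List ℤ).length : ℤ).toNat 0
          = p2 := rfl
        rw [h3] at h2
        have := hy (i + 2)
        omega
      simp only [fam4, Bool.and_eq_true, Bool.or_eq_true, decide_eq_true_eq] at h1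
      obtain ⟨rfl, h1⟩ := h1
      rcases h1 with ⟨h2, rfl⟩ | ⟨h2, rfl⟩
      · exact ⟨_, Or.inl ⟨p1, p2, h2, hp2, rfl⟩, Or.inl (repeats_of hm hper hl)⟩
      · refine ⟨[0, p3, p2, p3 + p2], Or.inl ⟨p3, p2, h2, hp2, rfl⟩, Or.inr ?_⟩
        have h3 := rev_list hm hper hl
        have h4 : (List.range 4).map (fun k : ℕ => ([0, p2 + p3, p2, p3] : List ℤ).getD
            ((-(k : ℤ)) % ([0, p2 + p3, p2, p3] : List ℤ).length).toNat 0) =
            [0, p3, p2, p3 + p2] := by
          rw [add_comm p3 p2]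
          rfl
        rw [h4] at h3
        exact repeats_of (y := fun n => y (-n)) hm (per_rev hper) h3
  · right
    obtain ⟨l, hl⟩ : ∃ l, (List.range m).map (fun k : ℕ => y (i + k)) = l := ⟨_, rfl⟩
    have hlen : l.length = m := by rw [← hl]; simp
    rw [hl] at h1
    have hrev := rev_list hm hper hl
    have fwd : ∀ l', Exc l' → l = l' → ∃ l, Exc l ∧
        ((∀ n : ℤ, y (i + n) = l.getD (n % l.length).toNat 0) ∨
        (∀ n : ℤ, y (-(-i + n)) = l.getD (n % l.length).toNat 0)) := by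
      rintro l' h2 rfl
      exact ⟨l, h2, Or.inl (repeats_of hm hper hl)⟩
    have bwd : ∀ l', Exc l' → (List.range l.length).map (fun k : ℕ => l.getD
        ((-(k : ℤ)) % l.length).toNat 0) = l' → ∃ l, Exc l ∧
        ((∀ n : ℤ, y (i + n) = l.getD (n % l.length).toNat 0) ∨
        (∀ n : ℤ, y (-(-i + n)) = l.getD (n % l.length).toNat 0)) := by
      rintro l' h2 h3
      rw [hlen] at h3
      rw [hlen, h3] at hrev
      exact ⟨l', h2, Or.inr (repeats_of (y := fun n => y (-n)) hm (per_rev hper) hrev)⟩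
    simp only [spor, List.contains_eq_mem, List.mem_cons, List.not_mem_nil, or_false,
      decide_eq_true_eq] at h1
    rcases h1 with h1 | h1 | h1 | h1 | h1 | h1 | h1 | h1 | h1 | h1
    · exact fwd _ (Or.inr (Or.inl rfl)) h1
    · exact bwd _ (Or.inr (Or.inl rfl)) (by rw [h1]; rfl)
    · exact fwd _ (Or.inr (Or.inr (Or.inl rfl))) h1
    · exact bwd _ (Or.inr (Or.inr (Or.inl rfl))) (by rw [h1]; rfl)
    · exact fwd _ (Or.inr (Or.inr (Or.inr (Or.inl rfl)))) h1
    · exact bwd _ (Or.inr (Or.inr (Or.inr (Or.inl rfl)))) (by rw [h1]; rfl)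
    · exact fwd _ (Or.inr (Or.inr (Or.inr (Or.inr (Or.inl rfl))))) h1
    · exact bwd _ (Or.inr (Or.inr (Or.inr (Or.inr (Or.inl rfl))))) (by rw [h1]; rfl)
    · exact fwd _ (Or.inr (Or.inr (Or.inr (Or.inr (Or.inr rfl))))) h1
    · exact bwd _ (Or.inr (Or.inr (Or.inr (Or.inr (Or.inr rfl))))) (by rw [h1]; rfl)

/-- `δ = 1` -/
theorem classify_one {F : ℤ[X]} {x : ℤ → ℤ} (hb : ∃ B, ∀ n, |x n| ≤ B) (h : IsOrbit F 1 x) :
    (∀ n, x (n + 2) = x n) ∨
      ∃ c s : ℤ, (c = -1 ∨ c = 0 ∨ c = 1) ∧ ∀ n, F.eval (x n) = s + c * x n := by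
  obtain ⟨⟨i, hi⟩, ⟨j, hj⟩⟩ := exists_min_max x hb
  set m := x i with hm
  set S := x j - m with hS
  have hy : IsOrbit _ 1 (fun n => x n - m) := orbit_translate h m
  set F' := F.comp (X + C m) - C ((1 + 1) * m) with hF'
  have hev : ∀ a, F'.eval (a - m) = F.eval a - 2 * m := fun a => by
    rw [hF']
    simp only [eval_sub, eval_comp, eval_add, eval_X, eval_C, sub_add_cancel]
    ring
  have h0 : ∀ n, 0 ≤ x n - m ∧ x n - m ≤ S := fun n => by
    have := hi n
    have := hj n
    omega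
  have back : ((∀ n, (x (n + 2) - m) = x n - m) ∨
      ∃ c s : ℤ, (c = -1 ∨ c = 0 ∨ c = 1) ∧ ∀ n, F'.eval (x n - m) = s + c * (x n - m)) →
      (∀ n, x (n + 2) = x n) ∨
      ∃ c s : ℤ, (c = -1 ∨ c = 0 ∨ c = 1) ∧ ∀ n, F.eval (x n) = s + c * x n := by
    rintro (h1 | ⟨c, s, hc, h1⟩)
    · left
      intro n
      have := h1 n
      omega
    · right
      refine ⟨c, s - c * m + 2 * m, hc, fun n => ?_⟩
      have h2 := h1 n
      rw [hev] at h2
      linarith
  apply back
  rcases le_or_gt 10 S with h10 | h10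
  · obtain ⟨s, c, G, hG⟩ := exists_G F' S
    have hr : ∀ n m' k, m' = n + 1 → k = n - 1 → (x m' - m) + (x k - m) =
        s + c * (x n - m) - (fun a => a * (S - a) * G.eval a) (x n - m) := by
      rintro n m' k rfl rfl
      have h1 := hy n
      rw [hG] at h1
      simp only at h1 ⊢
      linarith
    have hL0 : 0 ≤ s ∧ s ≤ 2 * S := by
      have h1 := hr i (i + 1) (i - 1) rfl rfl
      have h2 := h0 (i + 1)
      have h3 := h0 (i - 1)
      have e1 : x i - m = 0 := by omega
      rw [e1] at h1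
      simp only [mul_zero, zero_mul, add_zero, sub_zero] at h1
      omega
    have hLS : 0 ≤ s + c * S ∧ s + c * S ≤ 2 * S := by
      have h1 := hr j (j + 1) (j - 1) rfl rfl
      have h2 := h0 (j + 1)
      have h3 := h0 (j - 1)
      have e1 : x j - m = S := rfl
      rw [e1] at h1
      simp only [sub_self, mul_zero, zero_mul, sub_zero] at h1
      omega
    have hL : ∀ a, 0 ≤ a → a ≤ S → 0 ≤ s + c * a ∧ s + c * a ≤ 2 * S := by
      intro a ha ha'
      have e1 : S * (s + c * a) = (S - a) * s + a * (s + c * S) := by ring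
      have h3 : 0 ≤ (S - a) * s := mul_nonneg (by omega) hL0.1
      have h4 : 0 ≤ a * (s + c * S) := mul_nonneg ha hLS.1
      have h5 : (S - a) * s ≤ (S - a) * (2 * S) := mul_le_mul_of_nonneg_left hL0.2 (by omega)
      have h6 : a * (s + c * S) ≤ a * (2 * S) := mul_le_mul_of_nonneg_left hLS.2 ha
      constructor
      · have h7 : 0 ≤ S * (s + c * a) := by rw [e1]; exact add_nonneg h3 h4
        exact nonneg_of_mul_nonneg_right h7 (by omega)
      · have h7 : S * (s + c * a) ≤ S * (2 * S) := by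
          rw [e1]
          calc (S - a) * s + a * (s + c * S) ≤ (S - a) * (2 * S) + a * (2 * S) := add_le_add h5 h6
            _ = S * (2 * S) := by ring
        exact le_of_mul_le_mul_left h7 (by omega)
    have hE : ∀ n, EC S (x n - m) ((fun a => a * (S - a) * G.eval a) (x n - m)) := by
      intro n
      have h1 := hr n (n + 1) (n - 1) rfl rfl
      have h2 := h0 (n + 1)
      have h3 := h0 (n - 1)
      have h4 := hL _ (h0 n).1 (h0 n).2
      simp only at h1 ⊢
      exact EC_of S _ _ h10 (h0 n).1 (h0 n).2 (by linarith) (by linarith)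
    rcases core1 (x := fun n => x n - m) (e := fun a => a * (S - a) * G.eval a) (s := s) (c := c)
      h10 h0 hr (by simp) (by simp) hE (i := i) (by simp [← hm]) (j := j) rfl with h1 | ⟨h1, h2⟩
    · exact Or.inl h1
    · right
      refine ⟨c, s, h1, fun n => ?_⟩
      have h3 : (x n - m) * (S - (x n - m)) * G.eval (x n - m) = 0 := h2 n
      rw [hG, h3, sub_zero]
  · exact small1 hy (fun n => ⟨(h0 n).1, by have := (h0 n).2; omega⟩) (i := i) (by simp [← hm])

theorem four_list {S a : ℤ} {y : ℤ → ℤ} (hS : 10 ≤ S) (ha : a = 1 ∨ a = 2) (h : Four S a y) {i : ℤ}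
    (hi : y i = 0) : (∀ n, y (n + (4 : ℕ)) = y n) ∧
      (List.range 4).map (fun k : ℕ => y (i + k)) = [0, a, S - a, a + (S - a)] := by
  have key : ∀ n, (y n = 0 ∧ y (n + 1) = a ∧ y (n + 2) = S - a ∧ y (n + 3) = S ∧ y (n + 4) = 0) ∨
      (y n = a ∧ y (n + 4) = a) ∨ (y n = S - a ∧ y (n + 4) = S - a) ∨
      (y n = S ∧ y (n + 4) = S) := by
    intro n
    have h0 := h n
    have h1 := h (n + 1)
    have h2 := h (n + 2)
    have h3 := h (n + 3)
    rw [show n + 1 + 1 = n + 2 by ring] at h1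
    rw [show n + 2 + 1 = n + 3 by ring] at h2
    rw [show n + 3 + 1 = n + 4 by ring] at h3
    rcases h0 with ⟨g0, g1⟩ | ⟨g0, g1⟩ | ⟨g0, g1⟩ | ⟨g0, g1⟩
    · have g2 : y (n + 2) = S - a := by omega
      have g3 : y (n + 3) = S := by omega
      have g4 : y (n + 4) = 0 := by omega
      exact Or.inl ⟨g0, g1, g2, g3, g4⟩
    · have g2 : y (n + 2) = S := by omega
      have g3 : y (n + 3) = 0 := by omega
      have g4 : y (n + 4) = a := by omega
      exact Or.inr (Or.inl ⟨g0, g4⟩)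
    · have g2 : y (n + 2) = 0 := by omega
      have g3 : y (n + 3) = a := by omega
      have g4 : y (n + 4) = S - a := by omega
      exact Or.inr (Or.inr (Or.inl ⟨g0, g4⟩))
    · have g2 : y (n + 2) = a := by omega
      have g3 : y (n + 3) = S - a := by omega
      have g4 : y (n + 4) = S := by omega
      exact Or.inr (Or.inr (Or.inr ⟨g0, g4⟩))
  constructor
  · intro n
    have h1 := key n
    push_cast
    rcases h1 with h1 | h1 | h1 | h1
    · rw [h1.2.2.2.2, h1.1]
    · rw [h1.1, h1.2]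
    · rw [h1.1, h1.2]
    · rw [h1.1, h1.2]
  · have h1 := key i
    have h2 : y i = 0 ∧ y (i + 1) = a ∧ y (i + 2) = S - a ∧ y (i + 3) = S := by
      rcases h1 with h1 | h1 | h1 | h1
      · exact ⟨h1.1, h1.2.1, h1.2.2.1, h1.2.2.2.1⟩
      · omega
      · omega
      · omega
    obtain ⟨g0, g1, g2, g3⟩ := h2
    have e : (List.range 4).map (fun k : ℕ => y (i + k)) = [y (i + (0 : ℕ)), y (i + (1 : ℕ)),
        y (i + (2 : ℕ)), y (i + (3 : ℕ))] := rfl
    rw [e]
    push_cast
    rw [add_zero, g0, g1, g2, g3]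
    congr 4
    ring

/-- `δ = -1` -/
theorem classify_neg {F : ℤ[X]} {x : ℤ → ℤ} (hb : ∃ B, ∀ n, |x n| ≤ B) (h : IsOrbit F (-1) x) :
    (∀ n, x (n + 2) = x n) ∨ ∃ l, Exc l ∧ (Repeats l x ∨ Repeats l (fun n => x (-n))) := by
  obtain ⟨⟨i, hi⟩, ⟨j, hj⟩⟩ := exists_min_max x hb
  set m := x i with hm
  set S := x j - m with hS
  have hy : IsOrbit _ (-1) (fun n => x n - m) := orbit_translate h m
  set F' := F.comp (X + C m) - C ((1 + -1) * m) with hF'
  have h0 : ∀ n, 0 ≤ x n - m ∧ x n - m ≤ S := fun n => by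
    have := hi n
    have := hj n
    omega
  have fwd : ∀ l, Exc l → (∀ n : ℤ, x (i + n) - m = l.getD (n % l.length).toNat 0) →
      ∃ l, Exc l ∧ (Repeats l x ∨ Repeats l (fun n => x (-n))) := by
    intro l hl h1
    exact ⟨l, hl, Or.inl ⟨i, m, fun n => by have := h1 n; omega⟩⟩
  have bwd : ∀ l, Exc l → (∀ n : ℤ, x (-(-i + n)) - m = l.getD (n % l.length).toNat 0) →
      ∃ l, Exc l ∧ (Repeats l x ∨ Repeats l (fun n => x (-n))) := by
    intro l hl h1
    exact ⟨l, hl, Or.inr ⟨-i, m, fun n => by have := h1 n; simp only; omega⟩⟩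
  rcases le_or_gt 10 S with h10 | h10
  · obtain ⟨s, c, G, hG⟩ := exists_G F' S
    have hr : ∀ n m' k, m' = n + 1 → k = n - 1 → (x m' - m) - (x k - m) =
        s + c * (x n - m) - (fun a => a * (S - a) * G.eval a) (x n - m) := by
      rintro n m' k rfl rfl
      have h1 := hy n
      rw [hG] at h1
      simp only at h1 ⊢
      linarith
    have hL0 : -S ≤ s ∧ s ≤ S := by
      have h1 := hr i (i + 1) (i - 1) rfl rfl
      have h2 := h0 (i + 1)
      have h3 := h0 (i - 1)
      have e1 : x i - m = 0 := by omega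
      rw [e1] at h1
      simp only [mul_zero, zero_mul, add_zero, sub_zero] at h1
      omega
    have hLS : -S ≤ s + c * S ∧ s + c * S ≤ S := by
      have h1 := hr j (j + 1) (j - 1) rfl rfl
      have h2 := h0 (j + 1)
      have h3 := h0 (j - 1)
      have e1 : x j - m = S := rfl
      rw [e1] at h1
      simp only [sub_self, mul_zero, zero_mul, sub_zero] at h1
      omega
    have hL : ∀ a, 0 ≤ a → a ≤ S → -S ≤ s + c * a ∧ s + c * a ≤ S := by
      intro a ha ha'
      have e1 : S * (s + c * a) = (S - a) * s + a * (s + c * S) := by ring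
      have h3 : (S - a) * (-S) ≤ (S - a) * s := mul_le_mul_of_nonneg_left hL0.1 (by omega)
      have h4 : a * (-S) ≤ a * (s + c * S) := mul_le_mul_of_nonneg_left hLS.1 ha
      have h5 : (S - a) * s ≤ (S - a) * S := mul_le_mul_of_nonneg_left hL0.2 (by omega)
      have h6 : a * (s + c * S) ≤ a * S := mul_le_mul_of_nonneg_left hLS.2 ha
      constructor
      · have h7 : S * (-S) ≤ S * (s + c * a) := by
          rw [e1]
          calc S * (-S) = (S - a) * (-S) + a * (-S) := by ring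
            _ ≤ _ := add_le_add h3 h4
        exact le_of_mul_le_mul_left h7 (by omega)
      · have h7 : S * (s + c * a) ≤ S * S := by
          rw [e1]
          calc (S - a) * s + a * (s + c * S) ≤ (S - a) * S + a * S := add_le_add h5 h6
            _ = S * S := by ring
        exact le_of_mul_le_mul_left h7 (by omega)
    have hbd : ∀ n, (fun a => a * (S - a) * G.eval a) (x n - m) ≤ 2 * S ∧
        -(2 * S) ≤ (fun a => a * (S - a) * G.eval a) (x n - m) := by
      intro n
      have h1 := hr n (n + 1) (n - 1) rfl rfl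
      have h2 := h0 (n + 1)
      have h3 := h0 (n - 1)
      have h4 := hL _ (h0 n).1 (h0 n).2
      constructor <;> linarith
    have hfin := core2 (x := fun n => x n - m) (e := fun a => a * (S - a) * G.eval a)
      (G := fun a => G.eval a) (s := s) (c := c)
      h10 h0 hr (fun a => rfl) hbd (fun a b => eval_dvd G a b) (i := i) (by simp [← hm])
      (j := j) rfl
    have hi0 : x i - m = 0 := by omega
    have hi0' : x (- -i) - m = 0 := by rw [neg_neg]; exact hi0
    rcases hfin with h1 | h1 | h1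
    · left
      intro n
      have := h1 n
      omega
    · right
      rcases h1 with h1 | h1
      · obtain ⟨h2, h3⟩ := four_list h10 (Or.inl rfl) h1 (i := i) hi0
        exact fwd _ (Or.inl ⟨1, S - 1, Or.inl rfl, by omega, rfl⟩)
          (repeats_of (y := fun n => x n - m) (by norm_num) h2 h3)
      · obtain ⟨h2, h3⟩ := four_list h10 (Or.inr rfl) h1 (i := i) hi0
        exact fwd _ (Or.inl ⟨2, S - 2, Or.inr rfl, by omega, rfl⟩)
          (repeats_of (y := fun n => x n - m) (by norm_num) h2 h3)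
    · right
      rcases h1 with h1 | h1
      · obtain ⟨h2, h3⟩ := four_list h10 (Or.inl rfl) h1 (i := -i) hi0'
        exact bwd _ (Or.inl ⟨1, S - 1, Or.inl rfl, by omega, rfl⟩)
          (repeats_of (y := fun n => x (-n) - m) (by norm_num) h2 h3)
      · obtain ⟨h2, h3⟩ := four_list h10 (Or.inr rfl) h1 (i := -i) hi0'
        exact bwd _ (Or.inl ⟨2, S - 2, Or.inr rfl, by omega, rfl⟩)
          (repeats_of (y := fun n => x (-n) - m) (by norm_num) h2 h3)
  · rcases small2 hy (fun n => ⟨(h0 n).1, by have := (h0 n).2; omega⟩) (i := i)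
      (by simp [← hm]) with h1 | ⟨l, hl, h1 | h1⟩
    · left
      intro n
      have := h1 n
      omega
    · right
      exact fwd l hl h1
    · right
      exact bwd l hl h1

end Pool.Agent.Helper472.HC
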