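import Mathlib

/-!
Integral cycles of integral Hénon maps: cycles of diameter at least `10`, `δ = 1`.
-/

set_option autoImplicit false

namespace Pool.Agent.Helper472.HC

theorem two_sided (P : ℤ → Prop) (i : ℤ) (h0 : P i) (hf : ∀ n, P n → P (n + 1))
    (hb : ∀ n, P n → P (n - 1)) (n : ℤ) : P n :=
  Int.inductionOn' n i h0 (fun k _ h => hf k h) (fun k _ h => hb k h)

/-- the possible values `e` of `a (S - a) T` in `[-2S, 2S]` -/
def EC (S a e : ℤ) : Prop :=
  e = 0 ∨ (a = 1 ∧ (e = S - 1 ∨ e = -(S - 1) ∨ e = 2 * (S - 1) ∨ e = -(2 * (S - 1)))) ∨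
    (a = S - 1 ∧ (e = S - 1 ∨ e = -(S - 1) ∨ e = 2 * (S - 1) ∨ e = -(2 * (S - 1)))) ∨
    (a = 2 ∧ (e = 2 * (S - 2) ∨ e = -(2 * (S - 2)))) ∨
    (a = S - 2 ∧ (e = 2 * (S - 2) ∨ e = -(2 * (S - 2))))

theorem EC_of (S a T : ℤ) (hS : 10 ≤ S) (h0 : 0 ≤ a) (h1 : a ≤ S) (hb : a * (S - a) * T ≤ 2 * S)
    (hb' : -(2 * S) ≤ a * (S - a) * T) : EC S a (a * (S - a) * T) := by
  have key : ∀ w : ℤ, 0 < w → 2 * S < 3 * w → w * T ≤ 2 * S → -(2 * S) ≤ w * T →
      T = -2 ∨ T = -1 ∨ T = 0 ∨ T = 1 ∨ T = 2 := by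
    intro w hw h3 h4 h5
    have h6 : T < 3 := by
      by_contra h
      push Not at h
      nlinarith
    have h7 : -3 < T := by
      by_contra h
      push Not at h
      nlinarith
    omega
  have key2 : ∀ w : ℤ, 0 < w → 2 * S < 2 * w → w * T ≤ 2 * S → -(2 * S) ≤ w * T →
      T = -1 ∨ T = 0 ∨ T = 1 := by
    intro w hw h3 h4 h5
    have h6 : T < 2 := by
      by_contra h
      push Not at h
      nlinarith
    have h7 : -2 < T := by
      by_contra h
      push Not at h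
      nlinarith
    omega
  unfold EC
  rcases eq_or_ne a 0 with rfl | ha0
  · left; ring
  rcases eq_or_ne a S with rfl | haS
  · left; ring
  rcases eq_or_ne a 1 with rfl | ha1
  · have := key (S - 1) (by omega) (by omega) (by linarith) (by linarith)
    rw [one_mul] at *
    rcases this with rfl | rfl | rfl | rfl | rfl <;> omega
  rcases eq_or_ne a (S - 1) with rfl | ha2
  · have e1 : (S - 1) * (S - (S - 1)) * T = (S - 1) * T := by ring
    rw [e1] at *
    have := key (S - 1) (by omega) (by omega) (by linarith) (by linarith)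
    rcases this with rfl | rfl | rfl | rfl | rfl <;> omega
  rcases eq_or_ne a 2 with rfl | ha3
  · have := key2 (2 * (S - 2)) (by omega) (by omega) (by linarith) (by linarith)
    rcases this with rfl | rfl | rfl <;> omega
  rcases eq_or_ne a (S - 2) with rfl | ha4
  · have e1 : (S - 2) * (S - (S - 2)) * T = 2 * (S - 2) * T := by ring
    rw [e1] at *
    have := key2 (2 * (S - 2)) (by omega) (by omega) (by linarith) (by linarith)
    rcases this with rfl | rfl | rfl <;> omega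
  · left
    have h2 : 3 ≤ a := by omega
    have h3 : a ≤ S - 3 := by omega
    have h4 : 3 * (S - 3) ≤ a * (S - a) := by nlinarith
    have h5 : T < 1 := by
      by_contra h
      push Not at h
      nlinarith
    have h6 : -1 < T := by
      by_contra h
      push Not at h
      nlinarith
    have h7 : T = 0 := by omega
    rw [h7, mul_zero]

section

variable {x e : ℤ → ℤ} {S s : ℤ}

/-- `c = 1` -/
theorem case_c1 (hS : 10 ≤ S) (hx : ∀ n, 0 ≤ x n ∧ x n ≤ S)
    (hr : ∀ n m k, m = n + 1 → k = n - 1 → x m + x k = s + x n - e (x n)) (he0 : e 0 = 0)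
    (hE : ∀ n, EC S (x n) (e (x n))) (hs : 2 * s ≤ S) {i : ℤ} (hi : x i = 0)
    (hpq : x (i + 1) ≤ x (i - 1)) {j : ℤ} (hj : x j = S) : ∀ n, e (x n) = 0 := by
  have r0 := hr i (i + 1) (i - 1) rfl rfl
  rw [hi, he0] at r0
  have r1 := hr (i + 1) (i + 2) i (by ring) (by ring)
  have r2 := hr (i + 2) (i + 3) (i + 1) (by ring) (by ring)
  have r3 := hr (i + 3) (i + 4) (i + 2) (by ring) (by ring)
  have r4 := hr (i + 4) (i + 5) (i + 3) (by ring) (by ring)
  have r5 := hr (i + 5) (i + 6) (i + 4) (by ring) (by ring)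
  have rm := hr (i - 1) i (i - 2) (by ring) (by ring)
  have b1 := hx (i + 1)
  have b2 := hx (i + 2)
  have b3 := hx (i + 3)
  have b4 := hx (i + 4)
  have b5 := hx (i + 5)
  have bm1 := hx (i - 1)
  have bm2 := hx (i - 2)
  have hs1 : 1 ≤ s := by
    by_contra h
    have hs0 : s = 0 := by omega
    have hz : ∀ n, x n = 0 ∧ x (n + 1) = 0 := by
      refine two_sided (fun n => x n = 0 ∧ x (n + 1) = 0) i ⟨hi, by omega⟩ ?_ ?_
      · rintro n ⟨h1, h2⟩
        refine ⟨h2, ?_⟩
        have := hr (n + 1) (n + 1 + 1) n rfl (by ring)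
        rw [h2, he0] at this
        omega
      · rintro n ⟨h1, h2⟩
        refine ⟨?_, by rw [sub_add_cancel]; exact h1⟩
        have := hr n (n + 1) (n - 1) rfl rfl
        rw [h1, he0] at this
        omega
    have := (hz j).1
    omega
  have e1 : e (x (i + 1)) = 0 := by
    (have hh := hE (i + 1)
     unfold EC at hh
     rcases hh with hh | ⟨hh, hh' | hh' | hh' | hh'⟩ | ⟨hh, hh' | hh' | hh' | hh'⟩ | ⟨hh, hh' | hh'⟩ |
         ⟨hh, hh' | hh'⟩ <;> omega)
  have em : e (x (i - 1)) = 0 := by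
    (have hh := hE (i - 1)
     unfold EC at hh
     rcases hh with hh | ⟨hh, hh' | hh' | hh' | hh'⟩ | ⟨hh, hh' | hh' | hh' | hh'⟩ | ⟨hh, hh' | hh'⟩ |
         ⟨hh, hh' | hh'⟩ <;> omega)
  have x2 : x (i + 2) = s + x (i + 1) := by omega
  have e2 : e (x (i + 2)) = 0 := by
    (have hh := hE (i + 2)
     unfold EC at hh
     rcases hh with hh | ⟨hh, hh' | hh' | hh' | hh'⟩ | ⟨hh, hh' | hh' | hh' | hh'⟩ | ⟨hh, hh' | hh'⟩ |
         ⟨hh, hh' | hh'⟩ <;> omega)
  have x3 : x (i + 3) = 2 * s := by omega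
  have e3 : e (x (i + 3)) = 0 := by
    by_contra hne
    have h4 : x (i + 4) = 0 := by (have hh := hE (i + 3)
                                   unfold EC at hh
                                   rcases hh with hh | ⟨hh, hh' | hh' | hh' | hh'⟩ | ⟨hh, hh' | hh' | hh' | hh'⟩ | ⟨hh, hh' | hh'⟩ |
                                       ⟨hh, hh' | hh'⟩ <;> omega)
    rw [h4, he0] at r4
    omega
  have x4 : x (i + 4) = 2 * s - x (i + 1) := by omega
  have e4 : e (x (i + 4)) = 0 := by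
    (have hh := hE (i + 4)
     unfold EC at hh
     rcases hh with hh | ⟨hh, hh' | hh' | hh' | hh'⟩ | ⟨hh, hh' | hh' | hh' | hh'⟩ | ⟨hh, hh' | hh'⟩ |
         ⟨hh, hh' | hh'⟩ <;> omega)
  have x5 : x (i + 5) = x (i - 1) := by omega
  set p := x (i + 1) with hp
  set q := x (i - 1) with hq
  have key : ∀ n, (x n = 0 ∧ x (n + 1) = p) ∨ (x n = p ∧ x (n + 1) = s + p) ∨
      (x n = s + p ∧ x (n + 1) = 2 * s) ∨ (x n = 2 * s ∧ x (n + 1) = 2 * s - p) ∨
      (x n = 2 * s - p ∧ x (n + 1) = q) ∨ (x n = q ∧ x (n + 1) = 0) := by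
    rw [x2] at e2
    rw [x3] at e3
    rw [x4] at e4
    refine two_sided (fun n => (x n = 0 ∧ x (n + 1) = p) ∨ (x n = p ∧ x (n + 1) = s + p) ∨
      (x n = s + p ∧ x (n + 1) = 2 * s) ∨ (x n = 2 * s ∧ x (n + 1) = 2 * s - p) ∨
      (x n = 2 * s - p ∧ x (n + 1) = q) ∨ (x n = q ∧ x (n + 1) = 0)) i (Or.inl ⟨hi, hp.symm⟩) ?_ ?_
    · intro n h
      have h1 := hr (n + 1) (n + 1 + 1) n rfl (by ring)
      rcases h with ⟨h2, h3⟩ | ⟨h2, h3⟩ | ⟨h2, h3⟩ | ⟨h2, h3⟩ | ⟨h2, h3⟩ | ⟨h2, h3⟩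
      · rw [h3, e1] at h1; right; left; omega
      · rw [h3, e2] at h1; right; right; left; omega
      · rw [h3, e3] at h1; right; right; right; left; omega
      · rw [h3, e4] at h1; right; right; right; right; left; omega
      · rw [h3, em] at h1; right; right; right; right; right; omega
      · rw [h3, he0] at h1; left; omega
    · intro n h
      have h1 := hr n (n + 1) (n - 1) rfl rfl
      rw [sub_add_cancel]
      rcases h with ⟨h2, h3⟩ | ⟨h2, h3⟩ | ⟨h2, h3⟩ | ⟨h2, h3⟩ | ⟨h2, h3⟩ | ⟨h2, h3⟩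
      · rw [h2, he0] at h1; right; right; right; right; right; omega
      · rw [h2, e1] at h1; left; omega
      · rw [h2, e2] at h1; right; left; omega
      · rw [h2, e3] at h1; right; right; left; omega
      · rw [h2, e4] at h1; right; right; right; left; omega
      · rw [h2, em] at h1; right; right; right; right; left; omega
  rw [x2] at e2
  rw [x3] at e3
  rw [x4] at e4
  intro n
  rcases key n with ⟨h2, _⟩ | ⟨h2, _⟩ | ⟨h2, _⟩ | ⟨h2, _⟩ | ⟨h2, _⟩ | ⟨h2, _⟩ <;> rw [h2] <;>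
    assumption

end

end Pool.Agent.Helper472.HC
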