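import Pool.Agent.Helper472.HC.Large1

/-!
Integral cycles of integral Hénon maps: cycles of diameter at least `10`, `δ = 1`, the other cases.
-/

set_option autoImplicit false

namespace Pool.Agent.Helper472.HC

section

variable {x e : ℤ → ℤ} {S s : ℤ}

/-- `c = -1` -/
theorem case_cm1 (hS : 10 ≤ S) (hx : ∀ n, 0 ≤ x n ∧ x n ≤ S)
    (hr : ∀ n m k, m = n + 1 → k = n - 1 → x m + x k = s - x n - e (x n)) (he0 : e 0 = 0)
    (heS : e S = 0)
    (hE : ∀ n, EC S (x n) (e (x n))) (hs : 2 * s ≤ 3 * S) (hs' : S ≤ s) {i : ℤ} (hi : x i = 0)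
    {j : ℤ} (hj : x j = S) (huv : x (j - 1) ≤ x (j + 1)) : ∀ n, e (x n) = 0 := by
  have r0 := hr j (j + 1) (j - 1) rfl rfl
  rw [hj, heS] at r0
  have r1 := hr (j + 1) (j + 2) j (by ring) (by ring)
  have r2 := hr (j + 2) (j + 3) (j + 1) (by ring) (by ring)
  have r3 := hr (j + 3) (j + 4) (j + 2) (by ring) (by ring)
  have r4 := hr (j + 4) (j + 5) (j + 3) (by ring) (by ring)
  have r5 := hr (j + 5) (j + 6) (j + 4) (by ring) (by ring)
  have r6 := hr (j + 6) (j + 7) (j + 5) (by ring) (by ring)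
  have b1 := hx (j + 1)
  have b2 := hx (j + 2)
  have bm1 := hx (j - 1)
  have e1 : e (x (j + 1)) = 0 := by
    by_contra hne
    have h1 : x (j + 1) = 1 ∧ e (x (j + 1)) = -(S - 1) := by
      clear r2 r3 r4 r5 r6
      (have hh := hE (j + 1)
       unfold EC at hh
       rcases hh with hh | ⟨hh, hh' | hh' | hh' | hh'⟩ | ⟨hh, hh' | hh' | hh' | hh'⟩ | ⟨hh, hh' | hh'⟩ |
           ⟨hh, hh' | hh'⟩ <;> omega)
    obtain ⟨h1, h2⟩ := h1
    have he1 : e 1 = -(S - 1) := by rw [h1] at h2; exact h2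
    rcases (by omega : s = S + 2 ∨ s = S + 1) with h3 | h3
    · -- `(S, 1)` is a cycle
      have hz : ∀ n, (x n = S ∧ x (n + 1) = 1) ∨ (x n = 1 ∧ x (n + 1) = S) := by
        refine two_sided (fun n => (x n = S ∧ x (n + 1) = 1) ∨ (x n = 1 ∧ x (n + 1) = S)) j
          (Or.inl ⟨hj, h1⟩) ?_ ?_
        · intro n h
          have h5 := hr (n + 1) (n + 1 + 1) n rfl (by ring)
          rcases h with ⟨h6, h7⟩ | ⟨h6, h7⟩
          · rw [h7, he1] at h5; right; omega
          · rw [h7, heS] at h5; left; omega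
        · intro n h
          have h5 := hr n (n + 1) (n - 1) rfl rfl
          rw [sub_add_cancel]
          rcases h with ⟨h6, h7⟩ | ⟨h6, h7⟩
          · rw [h6, heS] at h5; right; omega
          · rw [h6, he1] at h5; left; omega
      have := hz i
      omega
    · have x2 : x (j + 2) = S - 1 := by omega
      have b3 := hx (j + 3)
      have h4 : e (x (j + 2)) = 0 ∨ e (x (j + 2)) = -(S - 1) := by
        clear r3 r4 r5 r6
        (have hh := hE (j + 2)
         unfold EC at hh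
         rcases hh with hh | ⟨hh, hh' | hh' | hh' | hh'⟩ | ⟨hh, hh' | hh' | hh' | hh'⟩ | ⟨hh, hh' | hh'⟩ |
             ⟨hh, hh' | hh'⟩ <;> omega)
      rcases h4 with h4 | h4
      · have x3 : x (j + 3) = 1 := by omega
        rw [x3, he1] at r3
        have x4 : x (j + 4) = S := by omega
        rw [x4, heS] at r4
        have x5 : x (j + 5) = 0 := by omega
        rw [x5, he0] at r5
        have x6 : x (j + 6) = 1 := by omega
        rw [x6, he1] at r6
        have b7 := hx (j + 7)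
        omega
      · have x3 : x (j + 3) = S := by omega
        rw [x3, heS] at r3
        have b4 := hx (j + 4)
        omega
  have em : e (x (j - 1)) = 0 := by
    have rm := hr (j - 1) j (j - 2) (by ring) (by ring)
    have bm2 := hx (j - 2)
    clear r1 r2 r3 r4 r5 r6
    by_contra hne
    have h1 : x (j - 1) = 1 ∧ e (x (j - 1)) = -(S - 1) := by
      (have hh := hE (j - 1)
       unfold EC at hh
       rcases hh with hh | ⟨hh, hh' | hh' | hh' | hh'⟩ | ⟨hh, hh' | hh' | hh' | hh'⟩ | ⟨hh, hh' | hh'⟩ |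
           ⟨hh, hh' | hh'⟩ <;> omega)
    have h2 : x (j + 1) = 1 := by omega
    rw [h2] at e1
    rw [h1.1] at h1
    omega
  clear r3 r4 r5 r6
  have x2 : x (j + 2) = x (j - 1) := by omega
  rw [x2, em] at r2
  set u := x (j + 1) with hu
  set v := x (j - 1) with hv
  have key : ∀ n, (x n = S ∧ x (n + 1) = u) ∨ (x n = u ∧ x (n + 1) = v) ∨
      (x n = v ∧ x (n + 1) = S) := by
    refine two_sided (fun n => (x n = S ∧ x (n + 1) = u) ∨ (x n = u ∧ x (n + 1) = v) ∨
      (x n = v ∧ x (n + 1) = S)) j (Or.inl ⟨hj, hu.symm⟩) ?_ ?_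
    · intro n h
      have h1 := hr (n + 1) (n + 1 + 1) n rfl (by ring)
      rcases h with ⟨h2, h3⟩ | ⟨h2, h3⟩ | ⟨h2, h3⟩
      · rw [h3, e1] at h1; right; left; omega
      · rw [h3, em] at h1; right; right; omega
      · rw [h3, heS] at h1; left; omega
    · intro n h
      have h1 := hr n (n + 1) (n - 1) rfl rfl
      rw [sub_add_cancel]
      rcases h with ⟨h2, h3⟩ | ⟨h2, h3⟩ | ⟨h2, h3⟩
      · rw [h2, heS] at h1; right; right; omega
      · rw [h2, e1] at h1; left; omega
      · rw [h2, em] at h1; right; left; omega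
  intro n
  rcases key n with ⟨h2, _⟩ | ⟨h2, _⟩ | ⟨h2, _⟩ <;> rw [h2] <;> assumption

/-- two values only, one of them `S`, none of them `0` -/
theorem two_values {y : ℤ → ℤ} (hr : ∀ n m k, m = n + 1 → k = n - 1 → x m + x k = y (x n)) {a b : ℤ}
    (ha : y a = 2 * b) (hb : y b = 2 * a) {j : ℤ} (h1 : x j = a) (h2 : x (j + 1) = b) (n : ℤ) :
    x n = a ∧ x (n + 1) = b ∨ x n = b ∧ x (n + 1) = a := by
  revert n
  refine two_sided (fun n => (x n = a ∧ x (n + 1) = b) ∨ (x n = b ∧ x (n + 1) = a)) j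
    (Or.inl ⟨h1, h2⟩) ?_ ?_
  · intro n h
    have h5 := hr (n + 1) (n + 1 + 1) n rfl (by ring)
    rcases h with ⟨h6, h7⟩ | ⟨h6, h7⟩
    · rw [h7, hb] at h5; right; omega
    · rw [h7, ha] at h5; left; omega
  · intro n h
    have h5 := hr n (n + 1) (n - 1) rfl rfl
    rw [sub_add_cancel]
    rcases h with ⟨h6, h7⟩ | ⟨h6, h7⟩
    · rw [h6, ha] at h5; right; omega
    · rw [h6, hb] at h5; left; omega

/-- `c = 0`, `s < S` is impossible -/
theorem case_c0a (hS : 10 ≤ S) (hx : ∀ n, 0 ≤ x n ∧ x n ≤ S)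
    (hr : ∀ n m k, m = n + 1 → k = n - 1 → x m + x k = s - e (x n)) (heS : e S = 0)
    (hE : ∀ n, EC S (x n) (e (x n))) (hs : s < S) {i : ℤ} (hi : x i = 0)
    {j : ℤ} (hj : x j = S) (huv : x (j + 1) ≤ x (j - 1)) : False := by
  have r0 := hr j (j + 1) (j - 1) rfl rfl
  rw [hj, heS] at r0
  have r1 := hr (j + 1) (j + 2) j (by ring) (by ring)
  have rm := hr (j - 1) j (j - 2) (by ring) (by ring)
  have b1 := hx (j + 1)
  have b2 := hx (j + 2)
  have bm1 := hx (j - 1)
  have bm2 := hx (j - 2)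
  -- the neighbours of `S` are exceptional
  have hu : (x (j + 1) = 1 ∧ (e (x (j + 1)) = -(S - 1) ∨ e (x (j + 1)) = -(2 * (S - 1)))) ∨
      (x (j + 1) = 2 ∧ e (x (j + 1)) = -(2 * (S - 2))) := by
    (have hh := hE (j + 1)
     unfold EC at hh
     rcases hh with hh | ⟨hh, hh' | hh' | hh' | hh'⟩ | ⟨hh, hh' | hh' | hh' | hh'⟩ | ⟨hh, hh' | hh'⟩ |
         ⟨hh, hh' | hh'⟩ <;> omega)
  have hv : (x (j - 1) = 1 ∧ (e (x (j - 1)) = -(S - 1) ∨ e (x (j - 1)) = -(2 * (S - 1)))) ∨
      (x (j - 1) = 2 ∧ e (x (j - 1)) = -(2 * (S - 2))) := by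
    (have hh := hE (j - 1)
     unfold EC at hh
     rcases hh with hh | ⟨hh, hh' | hh' | hh' | hh'⟩ | ⟨hh, hh' | hh' | hh' | hh'⟩ | ⟨hh, hh' | hh'⟩ |
         ⟨hh, hh' | hh'⟩ <;> omega)
  rcases hu with ⟨hu, hu'⟩ | ⟨hu, hu'⟩
  · rw [hu] at hu' r1
    rcases hv with ⟨hv, hv'⟩ | ⟨hv, hv'⟩
    · -- neighbours `1`, `1`
      rw [hv] at hv'
      rcases hu' with h1 | h1
      · have hz : ∀ n, (x n = S ∧ x (n + 1) = 1) ∨ (x n = 1 ∧ x (n + 1) = 1) ∨
            (x n = 1 ∧ x (n + 1) = S) := by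
          refine two_sided (fun n => (x n = S ∧ x (n + 1) = 1) ∨ (x n = 1 ∧ x (n + 1) = 1) ∨
            (x n = 1 ∧ x (n + 1) = S)) j (Or.inl ⟨hj, hu⟩) ?_ ?_
          · intro n h
            have h5 := hr (n + 1) (n + 1 + 1) n rfl (by ring)
            rcases h with ⟨h6, h7⟩ | ⟨h6, h7⟩ | ⟨h6, h7⟩
            · rw [h7, h1] at h5; right; left; omega
            · rw [h7, h1] at h5; right; right; omega
            · rw [h7, heS] at h5; left; omega
          · intro n h
            have h5 := hr n (n + 1) (n - 1) rfl rfl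
            rw [sub_add_cancel]
            rcases h with ⟨h6, h7⟩ | ⟨h6, h7⟩ | ⟨h6, h7⟩
            · rw [h6, heS] at h5; right; right; omega
            · rw [h6, h1] at h5; left; omega
            · rw [h6, h1] at h5; right; left; omega
        have := hz i
        omega
      · have := two_values (y := fun a => s - e a) hr (a := S) (b := 1) (by rw [heS]; omega)
          (by rw [h1]; omega) hj hu i
        omega
    · -- neighbours `1`, `2`
      rw [hv] at hv'
      rcases hu' with h1 | h1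
      · rw [h1] at r1
        have x2 : x (j + 2) = 2 := by omega
        have r2 := hr (j + 2) (j + 3) (j + 1) (by ring) (by ring)
        rw [x2, hv'] at r2
        have b3 := hx (j + 3)
        omega
      · omega
  · rw [hu] at hu' r1
    rcases hv with ⟨hv, hv'⟩ | ⟨hv, hv'⟩
    · omega
    · have := two_values (y := fun a => s - e a) hr (a := S) (b := 2) (by rw [heS]; omega)
        (by rw [hu']; omega) hj hu i
      omega

/-- `c = 0`, `s = S` -/
theorem case_c0b (hS : 10 ≤ S) (hx : ∀ n, 0 ≤ x n ∧ x n ≤ S)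
    (hr : ∀ n m k, m = n + 1 → k = n - 1 → x m + x k = S - e (x n)) (he0 : e 0 = 0)
    (heS : e S = 0)
    (hE : ∀ n, EC S (x n) (e (x n))) {i : ℤ} (hi : x i = 0)
    (huv : x (i - 1) ≤ x (i + 1)) : ∀ n, e (x n) = 0 := by
  have r0 := hr i (i + 1) (i - 1) rfl rfl
  rw [hi, he0] at r0
  have r1 := hr (i + 1) (i + 2) i (by ring) (by ring)
  have b1 := hx (i + 1)
  have b2 := hx (i + 2)
  have bm1 := hx (i - 1)
  have h1 : e (x (i + 1)) = 0 ∨ (x (i + 1) = S - 1 ∧ e (x (i + 1)) = S - 1) := by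
    (have hh := hE (i + 1)
     unfold EC at hh
     rcases hh with hh | ⟨hh, hh' | hh' | hh' | hh'⟩ | ⟨hh, hh' | hh' | hh' | hh'⟩ | ⟨hh, hh' | hh'⟩ |
         ⟨hh, hh' | hh'⟩ <;> omega)
  have e1 : e (x (i + 1)) = 0 := by
    rcases h1 with h1 | ⟨h1, h2⟩
    · exact h1
    · exfalso
      have x2 : x (i + 2) = 1 := by omega
      have xm : x (i - 1) = 1 := by omega
      have r2 := hr (i + 2) (i + 3) (i + 1) (by ring) (by ring)
      rw [x2] at r2
      have b3 := hx (i + 3)
      have rm := hr (i - 1) i (i - 2) (by ring) (by ring)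
      rw [xm] at rm
      have bm2 := hx (i - 2)
      have hE1 := hE (i - 1)
      rw [xm] at hE1
      have e10 : e 1 = 0 := by
        (have hh := hE1
         unfold EC at hh
         rcases hh with hh | ⟨hh, hh' | hh' | hh' | hh'⟩ | ⟨hh, hh' | hh' | hh' | hh'⟩ | ⟨hh, hh' | hh'⟩ |
             ⟨hh, hh' | hh'⟩ <;> omega)
      rw [h1] at h2
      rw [e10] at r2
      have x3 : x (i + 3) = 1 := by omega
      have r3 := hr (i + 3) (i + 4) (i + 2) (by ring) (by ring)
      rw [x3, e10] at r3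
      have x4 : x (i + 4) = S - 1 := by omega
      have r4 := hr (i + 4) (i + 5) (i + 3) (by ring) (by ring)
      rw [x4, h2] at r4
      have x5 : x (i + 5) = 0 := by omega
      have r5 := hr (i + 5) (i + 6) (i + 4) (by ring) (by ring)
      rw [x5, he0] at r5
      have x6 : x (i + 6) = 1 := by omega
      have r6 := hr (i + 6) (i + 7) (i + 5) (by ring) (by ring)
      rw [x6, e10] at r6
      have x7 : x (i + 7) = S := by omega
      have r7 := hr (i + 7) (i + 8) (i + 6) (by ring) (by ring)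
      rw [x7, heS] at r7
      have x8 : x (i + 8) = S - 1 := by omega
      have r8 := hr (i + 8) (i + 9) (i + 7) (by ring) (by ring)
      rw [x8, h2] at r8
      have b9 := hx (i + 9)
      omega
  have x2 : x (i + 2) = S := by omega
  have r2 := hr (i + 2) (i + 3) (i + 1) (by ring) (by ring)
  rw [x2, heS] at r2
  have x3 : x (i + 3) = x (i - 1) := by omega
  have r3 := hr (i + 3) (i + 4) (i + 2) (by ring) (by ring)
  rw [x3] at r3
  have b4 := hx (i + 4)
  have rm := hr (i - 1) i (i - 2) (by ring) (by ring)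
  have bm2 := hx (i - 2)
  have em : e (x (i - 1)) = 0 := by omega
  set u := x (i + 1) with hu
  set v := x (i - 1) with hv
  have key : ∀ n, (x n = 0 ∧ x (n + 1) = u) ∨ (x n = u ∧ x (n + 1) = S) ∨
      (x n = S ∧ x (n + 1) = v) ∨ (x n = v ∧ x (n + 1) = 0) := by
    refine two_sided (fun n => (x n = 0 ∧ x (n + 1) = u) ∨ (x n = u ∧ x (n + 1) = S) ∨
      (x n = S ∧ x (n + 1) = v) ∨ (x n = v ∧ x (n + 1) = 0)) i (Or.inl ⟨hi, hu.symm⟩) ?_ ?_
    · intro n h
      have h1 := hr (n + 1) (n + 1 + 1) n rfl (by ring)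
      rcases h with ⟨h2, h3⟩ | ⟨h2, h3⟩ | ⟨h2, h3⟩ | ⟨h2, h3⟩
      · rw [h3, e1] at h1; right; left; omega
      · rw [h3, heS] at h1; right; right; left; omega
      · rw [h3, em] at h1; right; right; right; omega
      · rw [h3, he0] at h1; left; omega
    · intro n h
      have h1 := hr n (n + 1) (n - 1) rfl rfl
      rw [sub_add_cancel]
      rcases h with ⟨h2, h3⟩ | ⟨h2, h3⟩ | ⟨h2, h3⟩ | ⟨h2, h3⟩
      · rw [h2, he0] at h1; right; right; right; omega
      · rw [h2, e1] at h1; left; omega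
      · rw [h2, heS] at h1; right; left; omega
      · rw [h2, em] at h1; right; right; left; omega
  intro n
  rcases key n with ⟨h2, _⟩ | ⟨h2, _⟩ | ⟨h2, _⟩ | ⟨h2, _⟩ <;> rw [h2] <;> assumption

end

end Pool.Agent.Helper472.HC
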