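import Pool.Agent.Helper472.HC.Large1b

/-!
Integral cycles of integral Hénon maps: cycles of diameter at least `10`, `δ = 1`, conclusion.
-/

set_option autoImplicit false

namespace Pool.Agent.Helper472.HC

theorem EC_refl {S a e : ℤ} (h : EC S a e) : EC S (S - a) (-e) := by
  unfold EC at h ⊢
  omega

section

variable {x e : ℤ → ℤ} {S s : ℤ}

theorem case_c1' (hS : 10 ≤ S) (hx : ∀ n, 0 ≤ x n ∧ x n ≤ S)
    (hr : ∀ n m k, m = n + 1 → k = n - 1 → x m + x k = s + x n - e (x n)) (he0 : e 0 = 0)
    (hE : ∀ n, EC S (x n) (e (x n))) (hs : 2 * s ≤ S) {i : ℤ} (hi : x i = 0)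
    {j : ℤ} (hj : x j = S) : ∀ n, e (x n) = 0 := by
  rcases le_total (x (i + 1)) (x (i - 1)) with h | h
  · exact case_c1 hS hx hr he0 hE hs hi h hj
  · have := case_c1 (x := fun n => x (-n)) (e := e) hS (fun n => hx (-n))
      (fun n m k hm hk => by
        have := hr (-n) (-k) (-m) (by omega) (by omega)
        omega) he0 (fun n => hE (-n)) hs (i := -i) (by simpa using hi)
      (by
        have e1 : -(-i + 1) = i - 1 := by ring
        have e2 : -(-i - 1) = i + 1 := by ring
        simp only [e1, e2]
        exact h) (j := -j) (by simpa using hj)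
    intro n
    have h2 := this (-n)
    simpa using h2

theorem case_cm1' (hS : 10 ≤ S) (hx : ∀ n, 0 ≤ x n ∧ x n ≤ S)
    (hr : ∀ n m k, m = n + 1 → k = n - 1 → x m + x k = s - x n - e (x n)) (he0 : e 0 = 0)
    (heS : e S = 0)
    (hE : ∀ n, EC S (x n) (e (x n))) (hs : 2 * s ≤ 3 * S) (hs' : S ≤ s) {i : ℤ} (hi : x i = 0)
    {j : ℤ} (hj : x j = S) : ∀ n, e (x n) = 0 := by
  rcases le_total (x (j - 1)) (x (j + 1)) with h | h
  · exact case_cm1 hS hx hr he0 heS hE hs hs' hi hj h
  · have := case_cm1 (x := fun n => x (-n)) (e := e) hS (fun n => hx (-n))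
      (fun n m k hm hk => by
        have := hr (-n) (-k) (-m) (by omega) (by omega)
        omega) he0 heS (fun n => hE (-n)) hs hs' (i := -i) (by simpa using hi)
      (j := -j) (by simpa using hj)
      (by
        have e1 : -(-j + 1) = j - 1 := by ring
        have e2 : -(-j - 1) = j + 1 := by ring
        simp only [e1, e2]
        exact h)
    intro n
    have h2 := this (-n)
    simpa using h2

theorem case_c0a' (hS : 10 ≤ S) (hx : ∀ n, 0 ≤ x n ∧ x n ≤ S)
    (hr : ∀ n m k, m = n + 1 → k = n - 1 → x m + x k = s - e (x n)) (heS : e S = 0)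
    (hE : ∀ n, EC S (x n) (e (x n))) (hs : s < S) {i : ℤ} (hi : x i = 0)
    {j : ℤ} (hj : x j = S) : False := by
  rcases le_total (x (j + 1)) (x (j - 1)) with h | h
  · exact case_c0a hS hx hr heS hE hs hi hj h
  · exact case_c0a (x := fun n => x (-n)) (e := e) hS (fun n => hx (-n))
      (fun n m k hm hk => by
        have := hr (-n) (-k) (-m) (by omega) (by omega)
        omega) heS (fun n => hE (-n)) hs (i := -i) (by simpa using hi)
      (j := -j) (by simpa using hj)
      (by
        have e1 : -(-j + 1) = j - 1 := by ring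
        have e2 : -(-j - 1) = j + 1 := by ring
        simp only [e1, e2]
        exact h)

theorem case_c0b' (hS : 10 ≤ S) (hx : ∀ n, 0 ≤ x n ∧ x n ≤ S)
    (hr : ∀ n m k, m = n + 1 → k = n - 1 → x m + x k = S - e (x n)) (he0 : e 0 = 0)
    (heS : e S = 0)
    (hE : ∀ n, EC S (x n) (e (x n))) {i : ℤ} (hi : x i = 0) : ∀ n, e (x n) = 0 := by
  rcases le_total (x (i - 1)) (x (i + 1)) with h | h
  · exact case_c0b hS hx hr he0 heS hE hi h
  · have := case_c0b (x := fun n => x (-n)) (e := e) hS (fun n => hx (-n))
      (fun n m k hm hk => by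
        have := hr (-n) (-k) (-m) (by omega) (by omega)
        omega) he0 heS (fun n => hE (-n)) (i := -i) (by simpa using hi)
      (by
        have e1 : -(-i + 1) = i - 1 := by ring
        have e2 : -(-i - 1) = i + 1 := by ring
        simp only [e1, e2]
        exact h)
    intro n
    have h2 := this (-n)
    simpa using h2

theorem core1 {c : ℤ} (hS : 10 ≤ S) (hx : ∀ n, 0 ≤ x n ∧ x n ≤ S)
    (hr : ∀ n m k, m = n + 1 → k = n - 1 → x m + x k = s + c * x n - e (x n)) (he0 : e 0 = 0)
    (heS : e S = 0) (hE : ∀ n, EC S (x n) (e (x n))) {i : ℤ} (hi : x i = 0)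
    {j : ℤ} (hj : x j = S) :
    (∀ n, x (n + 2) = x n) ∨ ((c = -1 ∨ c = 0 ∨ c = 1) ∧ ∀ n, e (x n) = 0) := by
  have ri := hr i (i + 1) (i - 1) rfl rfl
  have rj := hr j (j + 1) (j - 1) rfl rfl
  rw [hi, he0, mul_zero] at ri
  rw [hj, heS] at rj
  have b1 := hx (i + 1)
  have b2 := hx (i - 1)
  have b3 := hx (j + 1)
  have b4 := hx (j - 1)
  have hc1 : c < 3 := by
    by_contra h
    push Not at h
    nlinarith
  have hc2 : -3 < c := by
    by_contra h
    push Not at h
    nlinarith
  -- the reflected sequence
  have hr' : ∀ n m k, m = n + 1 → k = n - 1 → (S - x m) + (S - x k) =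
      (2 * S - s - c * S) + c * (S - x n) - (-(e (S - (S - x n)))) := by
    intro n m k hm hk
    have h1 := hr n m k hm hk
    rw [sub_sub_cancel]
    linarith [mul_sub c S (x n)]
  have hx' : ∀ n, 0 ≤ S - x n ∧ S - x n ≤ S := fun n => by
    have := hx n
    omega
  have hE' : ∀ n, EC S (S - x n) (-(e (S - (S - x n)))) := fun n => by
    rw [sub_sub_cancel]
    exact EC_refl (hE n)
  rcases (by omega : c = -2 ∨ c = -1 ∨ c = 0 ∨ c = 1 ∨ c = 2) with rfl | rfl | rfl | rfl | rfl
  · left
    have h := two_values (x := x) (y := fun a => s + (-2) * a - e a) hr (a := 0) (b := S)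
      (by rw [he0]; omega) (by rw [heS]; omega) hi (by omega)
    intro n
    have h1 := h n
    have h2 := h (n + 1)
    have e1 : n + 1 + 1 = n + 2 := by ring
    rw [e1] at h2
    omega
  · right
    refine ⟨Or.inl rfl, ?_⟩
    rcases le_total (2 * s) (3 * S) with h | h
    · refine case_cm1' hS hx (s := s) ?_ he0 heS hE h (by omega) hi hj
      intro n m k hm hk
      have := hr n m k hm hk
      omega
    · have h1 := case_cm1' (x := fun n => S - x n) (e := fun a => -(e (S - a)))
        (s := 2 * S - s - (-1) * S) hS hx' (fun n m k hm hk => by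
          have := hr' n m k hm hk
          omega) (by simp [heS]) (by simp [he0]) hE' (by omega) (by omega) (i := j)
        (by simp [hj]) (j := i) (by simp [hi])
      intro n
      have h2 := h1 n
      simpa using h2
  · right
    refine ⟨Or.inr (Or.inl rfl), ?_⟩
    rcases lt_trichotomy s S with h | h | h
    · exact (case_c0a' hS hx (s := s) (fun n m k hm hk => by
        have := hr n m k hm hk
        omega) heS hE h hi hj).elim
    · subst h
      exact case_c0b' hS hx (fun n m k hm hk => by
        have := hr n m k hm hk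
        omega) he0 heS hE hi
    · exact (case_c0a' (x := fun n => S - x n) (e := fun a => -(e (S - a)))
        (s := 2 * S - s - 0 * S) hS hx' (fun n m k hm hk => by
          have := hr' n m k hm hk
          omega) (by simp [he0]) hE' (by omega) (i := j)
        (by simp [hj]) (j := i) (by simp [hi])).elim
  · right
    refine ⟨Or.inr (Or.inr rfl), ?_⟩
    rcases le_total (2 * s) S with h | h
    · exact case_c1' hS hx (s := s) (fun n m k hm hk => by
        have := hr n m k hm hk
        omega) he0 hE h hi hj
    · have h1 := case_c1' (x := fun n => S - x n) (e := fun a => -(e (S - a)))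
        (s := 2 * S - s - 1 * S) hS hx' (fun n m k hm hk => by
          have := hr' n m k hm hk
          omega) (by simp [heS]) hE' (by omega) (i := j)
        (by simp [hj]) (j := i) (by simp [hi])
      intro n
      have h2 := h1 n
      simpa using h2
  · exfalso
    have hs0 : s = 0 := by omega
    have hz : ∀ n, x n = 0 ∧ x (n + 1) = 0 := by
      refine two_sided (fun n => x n = 0 ∧ x (n + 1) = 0) i ⟨hi, by omega⟩ ?_ ?_
      · rintro n ⟨h1, h2⟩
        refine ⟨h2, ?_⟩
        have := hr (n + 1) (n + 1 + 1) n rfl (by ring)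
        rw [h2, he0] at this
        omega
      · rintro n ⟨h1, h2⟩
        refine ⟨?_, by rw [sub_add_cancel]; exact h1⟩
        have := hr n (n + 1) (n - 1) rfl rfl
        rw [h1, he0] at this
        omega
    have := (hz j).1
    omega

end

end Pool.Agent.Helper472.HC
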