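import Pool.Agent.Helper472.HC.Large1c

/-!
Integral cycles of integral Hénon maps: cycles of diameter at least `10`, `δ = -1`.
-/

set_option autoImplicit false

namespace Pool.Agent.Helper472.HC

/-- the possible values `T` and `e = a (S - a) T` if `e` is in `[-2S, 2S]` -/
def TC (S a T e : ℤ) : Prop :=
  (a = 0 ∧ e = 0) ∨ (a = S ∧ e = 0) ∨ (3 ≤ a ∧ a ≤ S - 3 ∧ T = 0 ∧ e = 0) ∨
    (a = 1 ∧ ((T = 0 ∧ e = 0) ∨ (T = 1 ∧ e = S - 1) ∨ (T = -1 ∧ e = -(S - 1)) ∨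
      (T = 2 ∧ e = 2 * (S - 1)) ∨ (T = -2 ∧ e = -(2 * (S - 1))))) ∨
    (a = S - 1 ∧ ((T = 0 ∧ e = 0) ∨ (T = 1 ∧ e = S - 1) ∨ (T = -1 ∧ e = -(S - 1)) ∨
      (T = 2 ∧ e = 2 * (S - 1)) ∨ (T = -2 ∧ e = -(2 * (S - 1))))) ∨
    (a = 2 ∧ ((T = 0 ∧ e = 0) ∨ (T = 1 ∧ e = 2 * (S - 2)) ∨ (T = -1 ∧ e = -(2 * (S - 2))))) ∨
    (a = S - 2 ∧ ((T = 0 ∧ e = 0) ∨ (T = 1 ∧ e = 2 * (S - 2)) ∨ (T = -1 ∧ e = -(2 * (S - 2)))))

theorem TC_of (S a T : ℤ) (hS : 10 ≤ S) (h0 : 0 ≤ a) (h1 : a ≤ S) (hb : a * (S - a) * T ≤ 2 * S)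
    (hb' : -(2 * S) ≤ a * (S - a) * T) : TC S a T (a * (S - a) * T) := by
  have key : ∀ w : ℤ, 0 < w → 2 * S < 3 * w → w * T ≤ 2 * S → -(2 * S) ≤ w * T →
      T = -2 ∨ T = -1 ∨ T = 0 ∨ T = 1 ∨ T = 2 := by
    intro w hw h3 h4 h5
    have h6 : T < 3 := by
      by_contra h
      push Not at h
      nlinarith
    have h7 : -3 < T := by
      by_contra h
      push Not at h
      nlinarith
    omega
  have key2 : ∀ w : ℤ, 0 < w → 2 * S < 2 * w → w * T ≤ 2 * S → -(2 * S) ≤ w * T →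
      T = -1 ∨ T = 0 ∨ T = 1 := by
    intro w hw h3 h4 h5
    have h6 : T < 2 := by
      by_contra h
      push Not at h
      nlinarith
    have h7 : -2 < T := by
      by_contra h
      push Not at h
      nlinarith
    omega
  unfold TC
  rcases eq_or_ne a 0 with rfl | ha0
  · left; exact ⟨rfl, by ring⟩
  rcases eq_or_ne a S with rfl | haS
  · right; left; exact ⟨rfl, by ring⟩
  rcases eq_or_ne a 1 with rfl | ha1
  · have := key (S - 1) (by omega) (by omega) (by linarith) (by linarith)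
    rw [one_mul] at *
    rcases this with rfl | rfl | rfl | rfl | rfl <;> omega
  rcases eq_or_ne a (S - 1) with rfl | ha2
  · have e1 : (S - 1) * (S - (S - 1)) * T = (S - 1) * T := by ring
    rw [e1] at *
    have := key (S - 1) (by omega) (by omega) (by linarith) (by linarith)
    rcases this with rfl | rfl | rfl | rfl | rfl <;> omega
  rcases eq_or_ne a 2 with rfl | ha3
  · have := key2 (2 * (S - 2)) (by omega) (by omega) (by linarith) (by linarith)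
    rcases this with rfl | rfl | rfl <;> omega
  rcases eq_or_ne a (S - 2) with rfl | ha4
  · have e1 : (S - 2) * (S - (S - 2)) * T = 2 * (S - 2) * T := by ring
    rw [e1] at *
    have := key2 (2 * (S - 2)) (by omega) (by omega) (by linarith) (by linarith)
    rcases this with rfl | rfl | rfl <;> omega
  · right; right; left
    have h2 : 3 ≤ a := by omega
    have h3 : a ≤ S - 3 := by omega
    have h4 : 3 * (S - 3) ≤ a * (S - a) := by nlinarith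
    have h5 : T < 1 := by
      by_contra h
      push Not at h
      nlinarith
    have h6 : -1 < T := by
      by_contra h
      push Not at h
      nlinarith
    have h7 : T = 0 := by omega
    exact ⟨h2, h3, h7, by rw [h7, mul_zero]⟩

theorem small_dvd {d t : ℤ} (h : d ∣ t) (h1 : t < d) (h2 : -d < t) : t = 0 :=
  Int.eq_zero_of_abs_lt_dvd h (abs_lt.2 ⟨h2, h1⟩)

section

variable {x e G : ℤ → ℤ} {S s : ℤ}

/-- the pairs of consecutive terms of a sequence with the pattern `0, a, S - a, S` -/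
def Four (S a : ℤ) (x : ℤ → ℤ) : Prop :=
  ∀ n, (x n = 0 ∧ x (n + 1) = a) ∨ (x n = a ∧ x (n + 1) = S - a) ∨
    (x n = S - a ∧ x (n + 1) = S) ∨ (x n = S ∧ x (n + 1) = 0)

theorem four_of {a : ℤ} (hr : ∀ n m k, m = n + 1 → k = n - 1 → x m - x k = s - e (x n))
    (hs : s = -(S - a)) (h0 : e 0 = 0) (hS : e S = 0) (ha : e a = s - (S - a))
    (ha' : e (S - a) = s - (S - a)) {i : ℤ} (h1 : x i = 0) (h2 : x (i + 1) = a) : Four S a x := by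
  unfold Four
  refine two_sided (fun n => (x n = 0 ∧ x (n + 1) = a) ∨ (x n = a ∧ x (n + 1) = S - a) ∨
    (x n = S - a ∧ x (n + 1) = S) ∨ (x n = S ∧ x (n + 1) = 0)) i (Or.inl ⟨h1, h2⟩) ?_ ?_
  · intro n h
    have h5 := hr (n + 1) (n + 1 + 1) n rfl (by ring)
    rcases h with ⟨h6, h7⟩ | ⟨h6, h7⟩ | ⟨h6, h7⟩ | ⟨h6, h7⟩
    · rw [h7, ha] at h5; right; left; omega
    · rw [h7, ha'] at h5; right; right; left; omega
    · rw [h7, hS] at h5; right; right; right; omega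
    · rw [h7, h0] at h5; left; omega
  · intro n h
    have h5 := hr n (n + 1) (n - 1) rfl rfl
    rw [sub_add_cancel]
    rcases h with ⟨h6, h7⟩ | ⟨h6, h7⟩ | ⟨h6, h7⟩ | ⟨h6, h7⟩
    · rw [h6, h0] at h5; right; right; right; omega
    · rw [h6, ha] at h5; left; omega
    · rw [h6, ha'] at h5; right; left; omega
    · rw [h6, hS] at h5; right; right; left; omega

/-- `c = 0`, `s < 0` -/
theorem m_c0 (hS : 10 ≤ S) (hx : ∀ n, 0 ≤ x n ∧ x n ≤ S)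
    (hr : ∀ n m k, m = n + 1 → k = n - 1 → x m - x k = s - e (x n)) (he0 : e 0 = 0)
    (heS : e S = 0) (hT : ∀ n, TC S (x n) (G (x n)) (e (x n)))
    (hG : ∀ a b, (a - b) ∣ G a - G b) (hs : s < 0) {i : ℤ} (hi : x i = 0)
    {j : ℤ} (hj : x j = S) : Four S 1 x ∨ Four S 2 x := by
  have r0 := hr i (i + 1) (i - 1) rfl rfl
  rw [hi, he0] at r0
  have r1 := hr (i + 1) (i + 2) i (by ring) (by ring)
  rw [hi] at r1
  have rm := hr (i - 1) i (i - 2) (by ring) (by ring)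
  rw [hi] at rm
  have q0 := hr j (j + 1) (j - 1) rfl rfl
  rw [hj, heS] at q0
  have q1 := hr (j + 1) (j + 2) j (by ring) (by ring)
  rw [hj] at q1
  have qm := hr (j - 1) j (j - 2) (by ring) (by ring)
  rw [hj] at qm
  have a1 := hx (i + 1)
  have a2 := hx (i + 2)
  have am1 := hx (i - 1)
  have am2 := hx (i - 2)
  have b1 := hx (j + 1)
  have b2 := hx (j + 2)
  have bm1 := hx (j - 1)
  have bm2 := hx (j - 2)
  -- the successor `q` of `0`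
  have hq : (x (i + 1) = 1 ∧ (G (x (i + 1)) = -1 ∧ e (x (i + 1)) = -(S - 1) ∨
      G (x (i + 1)) = -2 ∧ e (x (i + 1)) = -(2 * (S - 1)))) ∨
      (x (i + 1) = 2 ∧ G (x (i + 1)) = -1 ∧ e (x (i + 1)) = -(2 * (S - 2))) ∨
      (x (i + 1) = S - 1 ∧ s = -1 ∧ G (x (i + 1)) = -1 ∧ e (x (i + 1)) = -(S - 1)) := by
    clear q0 q1 qm b1 b2 bm1 bm2 rm
    (have hh := hT (i + 1)
     unfold TC at hh
     rcases hh with ⟨hh, hh'⟩ | ⟨hh, hh'⟩ | ⟨hh, hh1, hh2, hh'⟩ |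
         ⟨hh, ⟨hh', hh''⟩ | ⟨hh', hh''⟩ | ⟨hh', hh''⟩ | ⟨hh', hh''⟩ | ⟨hh', hh''⟩⟩ |
         ⟨hh, ⟨hh', hh''⟩ | ⟨hh', hh''⟩ | ⟨hh', hh''⟩ | ⟨hh', hh''⟩ | ⟨hh', hh''⟩⟩ |
         ⟨hh, ⟨hh', hh''⟩ | ⟨hh', hh''⟩ | ⟨hh', hh''⟩⟩ |
         ⟨hh, ⟨hh', hh''⟩ | ⟨hh', hh''⟩ | ⟨hh', hh''⟩⟩ <;> omega)
  have hp : (x (j - 1) = S - 1 ∧ (G (x (j - 1)) = -1 ∧ e (x (j - 1)) = -(S - 1) ∨
      G (x (j - 1)) = -2 ∧ e (x (j - 1)) = -(2 * (S - 1)))) ∨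
      (x (j - 1) = S - 2 ∧ G (x (j - 1)) = -1 ∧ e (x (j - 1)) = -(2 * (S - 2))) ∨
      (x (j - 1) = 1 ∧ s = -1 ∧ G (x (j - 1)) = -1 ∧ e (x (j - 1)) = -(S - 1)) := by
    clear r0 r1 rm a1 a2 am1 am2 q1 hq
    (have hh := hT (j - 1)
     unfold TC at hh
     rcases hh with ⟨hh, hh'⟩ | ⟨hh, hh'⟩ | ⟨hh, hh1, hh2, hh'⟩ |
         ⟨hh, ⟨hh', hh''⟩ | ⟨hh', hh''⟩ | ⟨hh', hh''⟩ | ⟨hh', hh''⟩ | ⟨hh', hh''⟩⟩ |
         ⟨hh, ⟨hh', hh''⟩ | ⟨hh', hh''⟩ | ⟨hh', hh''⟩ | ⟨hh', hh''⟩ | ⟨hh', hh''⟩⟩ |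
         ⟨hh, ⟨hh', hh''⟩ | ⟨hh', hh''⟩ | ⟨hh', hh''⟩⟩ |
         ⟨hh, ⟨hh', hh''⟩ | ⟨hh', hh''⟩ | ⟨hh', hh''⟩⟩ <;> omega)
  have d1 : (S - 2) ∣ G (S - 1) - G 1 := by
    have := hG (S - 1) 1
    rwa [show S - 1 - 1 = S - 2 by ring] at this
  have d2 : (S - 3) ∣ G (S - 1) - G 2 := by
    have := hG (S - 1) 2
    rwa [show S - 1 - 2 = S - 3 by ring] at this
  have d3 : (S - 3) ∣ G (S - 2) - G 1 := by
    have := hG (S - 2) 1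
    rwa [show S - 2 - 1 = S - 3 by ring] at this
  have d4 : (S - 4) ∣ G (S - 2) - G 2 := by
    have := hG (S - 2) 2
    rwa [show S - 2 - 2 = S - 4 by ring] at this
  rcases hq with ⟨hq, hq'⟩ | ⟨hq, hq', hq''⟩ | ⟨hq, hq1, hq', hq''⟩
  · rw [hq] at hq' r1
    rcases hp with ⟨hp, hp'⟩ | ⟨hp, hp', hp''⟩ | ⟨hp, hp1, hp', hp''⟩
    · -- `q = 1`, `p' = S - 1`
      rw [hp] at hp' qm
      have hG1 : G (S - 1) - G 1 = 0 := small_dvd d1 (by omega) (by omega)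
      rcases hq' with ⟨g1, g2⟩ | ⟨g1, g2⟩
      · exfalso
        have g3 : G (S - 1) = -1 := by omega
        have g4 : e (S - 1) = -(S - 1) := by omega
        have y1 : x (j - 2) = x (i - 1) := by omega
        have qm2 := hr (j - 2) (j - 1) (j - 3) (by ring) (by ring)
        rw [y1, hp] at qm2
        have bm3 := hx (j - 3)
        have h2 : x (i - 1) = 2 ∧ G (x (i - 1)) = 0 ∨ x (i - 1) = S - 1 := by
          clear q0 q1 qm b1 b2 bm1 bm2 d1 d2 d3 d4 hG1 hp'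
          (have hh := hT (i - 1)
           unfold TC at hh
           rcases hh with ⟨hh, hh'⟩ | ⟨hh, hh'⟩ | ⟨hh, hh1, hh2, hh'⟩ |
               ⟨hh, ⟨hh', hh''⟩ | ⟨hh', hh''⟩ | ⟨hh', hh''⟩ | ⟨hh', hh''⟩ | ⟨hh', hh''⟩⟩ |
               ⟨hh, ⟨hh', hh''⟩ | ⟨hh', hh''⟩ | ⟨hh', hh''⟩ | ⟨hh', hh''⟩ | ⟨hh', hh''⟩⟩ |
               ⟨hh, ⟨hh', hh''⟩ | ⟨hh', hh''⟩ | ⟨hh', hh''⟩⟩ |
               ⟨hh, ⟨hh', hh''⟩ | ⟨hh', hh''⟩ | ⟨hh', hh''⟩⟩ <;> omega)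
        rcases h2 with ⟨h2, h3⟩ | h2
        · rw [h2] at h3
          have := small_dvd d2 (by omega) (by omega)
          omega
        · rw [h2] at rm
          omega
      · have g3 : G (S - 1) = -2 := by omega
        have g4 : e (S - 1) = -(2 * (S - 1)) := by omega
        rcases (by omega : s = -(S - 1) ∨ s = -(S - 2)) with h2 | h2
        · left
          exact four_of hr h2 he0 heS (by omega) (by omega) hi hq
        · exfalso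
          have h3 : x (i - 1) = S - 1 := by omega
          rw [h3] at rm
          omega
    · -- `q = 1`, `p' = S - 2`
      exfalso
      rw [hp] at hp' hp'' qm
      have h1 : G (S - 2) - G 1 = 0 := small_dvd d3 (by omega) (by omega)
      have g1 : G 1 = -1 := by omega
      have g2 : e 1 = -(S - 1) := by omega
      have h4 : x (i - 1) = S - 3 ∨ x (i - 1) = S - 2 ∨ x (i - 1) = S - 1 := by omega
      rcases h4 with h4 | h4 | h4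
      · have h5 : G (x (i - 1)) = 0 := by
          clear q0 q1 qm b1 b2 bm1 bm2 d1 d2 d3 d4 h1
          (have hh := hT (i - 1)
           unfold TC at hh
           rcases hh with ⟨hh, hh'⟩ | ⟨hh, hh'⟩ | ⟨hh, hh1, hh2, hh'⟩ |
               ⟨hh, ⟨hh', hh''⟩ | ⟨hh', hh''⟩ | ⟨hh', hh''⟩ | ⟨hh', hh''⟩ | ⟨hh', hh''⟩⟩ |
               ⟨hh, ⟨hh', hh''⟩ | ⟨hh', hh''⟩ | ⟨hh', hh''⟩ | ⟨hh', hh''⟩ | ⟨hh', hh''⟩⟩ |
               ⟨hh, ⟨hh', hh''⟩ | ⟨hh', hh''⟩ | ⟨hh', hh''⟩⟩ |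
               ⟨hh, ⟨hh', hh''⟩ | ⟨hh', hh''⟩ | ⟨hh', hh''⟩⟩ <;> omega)
        rw [h4] at h5
        have h6 := hG (S - 3) 1
        rw [show S - 3 - 1 = S - 4 by ring, h5, g1] at h6
        have := small_dvd h6 (by omega) (by omega)
        omega
      · rw [h4] at rm
        omega
      · have h5 : G (x (i - 1)) ≤ 2 ∧ -2 ≤ G (x (i - 1)) := by
          clear q0 q1 qm b1 b2 bm1 bm2 d1 d2 d3 d4 h1
          (have hh := hT (i - 1)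
           unfold TC at hh
           rcases hh with ⟨hh, hh'⟩ | ⟨hh, hh'⟩ | ⟨hh, hh1, hh2, hh'⟩ |
               ⟨hh, ⟨hh', hh''⟩ | ⟨hh', hh''⟩ | ⟨hh', hh''⟩ | ⟨hh', hh''⟩ | ⟨hh', hh''⟩⟩ |
               ⟨hh, ⟨hh', hh''⟩ | ⟨hh', hh''⟩ | ⟨hh', hh''⟩ | ⟨hh', hh''⟩ | ⟨hh', hh''⟩⟩ |
               ⟨hh, ⟨hh', hh''⟩ | ⟨hh', hh''⟩ | ⟨hh', hh''⟩⟩ |
               ⟨hh, ⟨hh', hh''⟩ | ⟨hh', hh''⟩ | ⟨hh', hh''⟩⟩ <;> omega)
        rw [h4] at h5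
        have h6 := small_dvd d1 (by omega) (by omega)
        have h7 : e (x (i - 1)) = -(S - 1) := by
          have h8 : G (x (i - 1)) = -1 := by rw [h4]; omega
          clear q0 q1 qm b1 b2 bm1 bm2 d1 d2 d3 d4 h1
          (have hh := hT (i - 1)
           unfold TC at hh
           rcases hh with ⟨hh, hh'⟩ | ⟨hh, hh'⟩ | ⟨hh, hh1, hh2, hh'⟩ |
               ⟨hh, ⟨hh', hh''⟩ | ⟨hh', hh''⟩ | ⟨hh', hh''⟩ | ⟨hh', hh''⟩ | ⟨hh', hh''⟩⟩ |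
               ⟨hh, ⟨hh', hh''⟩ | ⟨hh', hh''⟩ | ⟨hh', hh''⟩ | ⟨hh', hh''⟩ | ⟨hh', hh''⟩⟩ |
               ⟨hh, ⟨hh', hh''⟩ | ⟨hh', hh''⟩ | ⟨hh', hh''⟩⟩ |
               ⟨hh, ⟨hh', hh''⟩ | ⟨hh', hh''⟩ | ⟨hh', hh''⟩⟩ <;> omega)
        rw [h7] at rm
        omega
    · -- `q = 1`, `p' = 1`
      exfalso
      rw [hp] at hp' hp''
      have h1 : x (i - 1) = 2 := by omega
      have h2 : G (x (i - 1)) = 0 := by
        clear q0 q1 qm b1 b2 bm1 bm2 d1 d2 d3 d4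
        (have hh := hT (i - 1)
         unfold TC at hh
         rcases hh with ⟨hh, hh'⟩ | ⟨hh, hh'⟩ | ⟨hh, hh1, hh2, hh'⟩ |
             ⟨hh, ⟨hh', hh''⟩ | ⟨hh', hh''⟩ | ⟨hh', hh''⟩ | ⟨hh', hh''⟩ | ⟨hh', hh''⟩⟩ |
             ⟨hh, ⟨hh', hh''⟩ | ⟨hh', hh''⟩ | ⟨hh', hh''⟩ | ⟨hh', hh''⟩ | ⟨hh', hh''⟩⟩ |
             ⟨hh, ⟨hh', hh''⟩ | ⟨hh', hh''⟩ | ⟨hh', hh''⟩⟩ |
             ⟨hh, ⟨hh', hh''⟩ | ⟨hh', hh''⟩ | ⟨hh', hh''⟩⟩ <;> omega)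
      have h3 : x (i + 2) = S - 2 := by omega
      have h4 : G (x (i + 2)) ≤ 1 ∧ -1 ≤ G (x (i + 2)) := by
        clear q0 q1 qm b1 b2 bm1 bm2 d1 d2 d3 d4
        (have hh := hT (i + 2)
         unfold TC at hh
         rcases hh with ⟨hh, hh'⟩ | ⟨hh, hh'⟩ | ⟨hh, hh1, hh2, hh'⟩ |
             ⟨hh, ⟨hh', hh''⟩ | ⟨hh', hh''⟩ | ⟨hh', hh''⟩ | ⟨hh', hh''⟩ | ⟨hh', hh''⟩⟩ |
             ⟨hh, ⟨hh', hh''⟩ | ⟨hh', hh''⟩ | ⟨hh', hh''⟩ | ⟨hh', hh''⟩ | ⟨hh', hh''⟩⟩ |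
             ⟨hh, ⟨hh', hh''⟩ | ⟨hh', hh''⟩ | ⟨hh', hh''⟩⟩ |
             ⟨hh, ⟨hh', hh''⟩ | ⟨hh', hh''⟩ | ⟨hh', hh''⟩⟩ <;> omega)
      rw [h1] at h2
      rw [h3] at h4
      have h5 := small_dvd d3 (by omega) (by omega)
      have h6 := small_dvd d4 (by omega) (by omega)
      omega
  · rw [hq] at hq' hq'' r1
    rcases hp with ⟨hp, hp'⟩ | ⟨hp, hp', hp''⟩ | ⟨hp, hp1, hp', hp''⟩
    · -- `q = 2`, `p' = S - 1`
      exfalso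
      rw [hp] at hp' qm
      have h1 : G (S - 1) - G 2 = 0 := small_dvd d2 (by omega) (by omega)
      have g1 : G (S - 1) = -1 := by omega
      have h4 : x (j + 1) = 1 ∨ x (j + 1) = 2 ∨ x (j + 1) = 3 := by omega
      rcases h4 with h4 | h4 | h4
      · have h5 : G (x (j + 1)) ≤ 2 ∧ -2 ≤ G (x (j + 1)) := by
          clear r0 r1 rm a1 a2 am1 am2 qm d1 d2 d3 d4 h1
          (have hh := hT (j + 1)
           unfold TC at hh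
           rcases hh with ⟨hh, hh'⟩ | ⟨hh, hh'⟩ | ⟨hh, hh1, hh2, hh'⟩ |
               ⟨hh, ⟨hh', hh''⟩ | ⟨hh', hh''⟩ | ⟨hh', hh''⟩ | ⟨hh', hh''⟩ | ⟨hh', hh''⟩⟩ |
               ⟨hh, ⟨hh', hh''⟩ | ⟨hh', hh''⟩ | ⟨hh', hh''⟩ | ⟨hh', hh''⟩ | ⟨hh', hh''⟩⟩ |
               ⟨hh, ⟨hh', hh''⟩ | ⟨hh', hh''⟩ | ⟨hh', hh''⟩⟩ |
               ⟨hh, ⟨hh', hh''⟩ | ⟨hh', hh''⟩ | ⟨hh', hh''⟩⟩ <;> omega)
        rw [h4] at h5
        have h6 := small_dvd d1 (by omega) (by omega)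
        have h7 : e (x (j + 1)) = -(S - 1) := by
          have h8 : G (x (j + 1)) = -1 := by rw [h4]; omega
          clear r0 r1 rm a1 a2 am1 am2 qm d1 d2 d3 d4 h1
          (have hh := hT (j + 1)
           unfold TC at hh
           rcases hh with ⟨hh, hh'⟩ | ⟨hh, hh'⟩ | ⟨hh, hh1, hh2, hh'⟩ |
               ⟨hh, ⟨hh', hh''⟩ | ⟨hh', hh''⟩ | ⟨hh', hh''⟩ | ⟨hh', hh''⟩ | ⟨hh', hh''⟩⟩ |
               ⟨hh, ⟨hh', hh''⟩ | ⟨hh', hh''⟩ | ⟨hh', hh''⟩ | ⟨hh', hh''⟩ | ⟨hh', hh''⟩⟩ |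
               ⟨hh, ⟨hh', hh''⟩ | ⟨hh', hh''⟩ | ⟨hh', hh''⟩⟩ |
               ⟨hh, ⟨hh', hh''⟩ | ⟨hh', hh''⟩ | ⟨hh', hh''⟩⟩ <;> omega)
        rw [h7] at q1
        omega
      · rw [h4] at q1
        omega
      · have h5 : G (x (j + 1)) = 0 := by
          clear r0 r1 rm a1 a2 am1 am2 qm d1 d2 d3 d4 h1
          (have hh := hT (j + 1)
           unfold TC at hh
           rcases hh with ⟨hh, hh'⟩ | ⟨hh, hh'⟩ | ⟨hh, hh1, hh2, hh'⟩ |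
               ⟨hh, ⟨hh', hh''⟩ | ⟨hh', hh''⟩ | ⟨hh', hh''⟩ | ⟨hh', hh''⟩ | ⟨hh', hh''⟩⟩ |
               ⟨hh, ⟨hh', hh''⟩ | ⟨hh', hh''⟩ | ⟨hh', hh''⟩ | ⟨hh', hh''⟩ | ⟨hh', hh''⟩⟩ |
               ⟨hh, ⟨hh', hh''⟩ | ⟨hh', hh''⟩ | ⟨hh', hh''⟩⟩ |
               ⟨hh, ⟨hh', hh''⟩ | ⟨hh', hh''⟩ | ⟨hh', hh''⟩⟩ <;> omega)
        rw [h4] at h5
        have h6 := hG (S - 1) 3
        rw [show S - 1 - 3 = S - 4 by ring, h5, g1] at h6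
        have := small_dvd h6 (by omega) (by omega)
        omega
    · -- `q = 2`, `p' = S - 2`
      rw [hp] at hp' hp'' qm
      have h4 : s = -(S - 2) ∨ s = -(S - 3) ∨ s = -(S - 4) := by omega
      rcases h4 with h4 | h4 | h4
      · right
        exact four_of hr h4 he0 heS (by omega) (by omega) hi hq
      · exfalso
        have h3 : x (i - 1) = S - 1 := by omega
        have h5 : G (x (i - 1)) ≤ 2 ∧ -2 ≤ G (x (i - 1)) := by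
          clear q0 q1 qm b1 b2 bm1 bm2 d1 d2 d3 d4
          (have hh := hT (i - 1)
           unfold TC at hh
           rcases hh with ⟨hh, hh'⟩ | ⟨hh, hh'⟩ | ⟨hh, hh1, hh2, hh'⟩ |
               ⟨hh, ⟨hh', hh''⟩ | ⟨hh', hh''⟩ | ⟨hh', hh''⟩ | ⟨hh', hh''⟩ | ⟨hh', hh''⟩⟩ |
               ⟨hh, ⟨hh', hh''⟩ | ⟨hh', hh''⟩ | ⟨hh', hh''⟩ | ⟨hh', hh''⟩ | ⟨hh', hh''⟩⟩ |
               ⟨hh, ⟨hh', hh''⟩ | ⟨hh', hh''⟩ | ⟨hh', hh''⟩⟩ |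
               ⟨hh, ⟨hh', hh''⟩ | ⟨hh', hh''⟩ | ⟨hh', hh''⟩⟩ <;> omega)
        rw [h3] at h5
        have h6 := small_dvd d2 (by omega) (by omega)
        have h7 : e (x (i - 1)) = -(S - 1) := by
          have h8 : G (x (i - 1)) = -1 := by rw [h3]; omega
          clear q0 q1 qm b1 b2 bm1 bm2 d1 d2 d3 d4
          (have hh := hT (i - 1)
           unfold TC at hh
           rcases hh with ⟨hh, hh'⟩ | ⟨hh, hh'⟩ | ⟨hh, hh1, hh2, hh'⟩ |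
               ⟨hh, ⟨hh', hh''⟩ | ⟨hh', hh''⟩ | ⟨hh', hh''⟩ | ⟨hh', hh''⟩ | ⟨hh', hh''⟩⟩ |
               ⟨hh, ⟨hh', hh''⟩ | ⟨hh', hh''⟩ | ⟨hh', hh''⟩ | ⟨hh', hh''⟩ | ⟨hh', hh''⟩⟩ |
               ⟨hh, ⟨hh', hh''⟩ | ⟨hh', hh''⟩ | ⟨hh', hh''⟩⟩ |
               ⟨hh, ⟨hh', hh''⟩ | ⟨hh', hh''⟩ | ⟨hh', hh''⟩⟩ <;> omega)
        rw [h7] at rm
        omega
      · exfalso
        have h3 : x (i - 1) = S - 2 := by omega
        rw [h3] at rm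
        omega
    · exfalso
      omega
  · -- `q = S - 1`
    exfalso
    rw [hq] at hq' hq'' r1
    have x2 : x (i + 2) = S - 2 := by omega
    have r2 := hr (i + 2) (i + 3) (i + 1) (by ring) (by ring)
    have a3 := hx (i + 3)
    have h1 : e (x (i + 2)) = 0 := by
      clear q0 q1 qm b1 b2 bm1 bm2 d1 d2 d3 d4 hp
      (have hh := hT (i + 2)
       unfold TC at hh
       rcases hh with ⟨hh, hh'⟩ | ⟨hh, hh'⟩ | ⟨hh, hh1, hh2, hh'⟩ |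
           ⟨hh, ⟨hh', hh''⟩ | ⟨hh', hh''⟩ | ⟨hh', hh''⟩ | ⟨hh', hh''⟩ | ⟨hh', hh''⟩⟩ |
           ⟨hh, ⟨hh', hh''⟩ | ⟨hh', hh''⟩ | ⟨hh', hh''⟩ | ⟨hh', hh''⟩ | ⟨hh', hh''⟩⟩ |
           ⟨hh, ⟨hh', hh''⟩ | ⟨hh', hh''⟩ | ⟨hh', hh''⟩⟩ |
           ⟨hh, ⟨hh', hh''⟩ | ⟨hh', hh''⟩ | ⟨hh', hh''⟩⟩ <;> omega)
    have x3 : x (i + 3) = S - 2 := by omega
    have r3 := hr (i + 3) (i + 4) (i + 2) (by ring) (by ring)
    rw [x2] at h1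
    rw [x3, h1] at r3
    have x4 : x (i + 4) = S - 3 := by omega
    have h5 : G (x (i + 4)) = 0 := by
      clear q0 q1 qm b1 b2 bm1 bm2 d1 d2 d3 d4 hp
      (have hh := hT (i + 4)
       unfold TC at hh
       rcases hh with ⟨hh, hh'⟩ | ⟨hh, hh'⟩ | ⟨hh, hh1, hh2, hh'⟩ |
           ⟨hh, ⟨hh', hh''⟩ | ⟨hh', hh''⟩ | ⟨hh', hh''⟩ | ⟨hh', hh''⟩ | ⟨hh', hh''⟩⟩ |
           ⟨hh, ⟨hh', hh''⟩ | ⟨hh', hh''⟩ | ⟨hh', hh''⟩ | ⟨hh', hh''⟩ | ⟨hh', hh''⟩⟩ |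
           ⟨hh, ⟨hh', hh''⟩ | ⟨hh', hh''⟩ | ⟨hh', hh''⟩⟩ |
           ⟨hh, ⟨hh', hh''⟩ | ⟨hh', hh''⟩ | ⟨hh', hh''⟩⟩ <;> omega)
    rw [x4] at h5
    have h6 := hG (S - 1) (S - 3)
    rw [show S - 1 - (S - 3) = 2 by ring, h5, hq'] at h6
    omega

end

end Pool.Agent.Helper472.HC
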