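import Mathlib

/-!
Generalized Hénon maps of degree `d` with more than `(d + 2)²` integral periodic points.
-/

set_option autoImplicit false
set_option linter.unusedSectionVars false

namespace Pool.Agent.Helper472.Many

open Polynomial Finset

theorem periodic_of_finite {α : Type*} {f : α → α} (hf : Function.Injective f) {E : Set α}
    (hE : E.Finite) (h : Set.MapsTo f E E) {P : α} (hP : P ∈ E) : ∃ n : ℕ, 1 ≤ n ∧ f^[n] P = P := by
  have hmem : ∀ n : ℕ, f^[n] P ∈ E := fun n => (h.iterate n) hP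
  have := hE.to_subtype
  obtain ⟨i, j, hij, he⟩ := Finite.exists_ne_map_eq_of_infinite (fun n : ℕ => (⟨f^[n] P, hmem n⟩ : E))
  simp only [Subtype.mk.injEq] at he
  wlog hlt : i < j generalizing i j
  · exact this j i hij.symm he.symm (by omega)
  refine ⟨j - i, by omega, ?_⟩
  have h1 : f^[j] P = f^[i] (f^[j - i] P) := by
    rw [← Function.iterate_add_apply]
    congr 1
    omega
  rw [h1] at he
  exact (hf.iterate i he).symm

section

variable {K : Type*} [Field K] [CharZero K]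

/-- `F = d - 1 + (X choose d)` -/
noncomputable def F (K : Type*) [Field K] (d : ℕ) : K[X] :=
  C ((d : K) - 1) + C ((d.factorial : K)⁻¹) * ∏ i ∈ range d, (X - C (i : K))

/-- `f(x, y) = (y, F(y) - x)` -/
noncomputable def f (K : Type*) [Field K] (d : ℕ) (P : K × K) : K × K :=
  (P.2, (F K d).eval P.2 - P.1)

theorem F_natDegree (d : ℕ) (hd : 1 ≤ d) : (F K d).natDegree = d := by
  unfold F
  have h1 : (d.factorial : K)⁻¹ ≠ 0 := inv_ne_zero (by exact_mod_cast d.factorial_ne_zero)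
  have h2 : (C ((d.factorial : K)⁻¹) * ∏ i ∈ range d, (X - C (i : K))).natDegree = d := by
    rw [natDegree_C_mul h1, natDegree_prod_of_monic _ _ fun i _ => monic_X_sub_C _,
      sum_congr rfl fun i _ => natDegree_X_sub_C _]
    simp
  rw [natDegree_add_eq_right_of_natDegree_lt, h2]
  rw [h2, natDegree_C]
  omega

theorem f_injective (d : ℕ) : Function.Injective (f K d) := by
  rintro ⟨x, y⟩ ⟨x', y'⟩ h
  simp only [f, Prod.mk.injEq] at h
  obtain ⟨rfl, h⟩ := h
  have : x = x' := by linear_combination -h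
  rw [this]

/-- the values of `F` -/
theorem F_eval (d : ℕ) (y : K) : (F K d).eval y = (d : K) - 1 +
    (d.factorial : K)⁻¹ * ∏ i ∈ range d, (y - (i : K)) := by
  unfold F
  rw [eval_add, eval_C, eval_mul, eval_C, eval_prod]
  simp

theorem F_inner (d : ℕ) (n : ℤ) (h0 : 0 ≤ n) (h1 : n < d) :
    (F K d).eval (n : K) = ((d - 1 : ℤ) : K) := by
  rw [F_eval, prod_eq_zero (i := n.toNat) (by rw [mem_range]; omega)]
  · push_cast; ring
  · have : ((n.toNat : ℕ) : K) = ((n.toNat : ℤ) : K) := by push_cast; rfl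
    rw [this, Int.toNat_of_nonneg h0, sub_self]

theorem prod_desc (n k : ℕ) (hk : k ≤ n + 1) :
    ∏ i ∈ range k, ((n : K) - (i : K)) = (n.descFactorial k : K) := by
  rw [Nat.descFactorial_eq_prod_range]
  push_cast
  refine prod_congr rfl fun i hi => ?_
  rw [mem_range] at hi
  rw [Nat.cast_sub (by omega)]

theorem fac_ne (d : ℕ) : (d.factorial : K) ≠ 0 := by exact_mod_cast d.factorial_ne_zero

theorem F_d (d : ℕ) : (F K d).eval ((d : ℤ) : K) = ((d : ℤ) : K) := by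
  rw [F_eval, Int.cast_natCast, prod_desc d d (by omega), Nat.descFactorial_self,
    inv_mul_cancel₀ (fac_ne d)]
  ring

theorem F_d1 (d : ℕ) : (F K d).eval ((d + 1 : ℤ) : K) = ((2 * d : ℤ) : K) := by
  have h1 : ((d + 1 : ℤ) : K) = ((d + 1 : ℕ) : K) := by push_cast; rfl
  have h2 : (d + 1).descFactorial d = (d + 1).factorial := by
    have := Nat.descFactorial_succ (d + 1) d
    have h3 := Nat.descFactorial_self (d + 1)
    rw [this] at h3
    simpa using h3
  rw [F_eval, h1, prod_desc (d + 1) d (by omega), h2, Nat.factorial_succ]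
  have := fac_ne (K := K) d
  push_cast
  field_simp
  ring

theorem F_m1 (d : ℕ) : (F K d).eval ((-1 : ℤ) : K) = (d : K) - 1 + (-1) ^ d := by
  have h1 : ∏ i ∈ range d, (((-1 : ℤ) : K) - (i : K)) = (-1) ^ d * (d.factorial : K) := by
    have h2 : ∀ i ∈ range d, ((-1 : ℤ) : K) - (i : K) = (-1) * ((i + 1 : ℕ) : K) := fun i _ => by
      push_cast; ring
    rw [prod_congr rfl h2, prod_mul_distrib, prod_const, card_range, ← Nat.cast_prod,
      prod_range_add_one_eq_factorial]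
  rw [F_eval, h1]
  have := fac_ne (K := K) d
  field_simp

theorem F_m2 (d : ℕ) : (F K d).eval ((-2 : ℤ) : K) = (d : K) - 1 + (-1) ^ d * (d + 1) := by
  have h1 : ∏ i ∈ range d, (((-2 : ℤ) : K) - (i : K)) = (-1) ^ d * ((d + 1).factorial : K) := by
    have h2 : ∀ i ∈ range d, ((-2 : ℤ) : K) - (i : K) = (-1) * ((i + 1 + 1 : ℕ) : K) := fun i _ => by
      push_cast; ring
    have h3 := prod_range_add_one_eq_factorial (d + 1)
    rw [prod_range_succ'] at h3
    simp only [zero_add, mul_one] at h3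
    rw [prod_congr rfl h2, prod_mul_distrib, prod_const, card_range, ← Nat.cast_prod, h3]
  rw [F_eval, h1, Nat.factorial_succ]
  have := fac_ne (K := K) d
  push_cast
  field_simp

/-- the points -/
def emb (K : Type*) [Field K] (P : ℤ × ℤ) : K × K := ((P.1 : K), (P.2 : K))

theorem emb_injective : Function.Injective (emb K) := by
  rintro ⟨x, y⟩ ⟨x', y'⟩ h
  simp only [emb, Prod.mk.injEq, Int.cast_inj] at h
  rw [h.1, h.2]

theorem step {d : ℕ} {x y z w : ℤ} (h : (F K d).eval (y : K) = (w : K)) (hz : z = w - x) :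
    f K d (emb K (x, y)) = emb K (y, z) := by
  simp only [f, emb, h, hz]
  push_cast
  rfl

/-- the box of the points with coordinates between `-1` and `d` -/
noncomputable def box (d : ℕ) : Finset (ℤ × ℤ) := Icc (-1 : ℤ) d ×ˢ Icc (-1 : ℤ) d

theorem card_box (d : ℕ) : (box d).card = (d + 2) ^ 2 := by
  unfold box
  rw [card_product, Int.card_Icc]
  have : ((d : ℤ) + 1 - -1).toNat = d + 2 := by omega
  rw [this, sq]

/-- the set for even `d` -/
noncomputable def Ee (d : ℕ) : Finset (ℤ × ℤ) :=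
  (box d).erase (-1, -1) ∪ {((d : ℤ), (d : ℤ) + 1), ((d : ℤ) + 1, (d : ℤ))}

/-- the set for odd `d` -/
noncomputable def Eo (d : ℕ) : Finset (ℤ × ℤ) :=
  box d ∪ {((d : ℤ), (d : ℤ) + 1), ((d : ℤ) + 1, (d : ℤ)), (-1, -2), (-2, -1)}

theorem mem_Ee {d : ℕ} {x y : ℤ} : (x, y) ∈ Ee d ↔
    ((-1 ≤ x ∧ x ≤ d ∧ -1 ≤ y ∧ y ≤ d) ∧ ¬ (x = -1 ∧ y = -1)) ∨ (x = d ∧ y = d + 1) ∨
      (x = d + 1 ∧ y = d) := by
  simp only [Ee, box, mem_union, mem_erase, mem_product, mem_Icc, mem_insert, mem_singleton,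
    Prod.mk.injEq, ne_eq]
  tauto

theorem mem_Eo {d : ℕ} {x y : ℤ} : (x, y) ∈ Eo d ↔
    (-1 ≤ x ∧ x ≤ d ∧ -1 ≤ y ∧ y ≤ d) ∨ (x = d ∧ y = d + 1) ∨
      (x = d + 1 ∧ y = d) ∨ (x = -1 ∧ y = -2) ∨ (x = -2 ∧ y = -1) := by
  simp only [Eo, box, mem_union, mem_product, mem_Icc, mem_insert, mem_singleton,
    Prod.mk.injEq]
  tauto

theorem card_Ee (d : ℕ) : (Ee d).card = (d + 2) ^ 2 + 1 := by
  unfold Ee
  rw [card_union_of_disjoint, card_erase_of_mem, card_box, card_pair]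
  · have : 1 ≤ (d + 2) ^ 2 := Nat.one_le_pow _ _ (by omega)
    omega
  · intro h
    simp only [Prod.mk.injEq] at h
    omega
  · simp [box]
  · rw [disjoint_left]
    rintro ⟨x, y⟩ h1 h2
    simp only [box, mem_erase, mem_product, mem_Icc, mem_insert, mem_singleton,
      Prod.mk.injEq, ne_eq] at h1 h2
    omega

theorem card_Eo (d : ℕ) : (Eo d).card = (d + 2) ^ 2 + 4 := by
  unfold Eo
  rw [card_union_of_disjoint, card_box]
  · congr 1
    rw [card_insert_of_notMem, card_insert_of_notMem, card_pair]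
    · simp
    · simp only [mem_insert, mem_singleton, Prod.mk.injEq]
      omega
    · simp only [mem_insert, mem_singleton, Prod.mk.injEq]
      omega
  · rw [disjoint_left]
    rintro ⟨x, y⟩ h1 h2
    simp only [box, mem_product, mem_Icc, mem_insert, mem_singleton,
      Prod.mk.injEq] at h1 h2
    omega

theorem maps_even {d : ℕ} (hd : Even d) (h2 : 2 ≤ d) {P : ℤ × ℤ} (hP : P ∈ Ee d) :
    ∃ Q ∈ Ee d, f K d (emb K P) = emb K Q := by
  obtain ⟨x, y⟩ := P
  rw [mem_Ee] at hP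
  have hm1 : (F K d).eval ((-1 : ℤ) : K) = ((d : ℤ) : K) := by
    rw [F_m1, hd.neg_one_pow]; push_cast; ring
  rcases hP with ⟨⟨h3, h4, h5, h6⟩, h7⟩ | ⟨rfl, rfl⟩ | ⟨rfl, rfl⟩
  · rcases (by omega : y = -1 ∨ y = d ∨ (0 ≤ y ∧ y < d)) with rfl | rfl | ⟨h8, h9⟩
    · exact ⟨(-1, d - x), mem_Ee.2 (by omega), step hm1 rfl⟩
    · exact ⟨(d, d - x), mem_Ee.2 (by omega), step (F_d d) rfl⟩
    · exact ⟨(y, d - 1 - x), mem_Ee.2 (by omega), step (F_inner d y h8 h9) rfl⟩
  · exact ⟨(d + 1, d), mem_Ee.2 (by omega), step (F_d1 d) (by ring)⟩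
  · exact ⟨(d, -1), mem_Ee.2 (by omega), step (F_d d) (by ring)⟩

theorem maps_odd {d : ℕ} (hd : Odd d) (h2 : 2 ≤ d) {P : ℤ × ℤ} (hP : P ∈ Eo d) :
    ∃ Q ∈ Eo d, f K d (emb K P) = emb K Q := by
  obtain ⟨x, y⟩ := P
  rw [mem_Eo] at hP
  have hm1 : (F K d).eval ((-1 : ℤ) : K) = ((d - 2 : ℤ) : K) := by
    rw [F_m1, hd.neg_one_pow]; push_cast; ring
  have hm2 : (F K d).eval ((-2 : ℤ) : K) = ((-2 : ℤ) : K) := by
    rw [F_m2, hd.neg_one_pow]; push_cast; ring
  rcases hP with ⟨h3, h4, h5, h6⟩ | ⟨rfl, rfl⟩ | ⟨rfl, rfl⟩ | ⟨rfl, rfl⟩ | ⟨rfl, rfl⟩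
  · rcases (by omega : y = -1 ∨ y = d ∨ (0 ≤ y ∧ y < d)) with rfl | rfl | ⟨h8, h9⟩
    · exact ⟨(-1, d - 2 - x), mem_Eo.2 (by omega), step hm1 rfl⟩
    · exact ⟨(d, d - x), mem_Eo.2 (by omega), step (F_d d) rfl⟩
    · exact ⟨(y, d - 1 - x), mem_Eo.2 (by omega), step (F_inner d y h8 h9) rfl⟩
  · exact ⟨(d + 1, d), mem_Eo.2 (by omega), step (F_d1 d) (by ring)⟩
  · exact ⟨(d, -1), mem_Eo.2 (by omega), step (F_d d) (by ring)⟩
  · exact ⟨(-2, -1), mem_Eo.2 (by omega), step hm2 (by ring)⟩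
  · exact ⟨(-1, d), mem_Eo.2 (by omega), step hm1 (by ring)⟩

theorem card_le {d : ℕ} {E : Finset (ℤ × ℤ)}
    (h : ∀ P ∈ E, ∃ Q ∈ E, f K d (emb K P) = emb K Q) :
    ((E.card : ℕ) : ℕ∞) ≤ {P : K × K | ∃ n : ℕ, 1 ≤ n ∧ (f K d)^[n] P = P}.encard := by
  classical
  have h1 : ((E.image (emb K)).card : ℕ∞) ≤
      {P : K × K | ∃ n : ℕ, 1 ≤ n ∧ (f K d)^[n] P = P}.encard := by
    rw [← Set.encard_coe_eq_coe_finsetCard]
    refine Set.encard_le_encard ?_
    intro P hP
    refine periodic_of_finite (f_injective d) (E := ((E.image (emb K) : Finset (K × K)) : Set (K × K)))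
      (Finset.finite_toSet _) ?_ hP
    intro Q hQ
    rw [mem_coe, mem_image] at hQ
    obtain ⟨R, hR, rfl⟩ := hQ
    obtain ⟨R', hR', h2⟩ := h R hR
    rw [h2, mem_coe]
    exact mem_image_of_mem _ hR'
  rwa [card_image_of_injective _ emb_injective] at h1

theorem many_even {d : ℕ} (hd : Even d) (h2 : 2 ≤ d) : (((d + 2) ^ 2 + 1 : ℕ) : ℕ∞) ≤
    {P : K × K | ∃ n : ℕ, 1 ≤ n ∧ (f K d)^[n] P = P}.encard := by
  rw [← card_Ee]
  exact card_le fun P hP => maps_even hd h2 hP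

theorem many_odd {d : ℕ} (hd : Odd d) (h2 : 2 ≤ d) : (((d + 2) ^ 2 + 4 : ℕ) : ℕ∞) ≤
    {P : K × K | ∃ n : ℕ, 1 ≤ n ∧ (f K d)^[n] P = P}.encard := by
  rw [← card_Eo]
  exact card_le fun P hP => maps_odd hd h2 hP

/-- the long cycle: first pass -/
theorem pass {m : ℕ} (hm : 1 ≤ m) {ε : ℤ} (hε : ε = 0 ∨ ε = 1) {k : ℕ} (hk : k ≤ m) :
    f K (2 * m + 1) (emb K ((2 * m + 1 : ℕ) - ε - 2 * k, (2 * m + 1 : ℕ))) =
        emb K ((2 * m + 1 : ℕ), ε + 2 * k) ∧
      (ε + 2 * k < (2 * m + 1 : ℕ) →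
        f K (2 * m + 1) (emb K ((2 * m + 1 : ℕ), ε + 2 * k)) = emb K (ε + 2 * k, -1)) ∧
      f K (2 * m + 1) (emb K (ε + 2 * k, -1)) =
        emb K (-1, (2 * m + 1 : ℕ) - 2 - ε - 2 * k) ∧
      (0 ≤ (2 * m + 1 : ℕ) - 2 - ε - 2 * k →
        f K (2 * m + 1) (emb K (-1, (2 * m + 1 : ℕ) - 2 - ε - 2 * k)) =
          emb K ((2 * m + 1 : ℕ) - 2 - ε - 2 * k, (2 * m + 1 : ℕ))) := by
  have hodd : Odd (2 * m + 1) := ⟨m, rfl⟩
  have hm1 : (F K (2 * m + 1)).eval ((-1 : ℤ) : K) = (((2 * m + 1 : ℕ) : ℤ) - 2 : ℤ) := by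
    rw [F_m1, hodd.neg_one_pow]; push_cast; ring
  refine ⟨step (F_d _) (by ring), fun h => ?_, step hm1 (by ring), fun h => ?_⟩
  · exact step (F_inner _ _ (by omega) h) (by ring)
  · exact step (F_inner _ _ h (by omega)) (by ring)

theorem four_steps {m : ℕ} (hm : 1 ≤ m) {ε : ℤ} (hε : ε = 0 ∨ ε = 1) {k : ℕ} (hk : k + 1 ≤ m) :
    (f K (2 * m + 1))^[4] (emb K ((2 * m + 1 : ℕ) - ε - 2 * k, (2 * m + 1 : ℕ))) =
      emb K ((2 * m + 1 : ℕ) - ε - 2 * (k + 1 : ℕ), (2 * m + 1 : ℕ)) := by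
  obtain ⟨h1, h2, h3, h4⟩ := pass (K := K) hm hε (k := k) (by omega)
  have e : (f K (2 * m + 1))^[4] (emb K ((2 * m + 1 : ℕ) - ε - 2 * k, (2 * m + 1 : ℕ))) =
      f K (2 * m + 1) (f K (2 * m + 1) (f K (2 * m + 1) (f K (2 * m + 1)
        (emb K ((2 * m + 1 : ℕ) - ε - 2 * k, (2 * m + 1 : ℕ)))))) := rfl
  rw [e, h1, h2 (by push_cast; omega), h3, h4 (by push_cast; omega)]
  congr 2
  push_cast
  ring

theorem iter_pass {m : ℕ} (hm : 1 ≤ m) {ε : ℤ} (hε : ε = 0 ∨ ε = 1) {k : ℕ} (hk : k ≤ m) :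
    (f K (2 * m + 1))^[4 * k] (emb K ((2 * m + 1 : ℕ) - ε, (2 * m + 1 : ℕ))) =
      emb K ((2 * m + 1 : ℕ) - ε - 2 * k, (2 * m + 1 : ℕ)) := by
  induction k with
  | zero => simp
  | succ k ih =>
    have e : 4 * (k + 1) = 4 + 4 * k := by ring
    rw [e, Function.iterate_add_apply, ih (by omega), four_steps hm hε hk]

theorem long_cycle {m : ℕ} (hm : 1 ≤ m) :
    Function.minimalPeriod (f K (2 * m + 1))
      (((2 * m + 1 : ℕ) : K), ((2 * m + 1 : ℕ) : K)) = 4 * (2 * m + 1) + 2 := by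
  set d := 2 * m + 1 with hd
  set P : K × K := emb K ((d : ℤ), (d : ℤ)) with hP
  have hPe : ((d : K), (d : K)) = P := by
    rw [hP]
    simp [emb]
  rw [hPe]
  have h0 : ∀ k : ℕ, k ≤ m → (f K d)^[4 * k] P = emb K ((d : ℤ) - 2 * k, (d : ℤ)) := by
    intro k hk
    have := iter_pass (K := K) hm (Or.inl rfl : (0 : ℤ) = 0 ∨ (0 : ℤ) = 1) hk
    rw [sub_zero] at this
    exact this
  have hodd : Odd d := ⟨m, rfl⟩
  have hm1 : (F K d).eval ((-1 : ℤ) : K) = (((d : ℤ) - 2 : ℤ) : K) := by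
    rw [F_m1, hodd.neg_one_pow]; push_cast; ring
  have h1 : ∀ k : ℕ, k ≤ m → (f K d)^[4 * k + 1] P = emb K ((d : ℤ), 2 * (k : ℤ)) := by
    intro k hk
    rw [Function.iterate_succ_apply', h0 k hk]
    exact step (F_d _) (by ring)
  have h2 : ∀ k : ℕ, k ≤ m → (f K d)^[4 * k + 2] P = emb K (2 * (k : ℤ), -1) := by
    intro k hk
    rw [Function.iterate_succ_apply', h1 k hk]
    exact step (F_inner _ _ (by omega) (by omega)) (by ring)
  have h3 : ∀ k : ℕ, k ≤ m → (f K d)^[4 * k + 3] P = emb K (-1, (d : ℤ) - 2 - 2 * (k : ℤ)) := by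
    intro k hk
    rw [Function.iterate_succ_apply', h2 k hk]
    exact step hm1 rfl
  have h4 : (f K d)^[4 * m + 5] P = emb K ((d : ℤ) - 1, (d : ℤ)) := by
    rw [Function.iterate_succ_apply', Function.iterate_succ_apply', h3 m le_rfl]
    have e : (d : ℤ) - 2 - 2 * (m : ℤ) = -1 := by rw [hd]; push_cast; ring
    rw [e, step hm1 rfl]
    have e2 : (d : ℤ) - 2 - -1 = (d : ℤ) - 1 := by ring
    rw [e2]
    exact step (F_inner _ _ (by omega) (by omega)) (by ring)
  have h5 : (f K d)^[4 * m] (emb K ((d : ℤ) - 1, (d : ℤ))) = emb K (0, (d : ℤ)) := by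
    have := iter_pass (K := K) hm (Or.inr rfl : (1 : ℤ) = 0 ∨ (1 : ℤ) = 1) (le_refl m)
    rw [← hd] at this
    rw [this]
    congr 2
    rw [hd]
    push_cast
    ring
  have h6 : (f K d)^[4 * d + 2] P = P := by
    have e : 4 * d + 2 = 1 + (4 * m + (4 * m + 5)) := by omega
    rw [e, Function.iterate_add_apply, Function.iterate_add_apply, h4, h5]
    exact step (F_d _) (by ring)
  have hper : Function.IsPeriodicPt (f K d) (4 * d + 2) P := h6
  have hdvd := hper.minimalPeriod_dvd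
  have hpos : 0 < Function.minimalPeriod (f K d) P := hper.minimalPeriod_pos (by omega)
  have hfix : (f K d)^[Function.minimalPeriod (f K d) P] P = P := Function.iterate_minimalPeriod
  set p := Function.minimalPeriod (f K d) P with hp
  by_contra hne
  obtain ⟨c, hc⟩ := hdvd
  have hc2 : 2 ≤ c := by
    rcases c with _ | _ | c
    · omega
    · exfalso
      apply hne
      omega
    · omega
  have hle : p ≤ 2 * d + 1 := by nlinarith
  obtain ⟨k, r, hk, hr, hpr⟩ : ∃ k r : ℕ, k ≤ m ∧ r < 4 ∧ p = 4 * k + r :=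
    ⟨p / 4, p % 4, by omega, by omega, by omega⟩
  have hr' : r = 0 ∨ r = 1 ∨ r = 2 ∨ r = 3 := by omega
  rcases hr' with rfl | rfl | rfl | rfl
  · rw [hpr, add_zero, h0 k hk, hP] at hfix
    have := emb_injective hfix
    simp only [Prod.mk.injEq] at this
    omega
  · rw [hpr, h1 k hk, hP] at hfix
    have := emb_injective hfix
    simp only [Prod.mk.injEq] at this
    omega
  · rw [hpr, h2 k hk, hP] at hfix
    have := emb_injective hfix
    simp only [Prod.mk.injEq] at this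
    omega
  · rw [hpr, h3 k hk, hP] at hfix
    have := emb_injective hfix
    simp only [Prod.mk.injEq] at this
    omega

/-- `f(x, y) = (y, F(y) - 1 - x)` -/
noncomputable def g (K : Type*) [Field K] (d : ℕ) (P : K × K) : K × K :=
  (P.2, (F K d - 1).eval P.2 - P.1)

theorem gstep {d : ℕ} {x y z w : ℤ} (h : (F K d).eval (y : K) = (w : K)) (hz : z = w - 1 - x) :
    g K d (emb K (x, y)) = emb K (y, z) := by
  simp only [g, emb, eval_sub, eval_one, h, hz]
  push_cast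
  rfl

theorem long_cycle_even {d : ℕ} (hd : Even d) (h2 : 2 ≤ d) :
    Function.minimalPeriod (g K d) (emb K ((d : ℤ) - 1, -1)) = 4 * d - 1 := by
  set P : K × K := emb K ((d : ℤ) - 1, -1) with hP
  have hm1 : (F K d).eval ((-1 : ℤ) : K) = ((d : ℤ) : K) := by
    rw [F_m1, hd.neg_one_pow]; push_cast; ring
  have key : ∀ k : ℕ, k + 1 ≤ d → (g K d)^[4 * k] P = emb K ((d : ℤ) - 1 - k, -1) ∧
      (g K d)^[4 * k + 1] P = emb K (-1, (k : ℤ)) ∧
      (g K d)^[4 * k + 2] P = emb K ((k : ℤ), (d : ℤ) - 1) ∧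
      (g K d)^[4 * k + 3] P = emb K ((d : ℤ) - 1, (d : ℤ) - 2 - k) := by
    intro k
    induction k with
    | zero =>
      intro _
      have e0 : (g K d)^[4 * 0] P = emb K ((d : ℤ) - 1 - (0 : ℕ), -1) := by simp [hP]
      have e1 : (g K d)^[4 * 0 + 1] P = emb K (-1, ((0 : ℕ) : ℤ)) := by
        rw [Function.iterate_succ_apply', e0]
        exact gstep hm1 (by push_cast; ring)
      have e2 : (g K d)^[4 * 0 + 2] P = emb K (((0 : ℕ) : ℤ), (d : ℤ) - 1) := by
        rw [Function.iterate_succ_apply', e1]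
        exact gstep (F_inner _ _ (by simp) (by omega)) (by push_cast; ring)
      refine ⟨e0, e1, e2, ?_⟩
      rw [Function.iterate_succ_apply', e2]
      exact gstep (F_inner _ _ (by omega) (by omega)) (by push_cast; ring)
    | succ k ih =>
      intro hk
      obtain ⟨-, -, -, h3⟩ := ih (by omega)
      have e0 : (g K d)^[4 * (k + 1)] P = emb K ((d : ℤ) - 1 - (k + 1 : ℕ), -1) := by
        have e : 4 * (k + 1) = (4 * k + 3) + 1 := by ring
        rw [e, Function.iterate_succ_apply', h3]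
        have e' : (d : ℤ) - 1 - (k + 1 : ℕ) = (d : ℤ) - 2 - k := by push_cast; ring
        rw [e']
        exact gstep (F_inner _ _ (by omega) (by omega)) (by push_cast; ring)
      have e1 : (g K d)^[4 * (k + 1) + 1] P = emb K (-1, ((k + 1 : ℕ) : ℤ)) := by
        rw [Function.iterate_succ_apply', e0]
        exact gstep hm1 (by push_cast; ring)
      have e2 : (g K d)^[4 * (k + 1) + 2] P = emb K (((k + 1 : ℕ) : ℤ), (d : ℤ) - 1) := by
        rw [Function.iterate_succ_apply', e1]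
        exact gstep (F_inner _ _ (by omega) (by omega)) (by push_cast; ring)
      refine ⟨e0, e1, e2, ?_⟩
      rw [Function.iterate_succ_apply', e2]
      exact gstep (F_inner _ _ (by omega) (by omega)) (by push_cast; ring)
  have h6 : (g K d)^[4 * d - 1] P = P := by
    obtain ⟨-, -, -, h3⟩ := key (d - 1) (by omega)
    have e : 4 * d - 1 = 4 * (d - 1) + 3 := by omega
    rw [e, h3, hP]
    congr 2
    omega
  have hper : Function.IsPeriodicPt (g K d) (4 * d - 1) P := h6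
  have hle := hper.minimalPeriod_le (by omega)
  have hpos : 0 < Function.minimalPeriod (g K d) P := hper.minimalPeriod_pos (by omega)
  have hfix : (g K d)^[Function.minimalPeriod (g K d) P] P = P := Function.iterate_minimalPeriod
  set p := Function.minimalPeriod (g K d) P with hp
  by_contra hne
  obtain ⟨k, r, hk, hr, hpr⟩ : ∃ k r : ℕ, k + 1 ≤ d ∧ r < 4 ∧ p = 4 * k + r :=
    ⟨p / 4, p % 4, by omega, by omega, by omega⟩
  obtain ⟨e0, e1, e2, e3⟩ := key k hk
  have hr' : r = 0 ∨ r = 1 ∨ r = 2 ∨ r = 3 := by omega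
  rcases hr' with rfl | rfl | rfl | rfl
  · rw [hpr, add_zero, e0, hP] at hfix
    have := emb_injective hfix
    simp only [Prod.mk.injEq] at this
    omega
  · rw [hpr, e1, hP] at hfix
    have := emb_injective hfix
    simp only [Prod.mk.injEq] at this
    omega
  · rw [hpr, e2, hP] at hfix
    have := emb_injective hfix
    simp only [Prod.mk.injEq] at this
    omega
  · rw [hpr, e3, hP] at hfix
    have := emb_injective hfix
    simp only [Prod.mk.injEq] at this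
    omega

theorem natDegree_sub_one (d : ℕ) (hd : 1 ≤ d) : (F K d - 1).natDegree = d := by
  have h1 : (1 : K[X]) = C 1 := by simp
  rw [h1, natDegree_sub_C, F_natDegree d hd]

end

end Pool.Agent.Helper472.Many
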