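import Pool.Agent.Helper472.HC.Many

set_option autoImplicit false
set_option linter.unusedSectionVars false

namespace Pool.Agent.Helper472.Many2

open Polynomial Finset Pool.Agent.Helper472.Many

/-- the four holes are `a, a + 1, b, b + 1`, with `a = 2k² + 3k`, `b = 2k² + 5k + 2`, `S = a + b + 1` -/
noncomputable def R (a b : ℤ) : Finset ℤ := Icc 0 (a + b + 1) \ {a, a + 1, b, b + 1}

theorem mem_R {a b j : ℤ} : j ∈ R a b ↔ (0 ≤ j ∧ j ≤ a + b + 1) ∧ j ≠ a ∧ j ≠ a + 1 ∧ j ≠ b ∧ j ≠ b + 1 := by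
  simp [R]

noncomputable def Q (a b x : ℤ) : ℤ := ∏ j ∈ R a b, (x - j)

theorem card_R {a b : ℤ} (ha : 1 ≤ a) (hb : a + 3 ≤ b) : ((R a b).card : ℤ) = a + b - 2 := by
  unfold R
  rw [card_sdiff_of_subset]
  · have h1 : ({a, a + 1, b, b + 1} : Finset ℤ).card = 4 := by
      rw [card_insert_of_notMem, card_insert_of_notMem, card_insert_of_notMem, card_singleton]
      all_goals simp
      all_goals omega
    rw [h1, Int.card_Icc]
    omega
  · intro j hj
    simp only [mem_insert, mem_singleton] at hj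
    rw [mem_Icc]
    omega

theorem Q_ne {a b x : ℤ} (h : x ∉ R a b) : Q a b x ≠ 0 := by
  unfold Q
  rw [prod_ne_zero_iff]
  intro j hj h0
  have : x = j := by omega
  exact h (this ▸ hj)

theorem Q_symm {a b : ℤ} (he : Even (R a b).card) (x : ℤ) : Q a b (a + b + 1 - x) = Q a b x := by
  unfold Q
  have h1 : ∏ j ∈ R a b, (a + b + 1 - x - j) = ∏ j ∈ R a b, (-1) * (x - j) := by
    refine prod_nbij' (fun j => a + b + 1 - j) (fun j => a + b + 1 - j) ?_ ?_ ?_ ?_ ?_
    · intro j hj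
      rw [mem_R] at hj ⊢
      omega
    · intro j hj
      rw [mem_R] at hj ⊢
      omega
    · intro j _
      ring
    · intro j _
      ring
    · intro j _
      ring
  rw [h1, prod_mul_distrib, prod_const, he.neg_one_pow, one_mul]

theorem Q_shift {a b : ℤ} (ha : 1 ≤ a) (hb : a + 3 ≤ b) :
    Q a b (a + 1) * ((b - a - 1) * (b + 1)) = Q a b a * ((a + 1) * (b - a + 1)) := by
  have h1 : Q a b (a + 1) = ∏ j ∈ (R a b).image (fun j => j - 1), (a - j) := by
    unfold Q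
    rw [prod_image (by intro x _ y _ h; simpa using h)]
    exact prod_congr rfl fun j _ => by ring
  have mem' : ∀ j, j ∈ (R a b).image (fun j => j - 1) ↔ j + 1 ∈ R a b := by
    intro j
    rw [mem_image]
    constructor
    · rintro ⟨i, hi, rfl⟩
      simpa using hi
    · intro h
      exact ⟨j + 1, h, by ring⟩
  have hU : insert (-1 : ℤ) (insert (a + 1) (insert (b + 1) (R a b))) =
      insert (a - 1) (insert (b - 1) (insert (a + b + 1) ((R a b).image (fun j => j - 1)))) := by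
    ext j
    simp only [mem_insert, mem', mem_R]
    omega
  have hP := congrArg (fun U : Finset ℤ => ∏ j ∈ U, (a - j)) hU
  rw [prod_insert, prod_insert, prod_insert, prod_insert, prod_insert, prod_insert, ← h1] at hP
  · have h2 : ∏ j ∈ R a b, (a - j) = Q a b a := rfl
    rw [h2] at hP
    linear_combination -hP
  all_goals simp only [mem_insert, mem', mem_R]
  all_goals omega

section
variable (k : ℕ)

def A (k : ℕ) : ℤ := 2 * k ^ 2 + 3 * k
def B (k : ℕ) : ℤ := 2 * k ^ 2 + 5 * k + 2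

theorem ha {k : ℕ} (hk : 1 ≤ k) : 1 ≤ A k := by
  unfold A; nlinarith
theorem hb {k : ℕ} (hk : 1 ≤ k) : A k + 3 ≤ B k := by
  have : (1 : ℤ) ≤ k := by exact_mod_cast hk
  unfold A B; linarith

theorem Q1 {k : ℕ} (hk : 1 ≤ k) : Q (A k) (B k) (A k + 1) = Q (A k) (B k) (A k) := by
  have h := Q_shift (ha hk) (hb hk)
  have hk0 : (1 : ℤ) ≤ k := by exact_mod_cast hk
  have e1 : (B k - A k - 1) * (B k + 1) = (2 * (k : ℤ) + 1) * ((k + 1) * (2 * k + 3)) := by
    unfold A B; ring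
  have e2 : (A k + 1) * (B k - A k + 1) = (2 * (k : ℤ) + 1) * ((k + 1) * (2 * k + 3)) := by
    unfold A B; ring
  rw [e1, e2] at h
  have hne : (2 * (k : ℤ) + 1) * ((k + 1) * (2 * k + 3)) ≠ 0 := by positivity
  exact mul_right_cancel₀ hne h

theorem card_eq {k d : ℕ} (hk : 1 ≤ k) (hd : d = 4 * k * (k + 2)) : (R (A k) (B k)).card = d := by
  have h := card_R (ha hk) (hb hk)
  have : ((R (A k) (B k)).card : ℤ) = (d : ℤ) := by
    rw [h, hd]; unfold A B; push_cast; ring
  exact_mod_cast this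

theorem even_card {k : ℕ} (hk : 1 ≤ k) : Even (R (A k) (B k)).card := by
  rw [card_eq hk rfl]
  exact ⟨2 * k * (k + 2), by ring⟩

theorem Q2 {k : ℕ} (hk : 1 ≤ k) : Q (A k) (B k) (B k + 1) = Q (A k) (B k) (A k) := by
  rw [← Q_symm (even_card hk) (A k)]
  congr 1; ring

theorem Q3 {k : ℕ} (hk : 1 ≤ k) : Q (A k) (B k) (B k) = Q (A k) (B k) (A k) := by
  rw [← Q1 hk, ← Q_symm (even_card hk) (A k + 1)]
  congr 1; ring

end

section
variable {K : Type*} [Field K] [CharZero K]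

/-- `F = S - P / P(a)` with `P = ∏ (X - j)` over `j ∈ [0, S]` except the four holes -/
noncomputable def F2 (K : Type*) [Field K] (k : ℕ) : K[X] :=
  C ((A k + B k + 1 : ℤ) : K) +
    C (-((Q (A k) (B k) (A k) : ℤ) : K)⁻¹) * ∏ j ∈ R (A k) (B k), (X - C (j : K))

theorem F2_eval (k : ℕ) (y : ℤ) : (F2 K k).eval (y : K) = ((A k + B k + 1 : ℤ) : K) -
    ((Q (A k) (B k) (A k) : ℤ) : K)⁻¹ * ((Q (A k) (B k) y : ℤ) : K) := by
  unfold F2
  rw [eval_add, eval_C, eval_mul, eval_C, eval_prod]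
  simp only [eval_sub, eval_X, eval_C]
  have : ((Q (A k) (B k) y : ℤ) : K) = ∏ j ∈ R (A k) (B k), ((y : K) - (j : K)) := by
    unfold Q; push_cast; rfl
  rw [this]; ring

theorem A_notMem (k : ℕ) : A k ∉ R (A k) (B k) := by rw [mem_R]; omega

theorem Q0 (k : ℕ) : ((Q (A k) (B k) (A k) : ℤ) : K) ≠ 0 := by
  exact_mod_cast Q_ne (A_notMem k)

theorem F2_in {k : ℕ} {y : ℤ} (hy : y ∈ R (A k) (B k)) :
    (F2 K k).eval (y : K) = ((A k + B k + 1 : ℤ) : K) := by
  rw [F2_eval]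
  have : Q (A k) (B k) y = 0 := prod_eq_zero hy (sub_self y)
  rw [this]; simp

theorem F2_hole {k : ℕ} (hk : 1 ≤ k) {y : ℤ} (hy : y = A k ∨ y = A k + 1 ∨ y = B k ∨ y = B k + 1) :
    (F2 K k).eval (y : K) = ((A k + B k : ℤ) : K) := by
  have h : Q (A k) (B k) y = Q (A k) (B k) (A k) := by
    rcases hy with rfl | rfl | rfl | rfl
    · rfl
    · exact Q1 hk
    · exact Q3 hk
    · exact Q2 hk
  rw [F2_eval, h, inv_mul_cancel₀ (Q0 k)]
  push_cast; ring

theorem F2_natDegree {k d : ℕ} (hk : 1 ≤ k) (hd : d = 4 * k * (k + 2)) :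
    (F2 K k).natDegree = d := by
  unfold F2
  have h1 : (-((Q (A k) (B k) (A k) : ℤ) : K)⁻¹) ≠ 0 := neg_ne_zero.2 (inv_ne_zero (Q0 k))
  have h2 : (C (-((Q (A k) (B k) (A k) : ℤ) : K)⁻¹) *
      ∏ j ∈ R (A k) (B k), (X - C (j : K))).natDegree = d := by
    rw [natDegree_C_mul h1, natDegree_prod_of_monic _ _ fun i _ => monic_X_sub_C _,
      sum_congr rfl fun i _ => natDegree_X_sub_C _]
    simp [card_eq hk hd]
  have hd0 : 0 < d := by rw [hd]; positivity
  rw [natDegree_add_eq_right_of_natDegree_lt, h2]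
  rw [h2, natDegree_C]
  exact hd0

noncomputable def H (a b : ℤ) : Finset ℤ := {a, a + 1, b, b + 1}

noncomputable def E2 (a b : ℤ) : Finset (ℤ × ℤ) :=
  (Icc 0 (a + b + 1) ×ˢ Icc 0 (a + b + 1)) \ ((H a b ×ˢ {a + b + 1}) ∪ ({a + b + 1} ×ˢ H a b))

theorem mem_E2 {a b x y : ℤ} : (x, y) ∈ E2 a b ↔
    ((0 ≤ x ∧ x ≤ a + b + 1) ∧ (0 ≤ y ∧ y ≤ a + b + 1)) ∧
    ¬ ((x = a ∨ x = a + 1 ∨ x = b ∨ x = b + 1) ∧ y = a + b + 1) ∧
    ¬ (x = a + b + 1 ∧ (y = a ∨ y = a + 1 ∨ y = b ∨ y = b + 1)) := by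
  simp only [E2, H, mem_sdiff, mem_product, mem_Icc, mem_union, mem_insert, mem_singleton, not_or]

theorem card_E2 {a b : ℤ} (ha : 1 ≤ a) (hb : a + 3 ≤ b) :
    ((E2 a b).card : ℤ) = (a + b + 2) ^ 2 - 8 := by
  have hH : (H a b).card = 4 := by
    unfold H
    rw [card_insert_of_notMem, card_insert_of_notMem, card_insert_of_notMem, card_singleton]
    all_goals simp
    all_goals omega
  unfold E2
  rw [card_sdiff_of_subset]
  · rw [card_union_of_disjoint, card_product, card_product, card_product, hH, card_singleton,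
      Int.card_Icc]
    · obtain ⟨n, hn⟩ : ∃ n : ℕ, a + b + 1 + 1 - 0 = n := ⟨(a + b + 2).toNat, by omega⟩
      rw [hn]
      simp only [Int.toNat_natCast]
      have h8 : 4 * 1 + 1 * 4 ≤ n * n := by
        have : 7 ≤ n := by omega
        nlinarith
      rw [Nat.cast_sub h8]
      have : a + b + 2 = n := by omega
      rw [this]
      push_cast; ring
    · rw [disjoint_left]
      rintro ⟨x, y⟩ h1 h2
      simp only [H, mem_product, mem_insert, mem_singleton] at h1 h2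
      omega
  · rintro ⟨x, y⟩ h
    simp only [H, mem_union, mem_product, mem_insert, mem_singleton] at h
    rw [mem_product, mem_Icc, mem_Icc]
    simp only
    omega

/-- the map -/
noncomputable def f2 (K : Type*) [Field K] (k : ℕ) (P : K × K) : K × K :=
  (P.2, (F2 K k).eval P.2 - P.1)

theorem f2_injective (k : ℕ) : Function.Injective (f2 K k) := by
  rintro ⟨x, y⟩ ⟨x', y'⟩ h
  simp only [f2, Prod.mk.injEq] at h
  obtain ⟨rfl, h⟩ := h
  have : x = x' := by linear_combination -h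
  rw [this]

theorem maps2 {k : ℕ} (hk : 1 ≤ k) {P : ℤ × ℤ} (hP : P ∈ E2 (A k) (B k)) :
    ∃ Q ∈ E2 (A k) (B k), f2 K k (emb K P) = emb K Q := by
  obtain ⟨x, y⟩ := P
  have ha := ha hk
  have hb := hb hk
  rw [mem_E2] at hP
  by_cases hy : y = A k ∨ y = A k + 1 ∨ y = B k ∨ y = B k + 1
  · refine ⟨(y, A k + B k - x), ?_, ?_⟩
    · rw [mem_E2]
      omega
    · simp only [f2, emb, Prod.mk.injEq, true_and]
      rw [F2_hole hk hy]
      push_cast; ring
  · refine ⟨(y, A k + B k + 1 - x), ?_, ?_⟩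
    · rw [mem_E2]
      omega
    · simp only [f2, emb, Prod.mk.injEq, true_and]
      rw [F2_in (by rw [mem_R]; omega)]
      push_cast; ring

end

end Pool.Agent.Helper472.Many2
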