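import Pool.Agent.Helper472.HC.Attain
import Pool.Agent.TH737.HEN.Glob

/-!
Hénon maps over `ℚ` with potentially good reduction everywhere: the cycles become integral for a map
with integral coefficients after a rational affine change of the coordinate.
-/

set_option autoImplicit false

namespace Pool.Agent.Helper472.HC

open Polynomial NumberField Pool.Agent.TH737.HEN

universe u

theorem natCast_le_one {L : Type*} [Field L] (w : AbsoluteValue L ℝ) (hw : IsNonarchimedean w)
    (n : ℕ) : w (n : L) ≤ 1 := by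
  induction n with
  | zero => simp
  | succ n ih =>
    push_cast
    exact (hw _ _).trans (max_le ih (by simp))

theorem coeff_comp_linear {L : Type*} [Field L] (w : AbsoluteValue L ℝ) (hw : IsNonarchimedean w)
    (g : L[X]) (hg : ∀ j, w (g.coeff j) ≤ 1) (ρ β : L) (hρ : w ρ ≤ 1) (hβ : w β ≤ 1) (j : ℕ)
    (hj : 1 ≤ j) : w ((g.comp (C ρ * X + C β)).coeff j) ≤ w ρ := by
  have e : g.comp (C ρ * X + C β) = (taylor β g).comp (C ρ * X) := by
    rw [taylor_apply, comp_assoc]
    simp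
  rw [e, comp_C_mul_X_coeff, map_mul, map_pow]
  have h1 : w ((taylor β g).coeff j) ≤ 1 := by
    rw [taylor_coeff, eval_eq_sum_range]
    refine sum_le_of_nonarch w hw _ _ 1 zero_le_one fun i _ => ?_
    rw [hasseDeriv_coeff, map_mul, map_mul, map_pow]
    have h2 := natCast_le_one w hw ((i + j).choose j)
    have h3 := hg (i + j)
    have h4 : w β ^ i ≤ 1 := pow_le_one₀ (w.nonneg _) hβ
    exact mul_le_one₀ (mul_le_one₀ h2 (w.nonneg _) h3) (by positivity) h4
  calc w ((taylor β g).coeff j) * w ρ ^ j ≤ 1 * w ρ ^ 1 :=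
        mul_le_mul h1 (pow_le_pow_of_le_one (w.nonneg _) hρ hj) (by positivity) zero_le_one
    _ = w ρ := by rw [one_mul, pow_one]

/-- the map in the coordinate `x = x₀ + r x'` -/
noncomputable def scaled {K : Type*} [Field K] (F : K[X]) (δ x₀ r : K) : K[X] :=
  C r⁻¹ * (F.comp (C r * X + C x₀) - C ((1 + δ) * x₀))

theorem local_int {K : Type u} [Field K] [NumberField K] (v : FinitePlace K) (F : K[X]) (δ : K)
    (hd : 2 ≤ F.natDegree) (h : PotInt v F δ) (S : Finset K) (hS : Closed F δ S) (x₀ r : K)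
    (hx₀ : x₀ ∈ S) (hr : r ≠ 0)
    (hspan : r ∈ Submodule.span ℤ ((fun s => s - x₀) '' (S : Set K))) (j : ℕ) (hj : 1 ≤ j) :
    v ((scaled F δ x₀ r).coeff j) ≤ 1 := by
  classical
  obtain ⟨hδ, w, hw, g, l, b, hl, hg, hlead, hconj⟩ := h
  have hna := ext_nonarch v w hw
  set φ := algebraMap K (AlgebraicClosure K) with hφ
  have hmapdeg : (F.map φ).natDegree = F.natDegree := natDegree_map_eq_of_injective φ.injective F
  have hlindeg : (C l * X + C b : (AlgebraicClosure K)[X]).natDegree = 1 :=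
    natDegree_linear hl
  have hcompdeg : ((F.map φ).comp (C l * X + C b)).natDegree = F.natDegree := by
    rw [natDegree_comp, hmapdeg, hlindeg, mul_one]
  have hgdeg : g.natDegree = F.natDegree := by
    have := congrArg natDegree hconj
    rw [natDegree_C_mul hl, natDegree_sub_C, hcompdeg] at this
    exact this
  set S' : Finset (AlgebraicClosure K) := S.image (fun x => (φ x - b) / l) with hS'
  have hclosed : Closed g (φ δ) S' := by
    intro x hx
    obtain ⟨y, hy, rfl⟩ := Finset.mem_image.1 hx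
    obtain ⟨p, hp, q, hq, hpq⟩ := hS y hy
    refine ⟨_, Finset.mem_image_of_mem _ hp, _, Finset.mem_image_of_mem _ hq, ?_⟩
    have h1 := congrArg (fun P => eval ((φ y - b) / l) P) hconj
    simp only [eval_mul, eval_C, eval_sub, eval_comp, eval_add, eval_X] at h1
    have h2 : l * ((φ y - b) / l) + b = φ y := by
      field_simp
      ring
    rw [h2, eval_map_apply, ← hpq, map_add, map_mul] at h1
    have h3 : eval ((φ y - b) / l) g = (φ p + φ δ * φ q - (1 + φ δ) * b) / l := by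
      rw [eq_div_iff hl, mul_comm]
      exact h1
    rw [h3]
    field_simp
    ring
  have hint := closed_integral w hna g (φ δ) (by rw [hgdeg]; exact hd) hg hlead
    (by rw [hw]; exact hδ) S' hclosed
  have hl0 : 0 < w l := w.pos hl
  have hdiff : ∀ s ∈ S, w (φ (s - x₀)) ≤ w l := by
    intro s hs
    have h1 : w ((φ s - b) / l - (φ x₀ - b) / l) ≤ 1 := by
      rw [sub_eq_add_neg]
      refine (hna _ _).trans (max_le (hint _ (Finset.mem_image_of_mem _ hs)) ?_)
      rw [w.map_neg]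
      exact hint _ (Finset.mem_image_of_mem _ hx₀)
    have h2 : (φ s - b) / l - (φ x₀ - b) / l = φ (s - x₀) / l := by
      rw [map_sub]; ring
    rw [h2, map_div₀] at h1
    rwa [div_le_one hl0] at h1
  have hwr : w (φ r) ≤ w l := by
    refine Submodule.span_induction (p := fun m _ => w (φ m) ≤ w l) ?_ ?_ ?_ ?_ hspan
    · rintro m ⟨s, hs, rfl⟩
      exact hdiff s hs
    · rw [map_zero, map_zero]
      exact hl0.le
    · intro a b _ _ ha hb
      rw [map_add]
      exact (hna _ _).trans (max_le ha hb)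
    · intro k m _ hm
      rw [zsmul_eq_mul, map_mul, map_mul, map_intCast]
      have h1 : w (k : AlgebraicClosure K) ≤ 1 := by
        obtain ⟨n, rfl | rfl⟩ := Int.eq_nat_or_neg k
        · rw [Int.cast_natCast]
          exact natCast_le_one w hna n
        · rw [Int.cast_neg, w.map_neg, Int.cast_natCast]
          exact natCast_le_one w hna n
      calc w (k : AlgebraicClosure K) * w (φ m) ≤ 1 * w (φ m) :=
            mul_le_mul_of_nonneg_right h1 (w.nonneg _)
        _ = w (φ m) := one_mul _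
        _ ≤ w l := hm
  have hφr : φ r ≠ 0 := by
    rw [Ne, map_eq_zero]
    exact hr
  set ρ := φ r / l with hρ
  set β := (φ x₀ - b) / l with hβ
  have hwρ : w ρ ≤ 1 := by
    rw [hρ, map_div₀, div_le_one hl0]
    exact hwr
  have hwβ : w β ≤ 1 := hint _ (Finset.mem_image_of_mem _ hx₀)
  have hlin : (C (φ r) * X + C (φ x₀) : (AlgebraicClosure K)[X]) =
      (C l * X + C b).comp (C ρ * X + C β) := by
    simp only [add_comp, mul_comp, C_comp, X_comp]
    have e1 : l * ρ = φ r := by rw [hρ]; field_simp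
    have e2 : l * β + b = φ x₀ := by
      rw [hβ]
      field_simp
      ring
    calc (C (φ r) * X + C (φ x₀) : (AlgebraicClosure K)[X]) = C (l * ρ) * X + C (l * β + b) := by
          rw [e1, e2]
      _ = _ := by
          simp only [map_mul, map_add]
          ring
  have hF : (F.map φ).comp (C l * X + C b) = C l * g + C ((1 + φ δ) * b) := by
    rw [hconj]
    ring
  have hmap : ((scaled F δ x₀ r).map φ) = C (φ r)⁻¹ *
      (C l * g.comp (C ρ * X + C β) + C ((1 + φ δ) * b) - C ((1 + φ δ) * φ x₀)) := by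
    unfold scaled
    rw [Polynomial.map_mul, map_C, Polynomial.map_sub, map_C, map_comp, Polynomial.map_add,
      Polynomial.map_mul, map_C, map_X, map_C, hlin, ← comp_assoc, hF]
    simp
  have hcoef : φ ((scaled F δ x₀ r).coeff j) =
      (φ r)⁻¹ * (l * (g.comp (C ρ * X + C β)).coeff j) := by
    have h1 := congrArg (fun P => coeff P j) hmap
    simp only [coeff_map, coeff_C_mul, coeff_sub, coeff_add, coeff_C, if_neg (by omega : ¬ j = 0),
      add_zero, sub_zero] at h1
    exact h1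
  rw [← hw, hcoef, map_mul, map_mul, map_inv₀]
  have h5 := coeff_comp_linear w hna g hg ρ β hwρ hwβ j hj
  have h6 : 0 < w (φ r) := w.pos hφr
  calc (w (φ r))⁻¹ * (w l * w ((g.comp (C ρ * X + C β)).coeff j)) ≤
        (w (φ r))⁻¹ * (w l * w ρ) := by gcongr
    _ = 1 := by
        rw [hρ, map_div₀]
        field_simp

theorem int_of_places (q : ℚ) (h : ∀ v : FinitePlace ℚ, v q ≤ 1) : ∃ z : ℤ, q = z := by
  have h1 : IsIntegral ℤ q := by
    have h1 : ∀ v : IsDedekindDomain.HeightOneSpectrum (𝓞 ℚ), v.valuation ℚ q ≤ 1 := by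
      intro v
      have h2 := h (FinitePlace.mk v)
      rw [FinitePlace.mk_apply, FinitePlace.norm_embedding,
        NumberField.HeightOneSpectrum.adicAbv_def] at h2
      have h3 : WithZeroMulInt.toNNReal (NumberField.HeightOneSpectrum.absNorm_ne_zero v)
          (v.valuation ℚ q) ≤ 1 := by
        exact_mod_cast h2
      rwa [WithZeroMulInt.toNNReal_le_one_iff
        (NumberField.HeightOneSpectrum.one_lt_absNorm_nnreal v)] at h3
    obtain ⟨y, hy⟩ := (IsDedekindDomain.HeightOneSpectrum.mem_integers_of_valuation_le_one ℚ q) h1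
    rw [← hy]
    exact y.2
  obtain ⟨z, hz⟩ := IsIntegrallyClosed.isIntegral_iff.1 h1
  exact ⟨z, by rw [← hz]; simp⟩

/-- a nonzero generator of the `ℤ`-span of finitely many rational numbers -/
theorem exists_generator (T : Finset ℚ) (hT : ∃ t ∈ T, t ≠ 0) :
    ∃ r : ℚ, r ≠ 0 ∧ r ∈ Submodule.span ℤ (T : Set ℚ) ∧ ∀ t ∈ T, ∃ z : ℤ, t = r * z := by
  set M := Submodule.span ℤ (T : Set ℚ) with hM
  set N : ℕ := ∏ t ∈ T, t.den with hN
  have hN0 : (N : ℚ) ≠ 0 := by
    rw [hN]
    push_cast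
    exact Finset.prod_ne_zero_iff.2 fun t _ => by exact_mod_cast t.den_ne_zero
  have hint : ∀ m ∈ M, ∃ z : ℤ, (N : ℚ) * m = z := by
    intro m hm
    refine Submodule.span_induction (p := fun m _ => ∃ z : ℤ, (N : ℚ) * m = z) ?_ ?_ ?_ ?_ hm
    · intro t ht
      have h1 : t.den ∣ N := Finset.dvd_prod_of_mem _ ht
      obtain ⟨k, hk⟩ := h1
      refine ⟨k * t.num, ?_⟩
      rw [hk]
      push_cast
      have h2 := Rat.mul_den_eq_num t
      rw [← h2]
      ring
    · exact ⟨0, by simp⟩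
    · rintro a b _ _ ⟨z, hz⟩ ⟨z', hz'⟩
      exact ⟨z + z', by rw [mul_add, hz, hz']; push_cast; ring⟩
    · rintro k m _ ⟨z, hz⟩
      exact ⟨k * z, by rw [zsmul_eq_mul]; push_cast; rw [← hz]; ring⟩
  let ψ : ℤ →ₗ[ℤ] ℚ := LinearMap.toSpanSingleton ℤ ℚ (N : ℚ)⁻¹
  have hψ : ∀ z : ℤ, ψ z = z * (N : ℚ)⁻¹ := fun z => by
    show z • (N : ℚ)⁻¹ = _
    rw [zsmul_eq_mul]
  obtain ⟨g, hg⟩ := (IsPrincipalIdealRing.principal (M.comap ψ : Ideal ℤ)).principal
  have hgM : (g : ℚ) * (N : ℚ)⁻¹ ∈ M := by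
    have h1 : g ∈ (M.comap ψ : Ideal ℤ) := by
      rw [hg]
      exact Submodule.mem_span_singleton_self g
    have h2 : ψ g ∈ M := h1
    rwa [hψ] at h2
  have hall : ∀ t ∈ T, ∃ z : ℤ, t = (g : ℚ) * (N : ℚ)⁻¹ * z := by
    intro t ht
    have htM : t ∈ M := Submodule.subset_span ht
    obtain ⟨z, hz⟩ := hint t htM
    have ht' : t = z * (N : ℚ)⁻¹ := by
      rw [← hz]
      field_simp
    have h1 : z ∈ (M.comap ψ : Ideal ℤ) := by
      show ψ z ∈ M
      rw [hψ, ← ht']
      exact htM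
    rw [hg] at h1
    obtain ⟨k, hk⟩ := Submodule.mem_span_singleton.1 h1
    refine ⟨k, ?_⟩
    rw [ht', ← hk, smul_eq_mul]
    push_cast
    ring
  refine ⟨(g : ℚ) * (N : ℚ)⁻¹, ?_, hgM, hall⟩
  intro h0
  obtain ⟨t, ht, hne⟩ := hT
  obtain ⟨z, hz⟩ := hall t ht
  rw [h0, zero_mul] at hz
  exact hne hz

/-- a nonconstant rational cycle is integral, for a map with integral coefficients, in a suitable
rational affine coordinate -/
theorem exists_model (F : ℚ[X]) (δ : ℤ) (hd : 2 ≤ F.natDegree)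
    (h : ∀ v : FinitePlace ℚ, PotInt v F (δ : ℚ)) (x : ℤ → ℚ) (hfin : (Set.range x).Finite)
    (hrec : ∀ n, x (n + 1) + δ * x (n - 1) = F.eval (x n)) (hne : ∃ n, x n ≠ x 0) :
    ∃ (r : ℚ) (G : ℤ[X]) (y : ℤ → ℤ), r ≠ 0 ∧
      G.map (Int.castRingHom ℚ) = scaled F (δ : ℚ) (x 0) r ∧ (∀ n, x n = x 0 + r * y n) ∧
      IsOrbit G δ y := by
  classical
  set S : Finset ℚ := hfin.toFinset with hS
  have hmem : ∀ n, x n ∈ S := fun n => by rw [hS, Set.Finite.mem_toFinset]; exact ⟨n, rfl⟩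
  have hclosed : Closed F (δ : ℚ) S := by
    intro s hs
    rw [hS, Set.Finite.mem_toFinset] at hs
    obtain ⟨n, rfl⟩ := hs
    exact ⟨x (n + 1), hmem _, x (n - 1), hmem _, hrec n⟩
  obtain ⟨r, hr0, hrspan, hr⟩ := exists_generator (S.image fun s => s - x 0) (by
    obtain ⟨n, hn⟩ := hne
    exact ⟨x n - x 0, Finset.mem_image_of_mem _ (hmem n), sub_ne_zero.2 hn⟩)
  rw [Finset.coe_image] at hrspan
  have hy : ∀ n, ∃ z : ℤ, x n - x 0 = r * z := fun n =>
    hr _ (Finset.mem_image_of_mem _ (hmem n))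
  choose y hy using hy
  have hval : ∀ n, (scaled F (δ : ℚ) (x 0) r).eval (y n : ℚ) = ((y (n + 1) + δ * y (n - 1) : ℤ) : ℚ) := by
    intro n
    have h1 : r * (y n : ℚ) + x 0 = x n := by rw [← hy n]; ring
    unfold scaled
    rw [eval_mul, eval_C, eval_sub, eval_comp, eval_add, eval_mul, eval_C, eval_X, eval_C, eval_C,
      h1, ← hrec n]
    have h2 := hy (n + 1)
    have h3 := hy (n - 1)
    push_cast
    have e : x (n + 1) + δ * x (n - 1) - (1 + (δ : ℚ)) * x 0 =
        r * ((y (n + 1) : ℚ) + δ * y (n - 1)) := by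
      linear_combination h2 + (δ : ℚ) * h3
    rw [e, inv_mul_cancel_left₀ hr0]
  have hy0 : y 0 = 0 := by
    have h1 := hy 0
    rw [sub_self] at h1
    have h2 : (y 0 : ℚ) = 0 := by
      rcases mul_eq_zero.1 h1.symm with h3 | h3
      · exact absurd h3 hr0
      · exact h3
    exact_mod_cast h2
  have hcoef : ∀ j, ∃ z : ℤ, (scaled F (δ : ℚ) (x 0) r).coeff j = z := by
    intro j
    rcases Nat.eq_zero_or_pos j with rfl | hj
    · have h1 := hval 0
      rw [hy0, Int.cast_zero] at h1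
      rw [coeff_zero_eq_eval_zero, h1]
      exact ⟨_, rfl⟩
    · exact int_of_places _ fun v => local_int v F δ hd (h v) S hclosed (x 0) r (hmem 0) hr0
        hrspan j hj
  obtain ⟨G, hG⟩ : ∃ G : ℤ[X], G.map (Int.castRingHom ℚ) = scaled F (δ : ℚ) (x 0) r := by
    have h1 : scaled F (δ : ℚ) (x 0) r ∈ Polynomial.lifts (Int.castRingHom ℚ) := by
      rw [Polynomial.lifts_iff_coeff_lifts]
      intro j
      obtain ⟨z, hz⟩ := hcoef j
      exact ⟨z, by rw [hz]; rfl⟩
    exact (Polynomial.mem_lifts _).1 h1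
  refine ⟨r, G, y, hr0, hG, fun n => by rw [← hy n]; ring, fun n => ?_⟩
  have h1 := hval n
  rw [← hG, eval_map] at h1
  have h2 : eval₂ (Int.castRingHom ℚ) (y n : ℚ) G = ((G.eval (y n) : ℤ) : ℚ) := by
    simp
  rw [h2] at h1
  exact_mod_cast h1.symm

/-- every rational cycle of a map with potentially good reduction is the affine image of one of the
integral cycles of the list -/
theorem pot_cycle (F : ℚ[X]) (δ : ℤ) (hd : 2 ≤ F.natDegree)
    (h : ∀ v : FinitePlace ℚ, PotInt v F (δ : ℚ)) {f : ℚ × ℚ → ℚ × ℚ}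
    (hf : ∀ P, f P = (P.2, F.eval P.2 - δ * P.1)) {P : ℚ × ℚ} {N : ℕ} (hN : 0 < N)
    (hP : f^[N] P = P) : ∃ (a r : ℚ) (y : ℤ → ℤ), r ≠ 0 ∧ (δ = 1 → Cyc1 y) ∧ (δ = -1 → Cyc2 y) ∧
      ∀ k : ℕ, f^[k] P = (a + r * y k, a + r * y (k + 1)) := by
  obtain ⟨Q, hQ, hQk, hQm⟩ := seq_of_periodic f P hN hP
  have h1 : ∀ n, (Q (n + 1)).1 = (Q n).2 := fun n => by rw [← hQ n, hf]
  have h2 : ∀ n, (Q (n + 1)).2 = F.eval (Q n).2 - δ * (Q n).1 := fun n => by rw [← hQ n, hf]
  have hrec : ∀ n : ℤ, (Q (n + 1)).1 + δ * (Q (n - 1)).1 = F.eval (Q n).1 := by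
    intro n
    have h3 := h2 (n - 1)
    rw [sub_add_cancel] at h3
    have h4 := h1 (n - 1)
    rw [sub_add_cancel] at h4
    rw [h1 n, h3, h4]
    ring
  have hfin : (Set.range fun n => (Q n).1).Finite := by
    refine ((Finset.range N).finite_toSet.image (fun k : ℕ => (Q k).1)).subset ?_
    rintro _ ⟨n, rfl⟩
    obtain ⟨k, hk, hn⟩ := hQm n
    exact ⟨k, Finset.mem_coe.2 (Finset.mem_range.2 hk), by simp only [hn]⟩
  by_cases hne : ∃ n, (Q n).1 ≠ (Q 0).1
  · obtain ⟨r, G, y, hr, hG, hy, ho⟩ := exists_model F δ hd h (fun n => (Q n).1) hfin hrec hne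
    have hb : ∃ B, ∀ n, |y n| ≤ B := by
      have hfy : (Set.range y).Finite := by
        have hsub : Set.range y ⊆ (fun z : ℤ => (Q 0).1 + r * z) ⁻¹'
            Set.range (fun n => (Q n).1) := by
          rintro z ⟨n, rfl⟩
          exact ⟨n, hy n⟩
        refine (hfin.preimage ?_).subset hsub
        intro a _ b _ hab
        have h1 : r * (a : ℚ) = r * b := by simpa using hab
        exact_mod_cast mul_left_cancel₀ hr h1
      obtain ⟨B, hB⟩ := (hfy.image (fun z : ℤ => |z|)).bddAbove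
      exact ⟨B, fun n => hB ⟨y n, ⟨n, rfl⟩, rfl⟩⟩
    refine ⟨(Q 0).1, r, y, hr, ?_, ?_, ?_⟩
    · rintro rfl
      exact cyc1_of hb ho
    · rintro rfl
      exact classify_neg hb ho
    · intro k
      rw [← hQk, ← hy, ← hy]
      simp only [h1]
  · push Not at hne
    refine ⟨(Q 0).1, 1, fun _ => 0, one_ne_zero, fun _ => Or.inl fun _ => rfl,
      fun _ => Or.inl fun _ => rfl, fun k => ?_⟩
    rw [← hQk]
    have h3 := hne k
    have h4 := hne (k + 1)
    rw [h1] at h4
    ext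
    · simp [h3]
    · simp [h4]

theorem dvd_of_cycle {f : ℚ × ℚ → ℚ × ℚ} {P : ℚ × ℚ} {a r : ℚ} {y : ℤ → ℤ}
    (hk : ∀ k : ℕ, f^[k] P = (a + r * y k, a + r * y (k + 1))) {m : ℕ}
    (hm : ∀ n, y (n + m) = y n) : Function.minimalPeriod f P ∣ m := by
  apply Function.IsPeriodicPt.minimalPeriod_dvd
  show f^[m] P = P
  have h0 := hk 0
  rw [Function.iterate_zero, id] at h0
  rw [hk m, h0]
  have h1 := hm 0
  have h2 := hm 1
  push_cast
  rw [zero_add] at h1
  rw [h1, add_comm (m : ℤ) 1, h2]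

theorem unit_of_places (q : ℚ) (hq0 : q ≠ 0) (h : ∀ v : FinitePlace ℚ, v q = 1) :
    q = 1 ∨ q = -1 := by
  obtain ⟨z, hz⟩ := int_of_places q fun v => (h v).le
  obtain ⟨z', hz'⟩ := int_of_places q⁻¹ fun v => by rw [map_inv₀, h v, inv_one]
  have h1 : z * z' = 1 := by
    have : (z : ℚ) * z' = 1 := by rw [← hz, ← hz', mul_inv_cancel₀ hq0]
    exact_mod_cast this
  rcases Int.eq_one_or_neg_one_of_mul_eq_one h1 with h2 | h2
  · left; rw [hz, h2]; simp
  · right; rw [hz, h2]; simp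

end Pool.Agent.Helper472.HC
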