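import Pool.Agent.Helper472.HC.Conv

/-!
Rational periodic points of Hénon maps with integral coefficients, leading coefficient `±1` and
Jacobian determinant `±1`: they are integral, and their periods.
-/

set_option autoImplicit false

namespace Pool.Agent.Helper472.HC

open Polynomial

theorem padic_big (p : ℕ) [Fact p.Prime] {F : ℤ[X]} (hd : 2 ≤ F.natDegree)
    (hlc : F.leadingCoeff = 1 ∨ F.leadingCoeff = -1) {q : ℚ} (hq : 1 < padicNorm p q) :
    padicNorm p q < padicNorm p (aeval q F) := by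
  set d := F.natDegree with hdd
  have hpow : ∀ n : ℕ, padicNorm p (q ^ n) = padicNorm p q ^ n := fun n =>
    IsAbsoluteValue.abv_pow (padicNorm p) q n
  have hsum : aeval q F = (∑ i ∈ Finset.range d, (F.coeff i : ℚ) * q ^ i) +
      (F.coeff d : ℚ) * q ^ d := by
    rw [aeval_eq_sum_range, Finset.sum_range_succ]
    simp [hdd]
  have h1 : padicNorm p (∑ i ∈ Finset.range d, (F.coeff i : ℚ) * q ^ i) ≤
      padicNorm p q ^ (d - 1) := by
    refine padicNorm.sum_le' (fun i hi => ?_) (by positivity)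
    rw [Finset.mem_range] at hi
    rw [padicNorm.mul, hpow]
    calc padicNorm p (F.coeff i : ℚ) * padicNorm p q ^ i ≤ 1 * padicNorm p q ^ i :=
          mul_le_mul_of_nonneg_right (padicNorm.of_int _) (by positivity)
      _ = padicNorm p q ^ i := one_mul _
      _ ≤ padicNorm p q ^ (d - 1) := pow_le_pow_right₀ hq.le (by omega)
  have h2 : padicNorm p ((F.coeff d : ℚ) * q ^ d) = padicNorm p q ^ d := by
    rw [padicNorm.mul, hpow]
    have h3 : F.coeff d = 1 ∨ F.coeff d = -1 := hlc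
    rcases h3 with h3 | h3 <;> rw [h3] <;> simp
  have h3 : padicNorm p q ^ (d - 1) < padicNorm p q ^ d :=
    pow_lt_pow_right₀ hq (by omega)
  have h4 : padicNorm p (aeval q F) = padicNorm p q ^ d := by
    rw [hsum, padicNorm.add_eq_max_of_ne (by rw [h2]; exact (lt_of_le_of_lt h1 h3).ne), h2]
    exact max_eq_right (lt_of_le_of_lt h1 h3).le
  rw [h4]
  calc padicNorm p q = padicNorm p q ^ 1 := (pow_one _).symm
    _ < padicNorm p q ^ d := pow_lt_pow_right₀ hq (by omega)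

theorem int_of_padic {q : ℚ} (h : ∀ p : ℕ, ∀ _ : Fact p.Prime, padicNorm p q ≤ 1) :
    ∃ z : ℤ, q = z := by
  by_contra hcon
  have hden : q.den ≠ 1 := by
    intro h1
    exact hcon ⟨q.num, (Rat.coe_int_num_of_den_eq_one h1).symm⟩
  obtain ⟨p, hp, hpd⟩ := Nat.exists_prime_and_dvd hden
  have hF : Fact p.Prime := ⟨hp⟩
  have h1 := h p hF
  have hnum : ¬ (p : ℤ) ∣ q.num := by
    intro h2
    have h3 : p ∣ q.num.natAbs := Int.natCast_dvd.1 h2
    exact hp.one_lt.ne' (Nat.dvd_one.1 (q.reduced ▸ Nat.dvd_gcd h3 hpd))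
  have h2 : padicNorm p (q.num : ℚ) = 1 := (padicNorm.int_eq_one_iff _).2 hnum
  have h3 : padicNorm p ((q.den : ℕ) : ℚ) < 1 := (padicNorm.nat_lt_one_iff _).2 hpd
  have h4 : q * (q.den : ℚ) = q.num := Rat.mul_den_eq_num q
  have h5 : padicNorm p q * padicNorm p ((q.den : ℕ) : ℚ) = 1 := by
    rw [← padicNorm.mul, h4, h2]
  have h6 : 0 ≤ padicNorm p q := padicNorm.nonneg _
  have h7 : 0 ≤ padicNorm p ((q.den : ℕ) : ℚ) := padicNorm.nonneg _
  nlinarith

theorem seq_of_periodic {α : Type*} (f : α → α) (P : α) {N : ℕ} (hN : 0 < N) (h : f^[N] P = P) :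
    ∃ Q : ℤ → α, (∀ n, f (Q n) = Q (n + 1)) ∧ (∀ k : ℕ, Q k = f^[k] P) ∧
      ∀ n, ∃ k : ℕ, k < N ∧ Q n = Q k := by
  have hN' : (0 : ℤ) < N := by exact_mod_cast hN
  have hstep : ∀ n : ℤ, f (f^[(n % N).toNat] P) = f^[((n + 1) % N).toNat] P := by
    intro n
    have h1 : 0 ≤ n % (N : ℤ) := Int.emod_nonneg _ hN'.ne'
    rw [← Function.iterate_succ_apply' f]
    rcases emod_succ_cases (n := n) hN' with ⟨h2, h3⟩ | ⟨h2, h3⟩
    · rw [h2]
      congr 1
      have : (n % (N : ℤ)).toNat.succ = (n % (N : ℤ) + 1).toNat := by omega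
      rw [this]
    · rw [h2]
      have : (n % (N : ℤ)).toNat.succ = N := by omega
      rw [this, h]
      rfl
  have hk : ∀ k : ℕ, (fun n : ℤ => f^[(n % N).toNat] P) k = f^[k] P := by
    intro k
    induction k with
    | zero => simp
    | succ k ih =>
      rw [Function.iterate_succ_apply', ← ih]
      have := hstep k
      push_cast
      exact this.symm
  refine ⟨fun n => f^[(n % N).toNat] P, hstep, hk, ?_⟩
  intro n
  have h1 : 0 ≤ n % (N : ℤ) := Int.emod_nonneg _ hN'.ne'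
  have h2 : n % (N : ℤ) < N := Int.emod_lt_of_pos _ hN'
  refine ⟨(n % (N : ℤ)).toNat, by omega, ?_⟩
  rw [hk]

/-- the sequence of a rational periodic point -/
theorem rat_orbit {F : ℤ[X]} {δ : ℤ} (hd : 2 ≤ F.natDegree)
    (hlc : F.leadingCoeff = 1 ∨ F.leadingCoeff = -1) {f : ℚ × ℚ → ℚ × ℚ}
    (hf : ∀ P, f P = (P.2, aeval P.2 F - δ * P.1)) {P : ℚ × ℚ} {N : ℕ} (hN : 0 < N)
    (h : f^[N] P = P) : ∃ x : ℤ → ℤ, (∃ B, ∀ n, |x n| ≤ B) ∧ IsOrbit F δ x ∧
      ∀ k : ℕ, f^[k] P = ((x k : ℚ), (x (k + 1) : ℚ)) := by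
  obtain ⟨Q, hQ, hQk, hQm⟩ := seq_of_periodic f P hN h
  have h1 : ∀ n, (Q (n + 1)).1 = (Q n).2 := fun n => by rw [← hQ n, hf]
  have h2 : ∀ n, (Q (n + 1)).2 = aeval (Q n).2 F - δ * (Q n).1 := fun n => by rw [← hQ n, hf]
  have hrec : ∀ n : ℤ, (Q (n + 1)).1 + δ * (Q (n - 1)).1 = aeval (Q n).1 F := by
    intro n
    have h3 := h2 (n - 1)
    rw [sub_add_cancel] at h3
    have h4 := h1 (n - 1)
    rw [sub_add_cancel] at h4
    rw [h1 n, h3, h4]
    ring
  have hint : ∀ n, ∃ z : ℤ, (Q n).1 = z := by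
    intro n
    refine int_of_padic fun p hp => ?_
    obtain ⟨k, hk, hmax⟩ := Finset.exists_max_image (Finset.range N)
      (fun k : ℕ => padicNorm p (Q k).1) ⟨0, Finset.mem_range.2 hN⟩
    have hmax' : ∀ n : ℤ, padicNorm p (Q n).1 ≤ padicNorm p (Q k).1 := by
      intro n
      obtain ⟨k', hk', hn⟩ := hQm n
      rw [hn]
      exact hmax k' (Finset.mem_range.2 hk')
    refine (hmax' n).trans ?_
    by_contra hcon
    push Not at hcon
    have h3 := padic_big p hd hlc hcon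
    rw [← hrec] at h3
    have h4 : padicNorm p ((Q ((k : ℤ) + 1)).1 + δ * (Q ((k : ℤ) - 1)).1) ≤
        padicNorm p (Q (k : ℤ)).1 := by
      refine (padicNorm.nonarchimedean).trans (max_le (hmax' _) ?_)
      rw [padicNorm.mul]
      calc padicNorm p (δ : ℚ) * padicNorm p (Q ((k : ℤ) - 1)).1 ≤
          1 * padicNorm p (Q ((k : ℤ) - 1)).1 :=
            mul_le_mul_of_nonneg_right (padicNorm.of_int _) (padicNorm.nonneg _)
        _ = _ := one_mul _
        _ ≤ _ := hmax' _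
    exact absurd h3 (not_lt.2 h4)
  choose x hx using hint
  refine ⟨x, ?_, ?_, ?_⟩
  · refine ⟨∑ k ∈ Finset.range N, |x k|, fun n => ?_⟩
    obtain ⟨k, hk, hn⟩ := hQm n
    have h3 : x n = x k := by
      have : (x n : ℚ) = x k := by rw [← hx, ← hx, hn]
      exact_mod_cast this
    rw [h3]
    exact Finset.single_le_sum (f := fun k : ℕ => |x k|) (fun i _ => abs_nonneg _)
      (Finset.mem_range.2 hk)
  · intro n
    have h3 := hrec n
    rw [hx, hx, hx] at h3
    have h4 : aeval ((x n : ℤ) : ℚ) F = ((F.eval (x n) : ℤ) : ℚ) := by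
      have := aeval_algebraMap_apply ℚ (x n) F
      simpa using this
    rw [h4] at h3
    exact_mod_cast h3
  · intro k
    rw [← hQk, ← hx, ← hx, h1]

theorem minimalPeriod_dvd_of {f : ℚ × ℚ → ℚ × ℚ} {P : ℚ × ℚ} {x : ℤ → ℤ}
    (hx : ∀ k : ℕ, f^[k] P = ((x k : ℚ), (x (k + 1) : ℚ))) {m : ℕ}
    (hm : ∀ n, x (n + m) = x n) : Function.minimalPeriod f P ∣ m := by
  apply Function.IsPeriodicPt.minimalPeriod_dvd
  show f^[m] P = P
  have h0 := hx 0
  have h1 := hm 0
  have h2 := hm 1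
  rw [Function.iterate_zero, id] at h0
  rw [hx m, h0]
  push_cast
  rw [zero_add] at h1
  rw [h1, add_comm (m : ℤ) 1, h2]

theorem rat_period {F : ℤ[X]} {δ : ℤ} (hδ : δ = 1 ∨ δ = -1) (hd : 2 ≤ F.natDegree)
    (hlc : F.leadingCoeff = 1 ∨ F.leadingCoeff = -1) {f : ℚ × ℚ → ℚ × ℚ}
    (hf : ∀ P, f P = (P.2, aeval P.2 F - δ * P.1)) {P : ℚ × ℚ}
    (hP : P ∈ Function.periodicPts f) :
    Function.minimalPeriod f P ∣ 4 ∨ Function.minimalPeriod f P ∣ 6 ∨
      (δ = -1 ∧ Function.minimalPeriod f P ∣ 8) := by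
  obtain ⟨N, hN, h⟩ := hP
  obtain ⟨x, hb, ho, hx⟩ := rat_orbit hd hlc hf hN h
  have key : ∀ m : ℕ, (∀ n, x (n + m) = x n) → Function.minimalPeriod f P ∣ m := fun m hm =>
    minimalPeriod_dvd_of hx hm
  rcases hδ with rfl | rfl
  · rcases cyc1_per (cyc1_of hb ho) with h1 | h1 | h1 | h1
    · exact Or.inl ((key 2 h1).trans (by norm_num))
    · exact Or.inr (Or.inl ((key 3 h1).trans (by norm_num)))
    · exact Or.inl (key 4 h1)
    · exact Or.inr (Or.inl (key 6 h1))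
  · rcases cyc2_per (classify_neg hb ho) with h1 | h1 | h1 | h1 | h1
    · exact Or.inl ((key 2 h1).trans (by norm_num))
    · exact Or.inr (Or.inl ((key 3 h1).trans (by norm_num)))
    · exact Or.inl (key 4 h1)
    · exact Or.inr (Or.inl (key 6 h1))
    · exact Or.inr (Or.inr ⟨rfl, key 8 h1⟩)

end Pool.Agent.Helper472.HC
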