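import Pool.Agent.Helper472.HC.Dfs

/-!
Integral cycles of integral Hénon maps: the cycles of diameter at most `9`.
-/

set_option autoImplicit false

namespace Pool.Agent.Helper472.HC

open Polynomial

/-- acceptance for `δ = 1`: period at most two, or `F(a) = F(0) + c a` on the cycle with
`c = -1, 0, 1` -/
def acc1 (st : List (ℤ × ℤ)) (path : List ℤ) : Bool :=
  decide (path.length ≤ 2) || ([-1, 0, 1] : List ℤ).any fun c =>
    (st.map Prod.fst).all fun a => decide (value st a = value st 0 + c * a)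

/-- the four-cycles `(0, a, b, a + b)` and `(0, a + b, b, a)`, `a = 1, 2` -/
def fam4 : List ℤ → Bool
  | [p0, p1, p2, p3] => decide (p0 = 0) &&
      (((decide (p1 = 1) || decide (p1 = 2)) && decide (p3 = p1 + p2)) ||
        ((decide (p3 = 1) || decide (p3 = 2)) && decide (p1 = p2 + p3)))
  | _ => false

/-- the sporadic cycles for `δ = -1` and their reverses -/
def spor : List (List ℤ) :=
  [[0, 1, 2], [0, 2, 1], [0, 3, 6], [0, 6, 3], [0, 3, 2, 2, 1, 4], [0, 4, 1, 2, 2, 3],
    [0, 1, 2, 1, 4, 3, 2, 3], [0, 3, 2, 3, 4, 1, 2, 1], [0, 2, 3, 1, 2, 4, 1, 3],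
    [0, 3, 1, 4, 2, 1, 3, 2]]

/-- acceptance for `δ = -1` -/
def acc2 (_ : List (ℤ × ℤ)) (path : List ℤ) : Bool :=
  decide (path.length ≤ 2) || (fam4 path || spor.contains path)

theorem run1 : (List.range 10).all (fun m => go 1 9 0 m acc1 24 [] 0 m []) = true := by
  decide +kernel

theorem run2 : (List.range 10).all (fun m => go (-1) 9 0 m acc2 24 [] 0 m []) = true := by
  decide +kernel

end Pool.Agent.Helper472.HC
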